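import Mathlib

/-!
Veering triangulations and their taut polynomial (Landry, Minsky, Taylor), in combinatorial form.

Model tetrahedron.  Seen from above, its vertices are W, S, E, N in anticlockwise order.  The six
edges are numbered 0 = WE (the bottom edge, angle pi), 1 = NS (the top edge, angle pi), and
2 = NW, 3 = EN, 4 = SE, 5 = WS (the four edges of angle 0).  The two top faces (cooriented out of
the tetrahedron) are NWS (`false`) and SEN (`true`); the two bottom faces (cooriented into the
tetrahedron) are WEN (`false`) and EWS (`true`).
-/

set_option autoImplicit false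

namespace Pool.Agent.Lib.MP_75051e_gt

/-- the edges of a top face, in anticlockwise order seen from above -/
def topE : Bool → Fin 3 → Fin 6
  | false => ![1, 2, 5]
  | true => ![1, 4, 3]

/-- the edges of a bottom face, in anticlockwise order seen from above -/
def botE : Bool → Fin 3 → Fin 6
  | false => ![0, 3, 2]
  | true => ![0, 5, 4]

/-- Finitely many model tetrahedra; every top face `f` is glued to the bottom face `glue f`,
respecting orientation and coorientation, so the gluing map is a rotation `rot f`.
A face of the triangulation is named by the top face that it comes from. -/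
structure Gluing : Type 1 where
  T : Type
  [fin : Fintype T]
  [dec : DecidableEq T]
  glue : T × Bool ≃ T × Bool
  rot : T × Bool → Fin 3

attribute [instance] Gluing.fin Gluing.dec

namespace Gluing

variable (G : Gluing)

/-- edge number `i` of the face `f`, as an edge of the tetrahedron below `f` -/
def lo (f : G.T × Bool) (i : Fin 3) : G.T × Fin 6 := (f.1, topE f.2 i)

/-- the same edge, as an edge of the tetrahedron above `f` -/
def up (f : G.T × Bool) (i : Fin 3) : G.T × Fin 6 :=
  ((G.glue f).1, botE (G.glue f).2 (i + G.rot f))

/-- two edges of tetrahedra are the same edge of the triangulation -/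
def SameEdge : G.T × Fin 6 → G.T × Fin 6 → Prop :=
  Relation.EqvGen fun a b => ∃ f i, a = G.lo f i ∧ b = G.up f i

/-- A veering triangulation: connected, angle sum `2 pi` around every edge, and a colouring of
the edges (`false` = red, `true` = blue) reading red, blue, red, blue anticlockwise from the
endpoint N of the top edge. -/
structure IsVeering : Prop where
  nonempty : Nonempty G.T
  connected : ∀ t t' : G.T, Relation.EqvGen (fun a b => ∃ k, b = (G.glue (a, k)).1) t t'
  angle : ∀ a, {b | G.SameEdge a b ∧ (b.2 = 0 ∨ b.2 = 1)}.ncard = 2
  colour : ∃ col : G.T × Fin 6 → Bool, (∀ a b, G.SameEdge a b → col a = col b) ∧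
    ∀ t, col (t, 2) = false ∧ col (t, 5) = true ∧ col (t, 4) = false ∧ col (t, 3) = true

variable {G}

/-- A 1-cocycle of the dual 2-complex (its edges are the faces, oriented upwards): the sum around
every edge of the triangulation vanishes, that is, there is a primitive around the edges. -/
def IsCocycle {A : Type} [AddCommGroup A] (c : G.T × Bool → A) : Prop :=
  ∃ p : G.T × Fin 6 → A, ∀ f i, p (G.up f i) = p (G.lo f i) + c f

/-- a 1-coboundary of the dual 2-complex -/
def IsCoboundary {A : Type} [AddCommGroup A] (c : G.T × Bool → A) : Prop :=
  ∃ q : G.T → A, ∀ f, c f = q (G.glue f).1 - q f.1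

/-- The cocycle `φ` represents an identification of `H_1(M; Z) / torsion` with `Z^b`:
composition with `φ` is a bijection from `Hom(Z^b, Z)` onto `H^1(M; Z)`. -/
def IsFreeAb {b : ℕ} (φ : G.T × Bool → (Fin b → ℤ)) : Prop :=
  IsCocycle φ ∧ ∀ c : G.T × Bool → ℤ, IsCocycle c →
    ∃! ψ : (Fin b → ℤ) →+ ℤ, IsCoboundary fun f => c f - ψ (φ f)

/-- the group ring `Z[H]`, `H = Z^b` -/
abbrev GR (b : ℕ) : Type := AddMonoidAlgebra ℤ (Fin b → ℤ)

/-- Relations of the taut module.  Generators: the edges of the tetrahedra (of the chosen lifts to
the maximal free abelian cover).  First kind: the identification of edges across a face, in the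
cover.  Second kind: in every face, the bottom edge is the sum of the other two edges. -/
def tautRel {b : ℕ} (φ : G.T × Bool → (Fin b → ℤ)) : Set (G.T × Fin 6 →₀ GR b) :=
  {r | (∃ f i, r = Finsupp.single (G.lo f i) 1 -
          Finsupp.single (G.up f i) (AddMonoidAlgebra.single (φ f) 1)) ∨
       ∃ t k, r = Finsupp.single (t, botE k 0) 1 -
          (Finsupp.single (t, botE k 1) 1 + Finsupp.single (t, botE k 2) 1)}

/-- the taut module -/
abbrev TautModule {b : ℕ} (φ : G.T × Bool → (Fin b → ℤ)) : Type :=
  (G.T × Fin 6 →₀ GR b) ⧸ Submodule.span (GR b) (tautRel φ)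

end Gluing

/-- The Fitting ideal (of order zero) of a module: it is generated by the determinants of the
square matrices of relations among finite generating families. -/
def fitting (R M : Type) [CommRing R] [AddCommGroup M] [Module R M] : Ideal R :=
  Ideal.span {d | ∃ (n : ℕ) (x : Fin n → M) (B : Matrix (Fin n) (Fin n) R),
    Submodule.span R (Set.range x) = ⊤ ∧ (∀ i, ∑ j, B i j • x j = 0) ∧ d = B.det}

/-- `Θ` is a greatest common divisor of the Fitting ideal of the taut module -/
def IsTautPoly {G : Gluing} {b : ℕ} (φ : G.T × Bool → (Fin b → ℤ)) (Θ : Gluing.GR b) : Prop :=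
  (∀ d ∈ fitting (Gluing.GR b) (Gluing.TautModule φ), Θ ∣ d) ∧
    ∀ e, (∀ d ∈ fitting (Gluing.GR b) (Gluing.TautModule φ), e ∣ d) → e ∣ Θ

/-- Cross the face `f` upwards and pass to the top face that shares an edge of colour `c` with
the bottom face reached. -/
def turn (G : Gluing) (c : Bool) (f : G.T × Bool) : G.T × Bool :=
  ((G.glue f).1, xor (G.glue f).2 c)

/-- the rotation of a face that has two edges of colour `c` -/
def rho (c : Bool) : Fin 3 := if c then 1 else 2

/-- The closed upward path of the dual graph that starts with the face `f` and always turns along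
edges of colour `c` crosses an odd number of faces with two edges of colour `c`, and it is
trivial in `H_1(M; Z) / torsion`. -/
def OddNullCycle {G : Gluing} {b : ℕ} (φ : G.T × Bool → (Fin b → ℤ)) (c : Bool)
    (f : G.T × Bool) : Prop :=
  Odd ((Finset.range (Function.minimalPeriod (turn G c) f)).filter
    fun a => G.rot ((turn G c)^[a] f) = rho c).card ∧
  ∑ a ∈ Finset.range (Function.minimalPeriod (turn G c) f), φ ((turn G c)^[a] f) = 0

end Pool.Agent.Lib.MP_75051e_gt
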