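import Pool.Agent.Lib.MP_75051e_gt.Defs

-- part Pool.Agent.Lib.MP_75051e_gt.Basic
section

/-!
Basic facts: roles of the edges of a face, the taut module, Fitting ideals, colour cycles.
-/

set_option autoImplicit false

namespace Pool.Agent.Lib.MP_75051e_gt

open Finset Gluing

/-- the edge of colour `c` and angle 0 in the bottom face `k` -/
def sh (c k : Bool) : Fin 6 := if c then (if k then 5 else 3) else (if k then 4 else 2)
def iW (c : Bool) : Fin 3 := if c then 2 else 1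
def iO (c : Bool) : Fin 3 := if c then 1 else 2

lemma topE_zero (k : Bool) : topE k 0 = 1 := by cases k <;> rfl
lemma topE_iW (k c : Bool) : topE k (iW c) = sh c (xor k c) := by cases k <;> cases c <;> rfl
lemma topE_iO (k c : Bool) : topE k (iO c) = sh (!c) (xor k (!c)) := by
  cases k <;> cases c <;> rfl
lemma botE_T (k c : Bool) : botE k (0 + rho c) = sh c k := by cases k <;> cases c <;> rfl
lemma botE_W (k c : Bool) : botE k (iW c + rho c) = 0 := by cases k <;> cases c <;> rfl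
lemma botE_O (k c : Bool) : botE k (iO c + rho c) = sh (!c) k := by cases k <;> cases c <;> rfl
lemma tri (c : Bool) (i : Fin 3) : i = 0 ∨ i = iW c ∨ i = iO c := by revert c i; decide
lemma iW_ne (c : Bool) : iW c ≠ iO c := by revert c; decide
lemma zero_ne_iO (c : Bool) : (0 : Fin 3) ≠ iO c := by revert c; decide
lemma slot_cases (c : Bool) (s : Fin 6) : s = 0 ∨ s = 1 ∨ s = sh c false ∨ s = sh c true ∨
    s = sh (!c) false ∨ s = sh (!c) true := by revert c s; decide
lemma sh_ne_zero (c k : Bool) : sh c k ≠ 0 := by revert c k; decide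
lemma sh_ne_one (c k : Bool) : sh c k ≠ 1 := by revert c k; decide
lemma sh_ne_not (c k k' : Bool) : sh (!c) k ≠ sh c k' := by revert c k k'; decide
lemma sh_inj (c k k' : Bool) (h : sh c k = sh c k') : k = k' := by revert c k k'; decide

section faces

variable {G : Gluing} {c : Bool} {f : G.T × Bool}

lemma lo_T (f : G.T × Bool) : G.lo f 0 = (f.1, 1) := by rw [lo, topE_zero]
lemma lo_W (f : G.T × Bool) (c : Bool) : G.lo f (iW c) = (f.1, sh c (xor f.2 c)) := by
  rw [lo, topE_iW]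
lemma lo_O (f : G.T × Bool) (c : Bool) : G.lo f (iO c) = (f.1, sh (!c) (xor f.2 (!c))) := by
  rw [lo, topE_iO]
lemma up_T (h : G.rot f = rho c) : G.up f 0 = ((G.glue f).1, sh c (G.glue f).2) := by
  rw [up, h, botE_T]
lemma up_W (h : G.rot f = rho c) : G.up f (iW c) = ((G.glue f).1, 0) := by rw [up, h, botE_W]
lemma up_O (h : G.rot f = rho c) : G.up f (iO c) = ((G.glue f).1, sh (!c) (G.glue f).2) := by
  rw [up, h, botE_O]

lemma same_glue (f : G.T × Bool) (i : Fin 3) : G.SameEdge (G.lo f i) (G.up f i) :=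
  Relation.EqvGen.rel _ _ ⟨f, i, rfl, rfl⟩

lemma eq_of_same {A : Type} {w : G.T × Fin 6 → A} (h : ∀ f i, w (G.lo f i) = w (G.up f i))
    {a b : G.T × Fin 6} (hab : G.SameEdge a b) : w a = w b := by
  induction hab with
  | rel a b r => obtain ⟨f, i, rfl, rfl⟩ := r; exact h f i
  | refl => rfl
  | symm _ _ _ ih => exact ih.symm
  | trans _ _ _ _ _ ih ih' => exact ih.trans ih'

lemma exists_col (hG : G.IsVeering) : ∃ col : G.T × Fin 6 → Bool,
    (∀ f i, col (G.lo f i) = col (G.up f i)) ∧ ∀ t c k, col (t, sh c k) = c := by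
  obtain ⟨col, h1, h2⟩ := hG.colour
  refine ⟨col, fun f i => h1 _ _ (same_glue f i), fun t c k => ?_⟩
  obtain ⟨a, b, d, e⟩ := h2 t
  cases c <;> cases k <;> assumption

lemma rot_cases (hG : G.IsVeering) (c : Bool) (f : G.T × Bool) (h : G.rot f ≠ rho c) :
    G.rot f = rho (!c) := by
  obtain ⟨col, h1, h2⟩ := exists_col hG
  have h0 : G.rot f ≠ 0 := by
    intro e
    have := h1 f 1
    rw [lo, up, e, show topE f.2 1 = sh false f.2 by cases f.2 <;> rfl,
      show botE (G.glue f).2 (1 + 0) = sh true (G.glue f).2 by cases (G.glue f).2 <;> rfl,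
      h2, h2] at this
    exact absurd this (by decide)
  revert h h0
  generalize G.rot f = r
  revert c r
  decide

lemma turn_injective (G : Gluing) (c : Bool) : Function.Injective (turn G c) := by
  intro x y h
  obtain ⟨h1, h2⟩ := Prod.ext_iff.1 h
  refine G.glue.injective (Prod.ext h1 ?_)
  simpa [turn] using h2

end faces

section module

variable {G : Gluing} {b : ℕ} (φ : G.T × Bool → (Fin b → ℤ))

/-- the group element as an element of the group ring -/
noncomputable def ee (h : Fin b → ℤ) : GR b := AddMonoidAlgebra.single h 1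

lemma ee_add (x y : Fin b → ℤ) : ee (x + y) = ee x * ee y := by
  simp [ee, AddMonoidAlgebra.single_mul_single]

lemma ee_zero : ee (0 : Fin b → ℤ) = 1 := rfl

lemma ee_smul {M : Type} [AddCommGroup M] [Module (GR b) M] (x y : Fin b → ℤ) (m : M) :
    ee x • ee y • m = ee (x + y) • m := by rw [ee_add, mul_smul]

/-- the generators of the taut module -/
noncomputable def gen (s : G.T × Fin 6) : TautModule φ :=
  Submodule.Quotient.mk (Finsupp.single s 1)

lemma gen_glue (f : G.T × Bool) (i : Fin 3) :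
    gen φ (G.lo f i) = ee (φ f) • gen φ (G.up f i) := by
  rw [gen, gen, ← Submodule.Quotient.mk_smul, Submodule.Quotient.eq, Finsupp.smul_single,
    smul_eq_mul, mul_one]
  exact Submodule.subset_span (Or.inl ⟨f, i, rfl⟩)

lemma bot_iff {A : Type} [AddCommMonoid A] (w : Fin 6 → A) (c k : Bool) :
    w (botE k 0) = w (botE k 1) + w (botE k 2) ↔ w 0 = w (sh c k) + w (sh (!c) k) := by
  cases c <;> cases k
  · rw [add_comm]; rfl
  · rw [add_comm]; rfl
  · rfl
  · rfl

lemma gen_bot (t : G.T) (c k : Bool) :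
    gen φ (t, 0) = gen φ (t, sh c k) + gen φ (t, sh (!c) k) := by
  rw [← bot_iff (fun s => gen φ (t, s)) c k, gen, gen, gen, ← Submodule.Quotient.mk_add,
    Submodule.Quotient.eq]
  exact Submodule.subset_span (Or.inr ⟨t, k, rfl⟩)

lemma gen_top {c : Bool} {f : G.T × Bool} (h : G.rot f = rho c) :
    gen φ (f.1, sh c (xor f.2 c)) = gen φ (f.1, 1) + gen φ (f.1, sh (!c) (xor f.2 (!c))) := by
  rw [← lo_W, ← lo_T, ← lo_O, gen_glue, gen_glue, gen_glue, up_W h, up_T h, up_O h,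
    gen_bot φ _ c, smul_add]

lemma span_gen {N : Submodule (GR b) (TautModule φ)} (h : ∀ s, gen φ s ∈ N) : N = ⊤ := by
  refine eq_top_iff.2 fun x _ => ?_
  obtain ⟨y, rfl⟩ := Submodule.Quotient.mk_surjective _ x
  induction y using Finsupp.induction_linear with
  | zero => exact N.zero_mem
  | add u v hu hv => exact N.add_mem (hu trivial) (hv trivial)
  | single s r =>
    have := N.smul_mem r (h s)
    rwa [gen, ← Submodule.Quotient.mk_smul, Finsupp.smul_single, smul_eq_mul, mul_one] at this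

lemma exists_lift {N : Type} [AddCommGroup N] [Module (GR b) N] (c : Bool) (v : G.T × Fin 6 → N)
    (h1 : ∀ f i, v (G.lo f i) = ee (φ f) • v (G.up f i))
    (h2 : ∀ t k, v (t, 0) = v (t, sh c k) + v (t, sh (!c) k)) :
    ∃ L : TautModule φ →ₗ[GR b] N, ∀ s, L (gen φ s) = v s := by
  refine ⟨Submodule.liftQ _ (Finsupp.linearCombination (GR b) v) ?_, fun s => ?_⟩
  · refine Submodule.span_le.2 ?_
    rintro r (⟨f, i, rfl⟩ | ⟨t, k, rfl⟩)
    · simp [h1, ee]
    · have := (bot_iff (fun s => v (t, s)) c k).2 (h2 t k)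
      simp [this]
  · simp [gen]

lemma fitting_mono {R M N : Type} [CommRing R] [AddCommGroup M] [Module R M] [AddCommGroup N]
    [Module R N] (L : M →ₗ[R] N) (hL : LinearMap.range L = ⊤) : fitting R M ≤ fitting R N := by
  refine Ideal.span_mono ?_
  rintro d ⟨n, x, B, h1, h2, rfl⟩
  refine ⟨n, L ∘ x, B, ?_, fun i => ?_, rfl⟩
  · rw [Set.range_comp, Submodule.span_image, h1, Submodule.map_top, hL]
  · have := congrArg L (h2 i)
    simpa [map_sum] using this

end module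

section sums

variable {h : ℕ} [NeZero h] {A : Type} [AddCommGroup A]

lemma sum_range_zmod (g : ZMod h → A) : ∑ i ∈ range h, g i = ∑ j, g j := by
  refine sum_nbij' (fun i => (i : ZMod h)) ZMod.val (fun _ _ => mem_univ _)
    (fun j _ => mem_range.2 (ZMod.val_lt j)) (fun i hi => ?_) (fun j _ => ?_) fun _ _ => rfl
  · exact ZMod.val_cast_of_lt (mem_range.1 hi)
  · exact ZMod.natCast_zmod_val j

lemma sum_range_mul (g : ZMod h → A) (q : ℕ) : ∑ i ∈ range (q * h), g i = q • ∑ j, g j := by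
  induction q with
  | zero => simp
  | succ q ih =>
    rw [Nat.succ_mul, sum_range_add, ih, succ_nsmul, ← sum_range_zmod g]
    simp

lemma sum_shift (g : ZMod h → A) (k : ZMod h) : ∑ j, g (j + k) = ∑ j, g j :=
  Equiv.sum_comp (Equiv.addRight k) g

lemma sum_tel (g u : ZMod h → A) (e : ∀ j, u j = u (j + 1) + g (j + 1)) : ∑ j, g j = 0 := by
  have h1 : ∑ j, u j = ∑ j, u (j + 1) + ∑ j, g (j + 1) := by
    rw [← sum_add_distrib]
    exact sum_congr rfl fun j _ => e j
  rw [sum_shift u 1, sum_shift g 1] at h1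
  exact left_eq_add.1 h1

/-- alternating partial sums -/
def TT (g : ZMod h → A) (j : ZMod h) (a : ℕ) : A := ∑ i ∈ range a, g (j - 1 - 2 * i)

omit [NeZero h] in
lemma TT_zero (g : ZMod h → A) (j : ZMod h) : TT g j 0 = 0 := rfl

omit [NeZero h] in
lemma TT_succ (g : ZMod h → A) (j : ZMod h) (a : ℕ) :
    TT g j (a + 1) = TT g j a + g (j - 1 - 2 * a) := sum_range_succ _ _

omit [NeZero h] in
lemma TT_shift (g : ZMod h → A) (j : ZMod h) (a : ℕ) :
    TT g (j + 2) (a + 1) = TT g j a + g (j + 1) := by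
  rw [TT, sum_range_succ', TT]
  congr 1
  · exact sum_congr rfl fun i _ => congrArg g (by push_cast; ring)
  · exact congrArg g (by push_cast; ring)

lemma TT_full (ho : Odd h) (g : ZMod h → A) (hg : ∑ j, g j = 0) (j : ZMod h) (q : ℕ) :
    TT g j (q * h) = 0 := by
  rw [TT, sum_range_mul (fun i => g (j - 1 - 2 * i)) q]
  have hu : IsUnit (2 : ZMod h) := by
    have := (ZMod.isUnit_iff_coprime 2 h).2 (Nat.coprime_two_left.2 ho)
    exact_mod_cast this
  have hb : Function.Bijective fun i : ZMod h => j - 1 - 2 * i :=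
    Finite.injective_iff_bijective.1 fun x y e => hu.mul_left_cancel (sub_right_injective e)
  rw [hb.sum_comp g, hg, smul_zero]

end sums

/-- a colour cycle with an odd number of faces of its colour and trivial homology class -/
structure Loop (G : Gluing) (c : Bool) {b : ℕ} (φ : G.T × Bool → (Fin b → ℤ)) where
  h : ℕ
  odd : Odd h
  O : Finset (G.T × Bool)
  ind : G.T × Bool → ZMod h
  F : ZMod h → G.T × Bool
  P : G.T × Bool → (Fin b → ℤ)
  mem_turn : ∀ x, turn G c x ∈ O ↔ x ∈ O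
  F_mem : ∀ j, F j ∈ O
  F_rot : ∀ j, G.rot (F j) = rho c
  ind_F : ∀ j, ind (F j) = j
  F_ind : ∀ x ∈ O, G.rot x = rho c → F (ind x) = x
  ind_red : ∀ j, ind (turn G c (F j)) = j + 1
  ind_blue : ∀ x ∈ O, G.rot x ≠ rho c → ind (turn G c x) = ind x
  blue : ∀ x, G.rot x ≠ rho c → G.rot x = rho (!c)
  P_turn : ∀ x ∈ O, P (turn G c x) = P x + φ x
  induct : ∀ Q : G.T × Bool → Prop, (∀ j, Q (turn G c (F j))) →
    (∀ x ∈ O, G.rot x ≠ rho c → Q x → Q (turn G c x)) → ∀ x ∈ O, Q x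

lemma exists_primitive {α A : Type} [AddCommGroup A] (σ : α → α) (f : α)
    (hp : f ∈ Function.periodicPts σ) (g : α → A)
    (hg : ∑ a ∈ range (Function.minimalPeriod σ f), g (σ^[a] f) = 0) :
    ∃ U : α → A, ∀ a, U (σ^[a] f) = ∑ e ∈ range a, g (σ^[e] f) := by
  classical
  set L := Function.minimalPeriod σ f with hL
  have hpos : 0 < L := Function.minimalPeriod_pos_of_mem_periodicPts hp
  have per : ∀ k r, ∑ e ∈ range (L * k + r), g (σ^[e] f) = ∑ e ∈ range r, g (σ^[e] f) := by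
    intro k r
    induction k with
    | zero => simp
    | succ k ih =>
      rw [show L * (k + 1) + r = L + (L * k + r) by ring, sum_range_add, hg, zero_add, ← ih]
      refine sum_congr rfl fun e _ => ?_
      rw [add_comm L e, hL, Function.iterate_add_minimalPeriod_eq]
  have md : ∀ a, ∑ e ∈ range a, g (σ^[e] f) = ∑ e ∈ range (a % L), g (σ^[e] f) := fun a => by
    conv_lhs => rw [← Nat.div_add_mod a L]
    exact per _ _
  refine ⟨fun x => if h : ∃ a, σ^[a] f = x then ∑ e ∈ range h.choose, g (σ^[e] f) else 0,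
    fun a => ?_⟩
  have hex : ∃ a', σ^[a'] f = σ^[a] f := ⟨a, rfl⟩
  have e := hex.choose_spec
  simp only [dif_pos hex]
  generalize hex.choose = a' at e
  rw [← Function.iterate_mod_minimalPeriod_eq, ← Function.iterate_mod_minimalPeriod_eq (n := a),
    Function.iterate_eq_iterate_iff_of_lt_minimalPeriod (Nat.mod_lt _ hpos)
      (Nat.mod_lt _ hpos)] at e
  rw [md a', md a]
  exact congrArg (fun r => ∑ e ∈ range r, g (σ^[e] f)) e

theorem exists_loop {G : Gluing} (hG : G.IsVeering) {b : ℕ} {φ : G.T × Bool → (Fin b → ℤ)}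
    {c : Bool} {f : G.T × Bool} (hf : OddNullCycle φ c f) : Nonempty (Loop G c φ) := by
  classical
  obtain ⟨ho, h0⟩ := hf
  set σ := turn G c with hσ
  set L := Function.minimalPeriod σ f with hL
  have hp : f ∈ Function.periodicPts σ := (turn_injective G c).mem_periodicPts f
  have hpos : 0 < L := Function.minimalPeriod_pos_of_mem_periodicPts hp
  let p : ℕ → Prop := fun a => G.rot (σ^[a] f) = rho c
  rw [← Nat.count_eq_card_filter_range p] at ho
  set h := Nat.count p L with hh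
  have : NeZero h := ⟨ho.pos.ne'⟩
  have cnt : ∀ a, ∑ e ∈ range a, (if G.rot (σ^[e] f) = rho c then (1 : ZMod h) else 0) =
      (Nat.count p a : ZMod h) := fun a => by
    rw [Nat.count_eq_card_filter_range, card_filter]
    push_cast
    rfl
  obtain ⟨P, hP⟩ := exists_primitive σ f hp φ h0
  obtain ⟨I, hI⟩ := exists_primitive σ f hp
    (fun x => if G.rot x = rho c then (1 : ZMod h) else 0) (by rw [cnt]; exact ZMod.natCast_self h)
  let O : Finset (G.T × Bool) := (range L).image fun a => σ^[a] f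
  have mem : ∀ x, x ∈ O ↔ ∃ a, σ^[a] f = x := fun x => by
    rw [mem_image]
    exact ⟨fun ⟨a, _, e⟩ => ⟨a, e⟩, fun ⟨a, e⟩ => ⟨a % L, mem_range.2 (Nat.mod_lt _ hpos),
      Function.iterate_mod_minimalPeriod_eq.trans e⟩⟩
  have step : ∀ x ∈ O, I (σ x) = I x + if G.rot x = rho c then 1 else 0 := fun x hx => by
    obtain ⟨a, rfl⟩ := (mem x).1 hx
    rw [← Function.iterate_succ_apply' σ, hI, hI, sum_range_succ]
  have inj : Set.InjOn I (O.filter fun x => G.rot x = rho c) := by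
    intro x hx y hy e
    obtain ⟨hx1, hx2⟩ := mem_filter.1 hx
    obtain ⟨hy1, hy2⟩ := mem_filter.1 hy
    obtain ⟨a, ha, rfl⟩ := mem_image.1 hx1
    obtain ⟨a', ha', rfl⟩ := mem_image.1 hy1
    rw [hI, hI, cnt, cnt] at e
    have l1 : Nat.count p a < h := Nat.count_strict_mono hx2 (mem_range.1 ha)
    have l2 : Nat.count p a' < h := Nat.count_strict_mono hy2 (mem_range.1 ha')
    have e' := congrArg ZMod.val e
    rw [ZMod.val_cast_of_lt l1, ZMod.val_cast_of_lt l2] at e'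
    rw [Nat.count_injective (p := p) hx2 hy2 e']
  have card : (O.filter fun x => G.rot x = rho c).card = h := by
    rw [filter_image, card_image_of_injOn, hh, Nat.count_eq_card_filter_range]
    intro a ha a' ha' e
    exact Function.iterate_injOn_Iio_minimalPeriod (mem_range.1 (mem_filter.1 ha).1)
      (mem_range.1 (mem_filter.1 ha').1) e
  have surj := surjOn_of_injOn_of_card_le (t := (univ : Finset (ZMod h))) I
    (fun _ _ => mem_univ _) inj (by rw [card_univ, ZMod.card, card])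
  have ex : ∀ j, ∃ x, (x ∈ O ∧ G.rot x = rho c) ∧ I x = j := fun j => by
    obtain ⟨x, hx, e⟩ := surj (mem_coe.2 (mem_univ j))
    exact ⟨x, mem_filter.1 hx, e⟩
  choose F hF hF' using ex
  have Find : ∀ x ∈ O, G.rot x = rho c → F (I x) = x := fun x hx hr =>
    inj (mem_filter.2 (hF _)) (mem_filter.2 ⟨hx, hr⟩) (hF' _)
  have fwd : ∀ x ∈ O, σ x ∈ O := fun x hx => by
    obtain ⟨a, rfl⟩ := (mem x).1 hx
    exact (mem _).2 ⟨a + 1, Function.iterate_succ_apply' σ a f⟩
  refine ⟨⟨h, ho, O, I, F, P, fun x => ⟨fun hx => ?_, fwd x⟩, fun j => (hF j).1,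
    fun j => (hF j).2, hF', Find, fun j => ?_, fun x hx hr => ?_, rot_cases hG c,
    fun x hx => ?_, fun Q h1 h2 x hx => ?_⟩⟩
  · obtain ⟨a, e⟩ := (mem _).1 hx
    refine (mem _).2 ⟨a + L - 1, turn_injective G c ?_⟩
    change σ _ = σ x
    rw [← Function.iterate_succ_apply' σ, show (a + L - 1).succ = a + L by omega, hL,
      Function.iterate_add_minimalPeriod_eq, e]
  · rw [step _ (hF j).1, if_pos (hF j).2, hF']
  · rw [step _ hx, if_neg hr, add_zero]
  · obtain ⟨a, rfl⟩ := (mem x).1 hx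
    rw [← hσ, ← Function.iterate_succ_apply' σ, hP, hP, sum_range_succ]
  · have key : ∀ e, σ^[e + 1] (F 0) ∈ O ∧ Q (σ^[e + 1] (F 0)) := by
      intro e
      induction e with
      | zero => exact ⟨fwd _ (hF 0).1, h1 0⟩
      | succ e ih =>
        rw [Function.iterate_succ_apply']
        refine ⟨fwd _ ih.1, ?_⟩
        by_cases hr : G.rot (σ^[e + 1] (F 0)) = rho c
        · rw [← Find _ ih.1 hr]; exact h1 _
        · exact h2 _ ih.1 hr ih.2
    obtain ⟨a0, ha0, e0⟩ := mem_image.1 (hF 0).1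
    obtain ⟨a, rfl⟩ := (mem x).1 hx
    have := (key (a + L - a0 - 1)).2
    have l := mem_range.1 ha0
    rwa [← e0, ← Function.iterate_add_apply, show a + L - a0 - 1 + 1 + a0 = a + L by omega, hL,
      Function.iterate_add_minimalPeriod_eq] at this

end Pool.Agent.Lib.MP_75051e_gt
end

-- part Pool.Agent.Lib.MP_75051e_gt.Surgery
section

/-!
Inserting layers of fan tetrahedra along a colour cycle.
-/

set_option autoImplicit false

namespace Pool.Agent.Lib.MP_75051e_gt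

open Finset Gluing

lemma own_lo (c k : Bool) (i : Fin 3) :
    sh c (xor (if topE k i = sh c false then c else !c) c) = topE k i →
      (if topE k i = sh c false then c else !c) = k := by revert c k i; decide

lemma own_up (c k : Bool) (i : Fin 3) :
    sh c (xor (if botE k i = sh c false then c else !c) c) = botE k i →
      (if botE k i = sh c false then c else !c) = xor k c := by revert c k i; decide

namespace Loop

variable {G : Gluing} {c : Bool} {b : ℕ} {φ : G.T × Bool → (Fin b → ℤ)} (D : Loop G c φ)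

instance : NeZero D.h := ⟨D.odd.pos.ne'⟩

/-- faces of the cycle that have two edges of its colour -/
def J (x : G.T × Bool) : Prop := x ∈ D.O ∧ G.rot x = rho c

instance (x : G.T × Bool) : Decidable (D.J x) := inferInstanceAs (Decidable (_ ∧ _))

lemma J_F (j : ZMod D.h) : D.J (D.F j) := ⟨D.F_mem j, D.F_rot j⟩
lemma J.eq {D : Loop G c φ} {x : G.T × Bool} (h : D.J x) : D.F (D.ind x) = x := D.F_ind x h.1 h.2

/-- the edge along which the cycle turns before it crosses `x` -/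
def mid (_D : Loop G c φ) (x : G.T × Bool) : G.T × Fin 6 := (x.1, sh c (xor x.2 c))
def own (_D : Loop G c φ) (s : G.T × Fin 6) : G.T × Bool :=
  (s.1, if s.2 = sh c false then c else !c)
def IsMid (s : G.T × Fin 6) : Prop := D.own s ∈ D.O ∧ D.mid (D.own s) = s

instance (s : G.T × Fin 6) : Decidable (D.IsMid s) := inferInstanceAs (Decidable (_ ∧ _))

lemma own_mid (x : G.T × Bool) : D.own (D.mid x) = x := by
  obtain ⟨t, k⟩ := x
  refine Prod.ext rfl ?_
  simp only [own, mid]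
  cases c <;> cases k <;> rfl

lemma isMid_mid {x : G.T × Bool} (h : x ∈ D.O) : D.IsMid (D.mid x) := by
  rw [IsMid, own_mid]; exact ⟨h, rfl⟩

lemma mid_turn (x : G.T × Bool) :
    D.mid (turn G c x) = ((G.glue x).1, sh c (G.glue x).2) := by simp [mid, turn]

lemma not_mid {s : G.T × Fin 6} (h : ∀ k, s.2 ≠ sh c k) : ¬ D.IsMid s := fun e =>
  h _ (congrArg Prod.snd e.2).symm

lemma not_mid_one (t : G.T) : ¬ D.IsMid (t, 1) := D.not_mid fun k => (sh_ne_one c k).symm
lemma not_mid_zero (t : G.T) : ¬ D.IsMid (t, 0) := D.not_mid fun k => (sh_ne_zero c k).symm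
lemma not_mid_not (t : G.T) (k : Bool) : ¬ D.IsMid (t, sh (!c) k) :=
  D.not_mid fun k' => sh_ne_not c k k'

lemma lo_blue (x : G.T × Bool) : G.lo x (iO (!c)) = D.mid x := by
  rw [lo_O, Bool.not_not]; rfl

lemma up_blue {x : G.T × Bool} (h : G.rot x ≠ rho c) :
    G.up x (iO (!c)) = D.mid (turn G c x) := by
  rw [up_O (D.blue x h), Bool.not_not, mid_turn]

lemma old_face {x : G.T × Bool} (hx : ¬ D.J x) (i : Fin 3) :
    (¬ D.IsMid (G.lo x i) ∧ ¬ D.IsMid (G.up x i)) ∨ (x ∈ D.O ∧ G.rot x ≠ rho c ∧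
      G.lo x i = D.mid x ∧ G.up x i = D.mid (turn G c x)) := by
  by_cases hO : x ∈ D.O
  · have hr : G.rot x ≠ rho c := fun e => hx ⟨hO, e⟩
    rcases tri (!c) i with rfl | rfl | rfl
    · rw [lo_T, up_T (D.blue x hr)]
      exact Or.inl ⟨D.not_mid_one _, D.not_mid_not _ _⟩
    · rw [lo_W, up_W (D.blue x hr)]
      exact Or.inl ⟨D.not_mid_not _ _, D.not_mid_zero _⟩
    · exact Or.inr ⟨hO, hr, D.lo_blue x, D.up_blue hr⟩
  · refine Or.inl ⟨fun e => hO ?_, fun e => hO ((D.mem_turn x).1 ?_)⟩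
    · obtain ⟨e1, e2⟩ := e
      have : D.own (G.lo x i) = x := by
        refine Prod.ext rfl ?_
        exact own_lo c x.2 i (congrArg Prod.snd e2)
      rwa [this] at e1
    · obtain ⟨e1, e2⟩ := e
      have : D.own (G.up x i) = turn G c x := by
        refine Prod.ext rfl ?_
        exact own_up c (G.glue x).2 (i + G.rot x) (congrArg Prod.snd e2)
      rwa [this] at e1

/-- a function that is constant along the blue steps is determined by the index -/
lemma chain {A : Type} (u : G.T × Bool → A)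
    (h : ∀ x ∈ D.O, G.rot x ≠ rho c → u (turn G c x) = u x) :
    ∀ x ∈ D.O, u x = u (turn G c (D.F (D.ind x - 1))) := by
  refine D.induct _ (fun j => ?_) fun x hx hr ih => ?_
  · rw [D.ind_red, add_sub_cancel_right]
  · rw [h x hx hr, D.ind_blue x hx hr, ih]

/-- the special edges of the faces of the cycle -/
def S (j : ZMod D.h) : G.T × Fin 6 := ((D.F j).1, 1)
def Z (j : ZMod D.h) : G.T × Fin 6 := ((G.glue (D.F j)).1, 0)
def oL (j : ZMod D.h) : G.T × Fin 6 := ((D.F j).1, sh (!c) (xor (D.F j).2 (!c)))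
def oU (j : ZMod D.h) : G.T × Fin 6 := ((G.glue (D.F j)).1, sh (!c) (G.glue (D.F j)).2)

lemma loT (j : ZMod D.h) : G.lo (D.F j) 0 = D.S j := lo_T _
lemma loW (j : ZMod D.h) : G.lo (D.F j) (iW c) = D.mid (D.F j) := lo_W _ _
lemma loO (j : ZMod D.h) : G.lo (D.F j) (iO c) = D.oL j := lo_O _ _
lemma upT (j : ZMod D.h) : G.up (D.F j) 0 = D.mid (turn G c (D.F j)) := by
  rw [up_T (D.F_rot j), mid_turn]
lemma upW (j : ZMod D.h) : G.up (D.F j) (iW c) = D.Z j := up_W (D.F_rot j)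
lemma upO (j : ZMod D.h) : G.up (D.F j) (iO c) = D.oU j := up_O (D.F_rot j)
lemma nm_S (j : ZMod D.h) : ¬ D.IsMid (D.S j) := D.not_mid_one _
lemma nm_Z (j : ZMod D.h) : ¬ D.IsMid (D.Z j) := D.not_mid_zero _
lemma nm_oL (j : ZMod D.h) : ¬ D.IsMid (D.oL j) := D.not_mid_not _ _
lemma nm_oU (j : ZMod D.h) : ¬ D.IsMid (D.oU j) := D.not_mid_not _ _
lemma turn_mem (j : ZMod D.h) : turn G c (D.F j) ∈ D.O := (D.mem_turn _).2 (D.F_mem j)

/-- case analysis on the identifications of the old triangulation -/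
lemma forall_old {Pr : G.T × Fin 6 → G.T × Fin 6 → G.T × Bool → Fin 3 → Prop}
    (h0 : ∀ x i, ¬ D.J x → Pr (G.lo x i) (G.up x i) x i)
    (hT : ∀ j, Pr (D.S j) (D.mid (turn G c (D.F j))) (D.F j) 0)
    (hW : ∀ j, Pr (D.mid (D.F j)) (D.Z j) (D.F j) (iW c))
    (hO : ∀ j, Pr (D.oL j) (D.oU j) (D.F j) (iO c)) (x : G.T × Bool) (i : Fin 3) :
    Pr (G.lo x i) (G.up x i) x i := by
  by_cases hx : D.J x
  · rw [← hx.eq]
    rcases tri c i with rfl | rfl | rfl
    · rw [loT, upT]; exact hT _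
    · rw [loW, upW]; exact hW _
    · rw [loO, upO]; exact hO _
  · exact h0 x i hx

variable (n : ℕ)

abbrev WT : Type := G.T ⊕ ZMod D.h × Fin (n + 1)

/-- old faces and old edges in the new triangulation -/
def o {X : Type} (s : G.T × X) : D.WT n × X := (Sum.inl s.1, s.2)
/-- new faces and new edges -/
def y {X : Type} (j : ZMod D.h) (a : Fin (n + 1)) (s : X) : D.WT n × X := (Sum.inr (j, a), s)

def gl : D.WT n × Bool → D.WT n × Bool
  | (Sum.inl t, k) => if D.J (t, k) then D.y n (D.ind (t, k)) (Fin.last n) true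
      else D.o n (G.glue (t, k))
  | (Sum.inr (j, a), k) =>
      if k = c then Fin.cases (D.y n (j + 1) 0 false) (fun e => D.y n j e.castSucc true) a
      else Fin.lastCases (D.o n (G.glue (D.F (j + 1)))) (fun e => D.y n (j + 2) e.succ false) a

def glInv : D.WT n × Bool → D.WT n × Bool
  | (Sum.inl t, k) => if D.J (G.glue.symm (t, k)) then
      D.y n (D.ind (G.glue.symm (t, k)) - 1) (Fin.last n) (!c) else D.o n (G.glue.symm (t, k))
  | (Sum.inr (j, a), true) => Fin.lastCases (D.o n (D.F j)) (fun e => D.y n j e.succ c) a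
  | (Sum.inr (j, a), false) =>
      Fin.cases (D.y n (j - 1) 0 c) (fun e => D.y n (j - 2) e.castSucc (!c)) a

variable {n}

lemma gl_old {x : G.T × Bool} (h : ¬ D.J x) : D.gl n (D.o n x) = D.o n (G.glue x) := if_neg h
lemma gl_F (j : ZMod D.h) : D.gl n (D.o n (D.F j)) = D.y n j (Fin.last n) true := by
  have : D.gl n (D.o n (D.F j)) = D.y n (D.ind (D.F j)) (Fin.last n) true := if_pos (D.J_F j)
  rw [this, D.ind_F]
lemma gl_i (j : ZMod D.h) : D.gl n (D.y n j 0 c) = D.y n (j + 1) 0 false := by simp [gl, y]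
lemma gl_c (j : ZMod D.h) (e : Fin n) : D.gl n (D.y n j e.succ c) = D.y n j e.castSucc true := by
  simp [gl, y]
lemma gl_d (j : ZMod D.h) (e : Fin n) :
    D.gl n (D.y n j e.castSucc (!c)) = D.y n (j + 2) e.succ false := by simp [gl, y]
lemma gl_e (j : ZMod D.h) :
    D.gl n (D.y n j (Fin.last n) (!c)) = D.o n (G.glue (D.F (j + 1))) := by simp [gl, y]

lemma face_cases {Q : D.WT n × Bool → Prop} (h0 : ∀ x, ¬ D.J x → Q (D.o n x))
    (hf : ∀ j, Q (D.o n (D.F j))) (hi : ∀ j, Q (D.y n j 0 c))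
    (hc : ∀ j (e : Fin n), Q (D.y n j e.succ c))
    (hd : ∀ j (e : Fin n), Q (D.y n j e.castSucc (!c)))
    (he : ∀ j, Q (D.y n j (Fin.last n) (!c))) (f : D.WT n × Bool) : Q f := by
  obtain ⟨t | ⟨j, a⟩, k⟩ := f
  · by_cases h : D.J (t, k)
    · have := hf (D.ind (t, k))
      rwa [h.eq] at this
    · exact h0 _ h
  · by_cases hk : k = c
    · subst hk
      induction a using Fin.cases with
      | zero => exact hi j
      | succ e => exact hc j e
    · obtain rfl : k = !c := Bool.eq_not_of_ne hk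
      induction a using Fin.lastCases with
      | last => exact he j
      | cast e => exact hd j e

lemma gl_left (f : D.WT n × Bool) : D.glInv n (D.gl n f) = f := by
  refine D.face_cases (Q := fun f => D.glInv n (D.gl n f) = f) (fun x h => ?_) (fun j => ?_)
    (fun j => ?_) (fun j e => ?_) (fun j e => ?_) (fun j => ?_) f
  · rw [D.gl_old h]; simp [glInv, o, h]
  · rw [gl_F]; simp [glInv, y]
  · rw [gl_i]; simp [glInv, y]
  · rw [gl_c]; simp [glInv, y]
  · rw [gl_d]; simp [glInv, y]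
  · rw [gl_e]; simp [glInv, o, D.J_F, D.ind_F]

variable (n) in
/-- the new triangulation -/
noncomputable def W : Gluing where
  T := D.WT n
  glue := Equiv.ofBijective (D.gl n)
    (Finite.injective_iff_bijective.1 (Function.LeftInverse.injective D.gl_left))
  rot f := Sum.elim (fun t => G.rot (t, f.2)) (fun _ => rho c) f.1

lemma W_glue (f : D.WT n × Bool) : (D.W n).glue f = D.gl n f := rfl

variable (n) in
/-- all identifications of edges in the new triangulation -/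
structure Rel (Pr : D.WT n × Fin 6 → D.WT n × Fin 6 → D.WT n × Bool → Prop) : Prop where
  old : ∀ x i, ¬ D.J x → Pr (D.o n (G.lo x i)) (D.o n (G.up x i)) (D.o n x)
  fT : ∀ j, Pr (D.o n (D.S j)) (D.y n j (Fin.last n) (sh c true)) (D.o n (D.F j))
  fW : ∀ j, Pr (D.o n (D.mid (D.F j))) (D.y n j (Fin.last n) 0) (D.o n (D.F j))
  fO : ∀ j, Pr (D.o n (D.oL j)) (D.y n j (Fin.last n) (sh (!c) true)) (D.o n (D.F j))
  iT : ∀ j, Pr (D.y n j 0 1) (D.y n (j + 1) 0 (sh c false)) (D.y n j 0 c)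
  iW : ∀ j, Pr (D.y n j 0 (sh c false)) (D.y n (j + 1) 0 0) (D.y n j 0 c)
  iO : ∀ j, Pr (D.y n j 0 (sh (!c) true)) (D.y n (j + 1) 0 (sh (!c) false)) (D.y n j 0 c)
  cT : ∀ j (e : Fin n), Pr (D.y n j e.succ 1) (D.y n j e.castSucc (sh c true)) (D.y n j e.succ c)
  cW : ∀ j (e : Fin n), Pr (D.y n j e.succ (sh c false)) (D.y n j e.castSucc 0) (D.y n j e.succ c)
  cO : ∀ j (e : Fin n), Pr (D.y n j e.succ (sh (!c) true)) (D.y n j e.castSucc (sh (!c) true))
    (D.y n j e.succ c)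
  dT : ∀ j (e : Fin n), Pr (D.y n j e.castSucc 1) (D.y n (j + 2) e.succ (sh c false))
    (D.y n j e.castSucc (!c))
  dW : ∀ j (e : Fin n), Pr (D.y n j e.castSucc (sh c true)) (D.y n (j + 2) e.succ 0)
    (D.y n j e.castSucc (!c))
  dO : ∀ j (e : Fin n), Pr (D.y n j e.castSucc (sh (!c) false))
    (D.y n (j + 2) e.succ (sh (!c) false)) (D.y n j e.castSucc (!c))
  eT : ∀ j, Pr (D.y n j (Fin.last n) 1) (D.o n (D.mid (turn G c (D.F (j + 1)))))
    (D.y n j (Fin.last n) (!c))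
  eW : ∀ j, Pr (D.y n j (Fin.last n) (sh c true)) (D.o n (D.Z (j + 1))) (D.y n j (Fin.last n) (!c))
  eO : ∀ j, Pr (D.y n j (Fin.last n) (sh (!c) false)) (D.o n (D.oU (j + 1)))
    (D.y n j (Fin.last n) (!c))

/-- the three identifications across a face of colour `c` -/
lemma three {Pr : D.WT n × Fin 6 → D.WT n × Fin 6 → D.WT n × Bool → Prop} (f : D.WT n × Bool)
    (hr : (D.W n).rot f = rho c) : (∀ i, Pr ((D.W n).lo f i) ((D.W n).up f i) f) ↔
      Pr (f.1, 1) ((D.gl n f).1, sh c (D.gl n f).2) f ∧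
      Pr (f.1, sh c (xor f.2 c)) ((D.gl n f).1, 0) f ∧
      Pr (f.1, sh (!c) (xor f.2 (!c))) ((D.gl n f).1, sh (!c) (D.gl n f).2) f := by
  constructor
  · intro h
    have h1 := h 0
    have h2 := h (iW c)
    have h3 := h (iO c)
    rw [lo_T, up_T hr] at h1
    rw [lo_W, up_W hr] at h2
    rw [lo_O, up_O hr] at h3
    exact ⟨h1, h2, h3⟩
  · rintro ⟨h1, h2, h3⟩ i
    rcases tri c i with rfl | rfl | rfl
    · rw [lo_T, up_T hr]; exact h1
    · rw [lo_W, up_W hr]; exact h2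
    · rw [lo_O, up_O hr]; exact h3

lemma up_old {x : G.T × Bool} (h : ¬ D.J x) (i : Fin 3) :
    (D.W n).up (D.o n x) i = D.o n (G.up x i) := by
  rw [up, W_glue, D.gl_old h]; rfl

theorem rel_iff {Pr : D.WT n × Fin 6 → D.WT n × Fin 6 → D.WT n × Bool → Prop} :
    (∀ f i, Pr ((D.W n).lo f i) ((D.W n).up f i) f) ↔ D.Rel n Pr := by
  have a1 := fun j => D.three (Pr := Pr) (D.o n (D.F j)) (D.F_rot j)
  have a2 := fun j => D.three (Pr := Pr) (D.y n j 0 c) rfl
  have a3 := fun j (e : Fin n) => D.three (Pr := Pr) (D.y n j e.succ c) rfl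
  have a4 := fun j (e : Fin n) => D.three (Pr := Pr) (D.y n j e.castSucc (!c)) rfl
  have a5 := fun j => D.three (Pr := Pr) (D.y n j (Fin.last n) (!c)) rfl
  simp only [gl_F] at a1
  simp only [gl_i] at a2
  simp only [gl_c] at a3
  simp only [gl_d] at a4
  simp only [gl_e] at a5
  have x1 : xor c c = false := by cases c <;> rfl
  have x2 : xor c (!c) = true := by cases c <;> rfl
  have x3 : xor (!c) c = true := by cases c <;> rfl
  have x4 : xor (!c) (!c) = false := by cases c <;> rfl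
  simp only [y, x1, x2, x3, x4] at a2 a3 a4 a5
  constructor
  · intro h
    refine ⟨fun x i hx => ?_, fun j => ((a1 j).1 (h _)).1, fun j => ((a1 j).1 (h _)).2.1,
      fun j => ((a1 j).1 (h _)).2.2, fun j => ((a2 j).1 (h _)).1, fun j => ((a2 j).1 (h _)).2.1,
      fun j => ((a2 j).1 (h _)).2.2, fun j e => ((a3 j e).1 (h _)).1,
      fun j e => ((a3 j e).1 (h _)).2.1, fun j e => ((a3 j e).1 (h _)).2.2,
      fun j e => ((a4 j e).1 (h _)).1, fun j e => ((a4 j e).1 (h _)).2.1,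
      fun j e => ((a4 j e).1 (h _)).2.2, fun j => ?_, fun j => ((a5 j).1 (h _)).2.1,
      fun j => ((a5 j).1 (h _)).2.2⟩
    · rw [← D.up_old hx]; exact h (D.o n x) i
    · rw [mid_turn]; exact ((a5 j).1 (h _)).1
  · intro h f
    refine D.face_cases (Q := fun f => ∀ i, Pr ((D.W n).lo f i) ((D.W n).up f i) f)
      (fun x hx i => ?_) (fun j => (a1 j).2 ⟨h.fT j, h.fW j, h.fO j⟩)
      (fun j => (a2 j).2 ⟨h.iT j, h.iW j, h.iO j⟩)
      (fun j e => (a3 j e).2 ⟨h.cT j e, h.cW j e, h.cO j e⟩)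
      (fun j e => (a4 j e).2 ⟨h.dT j e, h.dW j e, h.dO j e⟩)
      (fun j => (a5 j).2 ⟨?_, h.eW j, h.eO j⟩) f
    · rw [D.up_old hx]; exact h.old x i hx
    · have := h.eT j
      rwa [mid_turn] at this

/-- a function on the edges of the new tetrahedra -/
def mkf {A : Type} (u : G.T × Fin 6 → A) (fB fN fR0 fR1 fOd fOu : ZMod D.h → Fin (n + 1) → A) :
    D.WT n × Fin 6 → A
  | (Sum.inl t, s) => u (t, s)
  | (Sum.inr (j, a), s) => if s = 0 then fB j a else if s = 1 then fN j a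
      else if s = sh c false then fR0 j a else if s = sh c true then fR1 j a
      else if s = sh (!c) false then fOd j a else fOu j a

section mkf

variable {A : Type} {u : G.T × Fin 6 → A} {fB fN fR0 fR1 fOd fOu : ZMod D.h → Fin (n + 1) → A}
  (j : ZMod D.h) (a : Fin (n + 1))

lemma mk_o (s : G.T × Fin 6) : D.mkf u fB fN fR0 fR1 fOd fOu (D.o n s) = u s := rfl
lemma mk_B : D.mkf u fB fN fR0 fR1 fOd fOu (D.y n j a 0) = fB j a := by simp [mkf, y]
lemma mk_N : D.mkf u fB fN fR0 fR1 fOd fOu (D.y n j a 1) = fN j a := by simp [mkf, y]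
lemma mk_R0 : D.mkf u fB fN fR0 fR1 fOd fOu (D.y n j a (sh c false)) = fR0 j a := by
  cases c <;> simp [mkf, y, sh]
lemma mk_R1 : D.mkf u fB fN fR0 fR1 fOd fOu (D.y n j a (sh c true)) = fR1 j a := by
  cases c <;> simp [mkf, y, sh]
lemma mk_Od : D.mkf u fB fN fR0 fR1 fOd fOu (D.y n j a (sh (!c) false)) = fOd j a := by
  cases c <;> simp [mkf, y, sh]
lemma mk_Ou : D.mkf u fB fN fR0 fR1 fOd fOu (D.y n j a (sh (!c) true)) = fOu j a := by
  cases c <;> simp [mkf, y, sh]

end mkf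

lemma slot_ind {Q : D.WT n × Fin 6 → Prop} (h0 : ∀ s, Q (D.o n s)) (hB : ∀ j a, Q (D.y n j a 0))
    (hN : ∀ j a, Q (D.y n j a 1)) (h1 : ∀ j a, Q (D.y n j a (sh c false)))
    (h2 : ∀ j a, Q (D.y n j a (sh c true))) (h3 : ∀ j a, Q (D.y n j a (sh (!c) false)))
    (h4 : ∀ j a, Q (D.y n j a (sh (!c) true))) (s : D.WT n × Fin 6) : Q s := by
  obtain ⟨t | ⟨j, a⟩, s⟩ := s
  · exact h0 (t, s)
  · rcases slot_cases c s with rfl | rfl | rfl | rfl | rfl | rfl
    exacts [hB j a, hN j a, h1 j a, h2 j a, h3 j a, h4 j a]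

end Loop

end Pool.Agent.Lib.MP_75051e_gt
end

-- part Pool.Agent.Lib.MP_75051e_gt.Veer
section

/-!
The new triangulation is veering.
-/

set_option autoImplicit false

namespace Pool.Agent.Lib.MP_75051e_gt

open Finset Gluing

/-- the edges of the triangulation -/
abbrev Edge (G : Gluing) : Type :=
  Quot fun a b : G.T × Fin 6 => ∃ f i, a = G.lo f i ∧ b = G.up f i

def cl (G : Gluing) (s : G.T × Fin 6) : Edge G := Quot.mk _ s

lemma cl_eq {G : Gluing} {a b : G.T × Fin 6} : cl G a = cl G b ↔ G.SameEdge a b := Quot.eq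

lemma cl_glue (G : Gluing) (f : G.T × Bool) (i : Fin 3) : cl G (G.lo f i) = cl G (G.up f i) :=
  cl_eq.2 (same_glue f i)

namespace Loop

variable {G : Gluing} {c : Bool} {b : ℕ} {φ : G.T × Bool → (Fin b → ℤ)} (D : Loop G c φ) {n : ℕ}

lemma last_ind (hn : ((n + 1 : ℕ) : ZMod D.h) = 0) (j : ZMod D.h) :
    j - 1 - 2 * ((Fin.last n : ℕ) : ZMod D.h) = j + 1 := by
  rw [Fin.val_last]
  push_cast at hn
  linear_combination (-2) * hn

lemma succ_ind (j : ZMod D.h) (e : Fin n) :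
    j + 2 - 1 - 2 * ((e.succ : ℕ) : ZMod D.h) = j - 1 - 2 * ((e.castSucc : ℕ) : ZMod D.h) := by
  rw [Fin.val_succ, Fin.val_castSucc]
  push_cast
  ring

lemma zero_ind (j : ZMod D.h) : j + 1 - 1 - 2 * (((0 : Fin (n + 1)) : ℕ) : ZMod D.h) = j := by
  simp

section chains

variable {A : Type} (w : D.WT n × Fin 6 → A)

lemma Ou_eq (h : ∀ j (e : Fin n), w (D.y n j e.succ (sh (!c) true)) =
    w (D.y n j e.castSucc (sh (!c) true))) (j : ZMod D.h) (a : Fin (n + 1)) :
    w (D.y n j a (sh (!c) true)) = w (D.y n j 0 (sh (!c) true)) := by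
  induction a using Fin.induction with
  | zero => rfl
  | succ e ih => rw [h, ih]

lemma Od_eq (h : ∀ j, w (D.y n j 0 (sh (!c) true)) = w (D.y n (j + 1) 0 (sh (!c) false)))
    (h' : ∀ j (e : Fin n), w (D.y n j e.castSucc (sh (!c) false)) =
      w (D.y n (j + 2) e.succ (sh (!c) false))) (a : Fin (n + 1)) (j : ZMod D.h) :
    w (D.y n j a (sh (!c) false)) = w (D.y n (j - 1 - 2 * (a : ℕ)) 0 (sh (!c) true)) := by
  induction a using Fin.induction generalizing j with
  | zero =>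
    obtain ⟨j, rfl⟩ : ∃ i, j = i + 1 := ⟨j - 1, by ring⟩
    rw [zero_ind, h]
  | succ e ih =>
    obtain ⟨j, rfl⟩ : ∃ i, j = i + 2 := ⟨j - 2, by ring⟩
    rw [← h', ih, succ_ind]

end chains

variable (n) in
/-- the name of an edge of the new triangulation -/
def lab : D.WT n × Fin 6 → Edge G ⊕ ZMod D.h × Fin (n + 1) :=
  D.mkf (fun s => if D.IsMid s then Sum.inr (D.ind (D.own s) - 2, Fin.last n) else Sum.inl (cl G s))
    (fun j a => Sum.inr (j - 2, a)) (fun j a => Sum.inr (j, a))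
    (fun j a => Fin.cases (Sum.inr (j - 1, 0)) (fun e => Sum.inr (j - 2, e.castSucc)) a)
    (fun j a => Fin.lastCases (Sum.inl (cl G (D.S j))) (fun e => Sum.inr (j, e.succ)) a)
    (fun j a => Sum.inl (cl G (D.oL (j - 1 - 2 * (a : ℕ))))) (fun j _ => Sum.inl (cl G (D.oL j)))

lemma lab_nm {s : G.T × Fin 6} (h : ¬ D.IsMid s) : D.lab n (D.o n s) = Sum.inl (cl G s) :=
  if_neg h

lemma lab_mid {x : G.T × Bool} (h : x ∈ D.O) :
    D.lab n (D.o n (D.mid x)) = Sum.inr (D.ind x - 2, Fin.last n) := by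
  rw [lab, mk_o, if_pos (D.isMid_mid h), own_mid]

lemma blue_mid {A : Type} (w : G.T × Fin 6 → A) (h : ∀ x i, ¬ D.J x → w (G.lo x i) = w (G.up x i))
    (x : G.T × Bool) (hx : x ∈ D.O) : w (D.mid x) = w (D.mid (turn G c (D.F (D.ind x - 1)))) :=
  D.chain (fun x => w (D.mid x)) (fun x _ hr => by
    rw [← D.up_blue hr, ← D.lo_blue]
    exact (h x _ fun e => hr e.2).symm) x hx

lemma cl_SZ (j : ZMod D.h) : cl G (D.S j) = cl G (D.Z (j + 1)) := by
  rw [← loT, cl_glue, upT, ← upW, ← cl_glue, loW,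
    D.blue_mid (cl G) (fun x i _ => cl_glue G x i) _ (D.F_mem (j + 1)), D.ind_F,
    add_sub_cancel_right]

lemma lab_rel (hn : ((n + 1 : ℕ) : ZMod D.h) = 0) :
    D.Rel n fun s s' _ => D.lab n s = D.lab n s' where
  old x i hx := by
    rcases D.old_face hx i with ⟨h1, h2⟩ | ⟨h0, hr, h1, h2⟩
    · rw [D.lab_nm h1, D.lab_nm h2, cl_glue]
    · rw [h1, h2, D.lab_mid h0, D.lab_mid ((D.mem_turn x).2 h0), D.ind_blue x h0 hr]
  fT j := by rw [D.lab_nm (D.nm_S j), lab, mk_R1, Fin.lastCases_last]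
  fW j := by rw [D.lab_mid (D.F_mem j), lab, mk_B, D.ind_F]
  fO j := by rw [D.lab_nm (D.nm_oL j), lab, mk_Ou]
  iT j := by rw [lab, mk_N, mk_R0, Fin.cases_zero, add_sub_cancel_right]
  iW j := by rw [lab, mk_B, mk_R0, Fin.cases_zero, show j + 1 - 2 = j - 1 by ring]
  iO j := by rw [lab, mk_Ou, mk_Od, zero_ind]
  cT j e := by rw [lab, mk_N, mk_R1, Fin.lastCases_castSucc]
  cW j e := by rw [lab, mk_B, mk_R0, Fin.cases_succ]
  cO j e := by rw [lab, mk_Ou, mk_Ou]
  dT j e := by rw [lab, mk_N, mk_R0, Fin.cases_succ, add_sub_cancel_right]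
  dW j e := by rw [lab, mk_B, mk_R1, Fin.lastCases_castSucc, add_sub_cancel_right]
  dO j e := by rw [lab, mk_Od, mk_Od, succ_ind]
  eT j := by
    rw [D.lab_mid (D.turn_mem _), D.ind_red, lab, mk_N, show j + 1 + 1 - 2 = j by ring]
  eW j := by rw [D.lab_nm (D.nm_Z _), lab, mk_R1, Fin.lastCases_last, cl_SZ]
  eO j := by
    rw [D.lab_nm (D.nm_oU _), lab, mk_Od, D.last_ind hn, ← loO, ← upO, cl_glue]

lemma lab_same (hn : ((n + 1 : ℕ) : ZMod D.h) = 0) {s s' : D.WT n × Fin 6}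
    (h : (D.W n).SameEdge s s') : D.lab n s = D.lab n s' :=
  eq_of_same (G := D.W n) (D.rel_iff.2 (D.lab_rel hn)) h

lemma cl_rel : D.Rel n fun s s' _ => cl (D.W n) s = cl (D.W n) s' :=
  D.rel_iff.1 (cl_glue (D.W n))

lemma cl_Ou (j : ZMod D.h) (a : Fin (n + 1)) :
    cl (D.W n) (D.y n j a (sh (!c) true)) = cl (D.W n) (D.o n (D.oL j)) := by
  rw [D.cl_rel.fO, D.Ou_eq (cl (D.W n)) D.cl_rel.cO, D.Ou_eq (cl (D.W n)) D.cl_rel.cO j (Fin.last n)]

lemma cl_Od (j : ZMod D.h) (a : Fin (n + 1)) : cl (D.W n) (D.y n j a (sh (!c) false)) =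
    cl (D.W n) (D.o n (D.oL (j - 1 - 2 * (a : ℕ)))) := by
  rw [D.Od_eq (cl (D.W n)) D.cl_rel.iO D.cl_rel.dO, cl_Ou]

lemma cl_mid {x : G.T × Bool} (h : x ∈ D.O) :
    cl (D.W n) (D.o n (D.mid x)) = cl (D.W n) (D.y n (D.ind x - 2) (Fin.last n) 1) := by
  rw [D.cl_rel.eT, show D.ind x - 2 + 1 = D.ind x - 1 by ring]
  exact D.blue_mid (fun s => cl (D.W n) (D.o n s)) D.cl_rel.old x h

lemma cl_B (j : ZMod D.h) (a : Fin (n + 1)) :
    cl (D.W n) (D.y n (j + 2) a 0) = cl (D.W n) (D.y n j a 1) := by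
  induction a using Fin.cases with
  | zero => rw [D.cl_rel.iT, D.cl_rel.iW, show j + 1 + 1 = j + 2 by ring]
  | succ e => rw [D.cl_rel.cT, D.cl_rel.dW]

lemma cl_old (hn : ((n + 1 : ℕ) : ZMod D.h) = 0) {s s' : G.T × Fin 6} (h : G.SameEdge s s')
    (h1 : ¬ D.IsMid s) (h2 : ¬ D.IsMid s') : cl (D.W n) (D.o n s) = cl (D.W n) (D.o n s') := by
  let k : G.T × Fin 6 → Edge (D.W n) := fun s => if D.IsMid s then
    cl (D.W n) (D.y n (D.ind (D.own s) - 1) (Fin.last n) (sh c true)) else cl (D.W n) (D.o n s)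
  have k1 : ∀ s, ¬ D.IsMid s → k s = cl (D.W n) (D.o n s) := fun s h => if_neg h
  have k2 : ∀ x ∈ D.O, k (D.mid x) =
      cl (D.W n) (D.y n (D.ind x - 1) (Fin.last n) (sh c true)) := fun x hx => by
    simp only [k, if_pos (D.isMid_mid hx), own_mid]
  rw [← k1 s h1, ← k1 s' h2]
  refine eq_of_same (D.forall_old (Pr := fun s s' _ _ => k s = k s') (fun x i hx => ?_)
    (fun j => ?_) (fun j => ?_) fun j => ?_) h
  · rcases D.old_face hx i with ⟨h1, h2⟩ | ⟨h0, hr, h1, h2⟩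
    · rw [k1 _ h1, k1 _ h2, D.cl_rel.old x i hx]
    · rw [h1, h2, k2 _ h0, k2 _ ((D.mem_turn x).2 h0), D.ind_blue x h0 hr]
  · rw [k1 _ (D.nm_S j), k2 _ (D.turn_mem j), D.ind_red, add_sub_cancel_right, D.cl_rel.fT]
  · rw [k1 _ (D.nm_Z j), k2 _ (D.F_mem j), D.ind_F, D.cl_rel.eW, sub_add_cancel]
  · have e := D.cl_rel (n := n).eO (j - 1)
    rw [cl_Od, D.last_ind hn, sub_add_cancel] at e
    rw [k1 _ (D.nm_oL j), k1 _ (D.nm_oU j), e]

lemma cl_rep (s : D.WT n × Fin 6) : (∃ t, ¬ D.IsMid t ∧ cl (D.W n) s = cl (D.W n) (D.o n t)) ∨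
    ∃ j a, cl (D.W n) s = cl (D.W n) (D.y n j a 1) := by
  induction s using D.slot_ind with
  | h0 s =>
    by_cases h : D.IsMid s
    · rw [← h.2]; exact Or.inr ⟨_, _, D.cl_mid h.1⟩
    · exact Or.inl ⟨s, h, rfl⟩
  | hB j a => exact Or.inr ⟨j - 2, a, by rw [← cl_B, sub_add_cancel]⟩
  | hN j a => exact Or.inr ⟨j, a, rfl⟩
  | h1 j a =>
    induction a using Fin.cases with
    | zero => exact Or.inr ⟨j - 1, 0, by rw [D.cl_rel.iT, sub_add_cancel]⟩
    | succ e => exact Or.inr ⟨j - 2, e.castSucc, by rw [D.cl_rel.dT, sub_add_cancel]⟩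
  | h2 j a =>
    induction a using Fin.lastCases with
    | last => exact Or.inl ⟨_, D.nm_S j, (D.cl_rel.fT j).symm⟩
    | cast e => exact Or.inr ⟨j, e.succ, (D.cl_rel.cT j e).symm⟩
  | h3 j a => exact Or.inl ⟨_, D.nm_oL _, D.cl_Od j a⟩
  | h4 j a => exact Or.inl ⟨_, D.nm_oL _, D.cl_Ou j a⟩

lemma pi_cases {s : D.WT n × Fin 6} (h : s.2 = 0 ∨ s.2 = 1) :
    (∃ t, s = D.o n t ∧ (t.2 = 0 ∨ t.2 = 1) ∧ D.lab n s = Sum.inl (cl G t)) ∨
    (∃ j a, s = D.y n (j + 2) a 0 ∧ D.lab n s = Sum.inr (j, a)) ∨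
    ∃ j a, s = D.y n j a 1 ∧ D.lab n s = Sum.inr (j, a) := by
  obtain ⟨t | ⟨j, a⟩, s⟩ := s
  · refine Or.inl ⟨(t, s), rfl, h, D.lab_nm (s := (t, s)) ?_⟩
    rcases h with rfl | rfl
    exacts [D.not_mid_zero t, D.not_mid_one t]
  · rcases h with rfl | rfl
    · exact Or.inr (Or.inl ⟨j - 2, a, by rw [sub_add_cancel]; rfl, D.mk_B j a⟩)
    · exact Or.inr (Or.inr ⟨j, a, rfl, D.mk_N j a⟩)

lemma angle_W (hG : G.IsVeering) (hn : ((n + 1 : ℕ) : ZMod D.h) = 0) (s : D.WT n × Fin 6) :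
    {s' | (D.W n).SameEdge s s' ∧ (s'.2 = 0 ∨ s'.2 = 1)}.ncard = 2 := by
  simp only [← cl_eq (G := D.W n)]
  rcases D.cl_rep s with ⟨t, ht, e⟩ | ⟨j, a, e⟩
  · rw [e, ← hG.angle t, ← Set.ncard_image_of_injective _ (f := D.o n)
      fun x y e => Prod.ext (Sum.inl.inj (congrArg Prod.fst e)) (Prod.ext_iff.1 e).2]
    congr 1
    ext s'
    constructor
    · rintro ⟨h1, h2⟩
      have l := D.lab_same hn (cl_eq.1 h1)
      rw [D.lab_nm ht] at l
      rcases D.pi_cases h2 with ⟨t', rfl, h3, h4⟩ | ⟨j, a, -, h4⟩ | ⟨j, a, -, h4⟩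
      · exact ⟨t', ⟨cl_eq.1 (Sum.inl.inj (l.trans h4)), h3⟩, rfl⟩
      · exact absurd (l.trans h4) Sum.inl_ne_inr
      · exact absurd (l.trans h4) Sum.inl_ne_inr
    · rintro ⟨⟨t', k⟩, ⟨h1, h2⟩, rfl⟩
      refine ⟨D.cl_old hn h1 ht ?_, h2⟩
      rcases h2 with rfl | rfl
      exacts [D.not_mid_zero t', D.not_mid_one t']
  · rw [e, ← Set.ncard_pair (a := D.y n (j + 2) a (0 : Fin 6)) (b := D.y n j a 1)
      fun e => absurd (congrArg Prod.snd e) (show (0 : Fin 6) ≠ 1 by decide)]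
    congr 1
    ext s'
    constructor
    · rintro ⟨h1, h2⟩
      have l := D.lab_same hn (cl_eq.1 h1)
      rw [lab, mk_N, ← lab] at l
      rcases D.pi_cases h2 with ⟨t', -, -, h4⟩ | ⟨j', a', rfl, h4⟩ | ⟨j', a', rfl, h4⟩
      · exact absurd (l.trans h4) Sum.inr_ne_inl
      · obtain ⟨rfl, rfl⟩ := Prod.mk.inj (Sum.inr.inj (l.trans h4))
        exact Or.inl rfl
      · obtain ⟨rfl, rfl⟩ := Prod.mk.inj (Sum.inr.inj (l.trans h4))
        exact Or.inr rfl
    · rintro (rfl | rfl)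
      · exact ⟨(D.cl_B j a).symm, Or.inl rfl⟩
      · exact ⟨rfl, Or.inr rfl⟩

lemma col_S {col : G.T × Fin 6 → Bool} (h1 : ∀ f i, col (G.lo f i) = col (G.up f i))
    (h2 : ∀ t c k, col (t, sh c k) = c) (j : ZMod D.h) : col (D.S j) = c ∧ col (D.Z j) = c := by
  rw [← loT, h1, upT, ← upW, ← h1, loW]
  exact ⟨h2 _ _ _, h2 _ _ _⟩

lemma colour_W (hG : G.IsVeering) : ∃ col : D.WT n × Fin 6 → Bool,
    (∀ a b, (D.W n).SameEdge a b → col a = col b) ∧
    ∀ t, col (t, 2) = false ∧ col (t, 5) = true ∧ col (t, 4) = false ∧ col (t, 3) = true := by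
  obtain ⟨col, h1, h2⟩ := exists_col hG
  let w : D.WT n × Fin 6 → Bool := D.mkf col (fun _ _ => c) (fun _ _ => c) (fun _ _ => c)
    (fun _ _ => c) (fun _ _ => !c) fun _ _ => !c
  have hw : D.Rel n fun s s' _ => w s = w s' := by
    constructor
    all_goals
      intros
      simp only [w, mk_o, mk_B, mk_N, mk_R0, mk_R1, mk_Od, mk_Ou, h1, (D.col_S h1 h2 _).1,
        (D.col_S h1 h2 _).2, mid, oL, oU, h2]
  have hs : ∀ t c' k, w (t, sh c' k) = c' := by
    rintro (t | ⟨j, a⟩) c' k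
    · exact h2 t c' k
    · by_cases h : c' = c
      · subst h
        cases k
        exacts [D.mk_R0 j a, D.mk_R1 j a]
      · obtain rfl : c' = !c := Bool.eq_not_of_ne h
        cases k
        exacts [D.mk_Od j a, D.mk_Ou j a]
  exact ⟨w, fun a b h => eq_of_same (G := D.W n) (D.rel_iff.2 hw) h, fun t =>
    ⟨hs t false false, hs t true true, hs t false true, hs t true false⟩⟩

/-- a function that is constant across the inner faces is constant on the new tetrahedra -/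
lemma new_const {A : Type} (q : ZMod D.h → Fin (n + 1) → A)
    (h1 : ∀ j (e : Fin n), q j e.castSucc = q j e.succ) (h2 : ∀ j, q (j + 1) 0 = q j 0)
    (j : ZMod D.h) : q (j + 1) (Fin.last n) = q j (Fin.last n) := by
  have : ∀ j a, q j a = q j 0 := fun j a => by
    induction a using Fin.induction with
    | zero => rfl
    | succ e ih => rw [← h1, ih]
  rw [this, this j, h2]

lemma connected_W (hG : G.IsVeering) (t t' : D.WT n) :
    Relation.EqvGen (fun a b => ∃ k, b = ((D.W n).glue (a, k)).1) t t' := by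
  rw [← Quot.eq]
  set q : D.WT n → _ := Quot.mk fun a b => ∃ k, b = ((D.W n).glue (a, k)).1 with hq
  have st : ∀ f : D.WT n × Bool, q (D.gl n f).1 = q f.1 := fun f => (Quot.sound ⟨f.2, rfl⟩).symm
  have h1 : ∀ j (e : Fin n), q (Sum.inr (j, e.castSucc)) = q (Sum.inr (j, e.succ)) := fun j e => by
    have := st (D.y n j e.succ c)
    rwa [gl_c] at this
  have h2 := D.new_const (fun j a => q (Sum.inr (j, a))) h1 fun j => by
    have := st (D.y n j 0 c)
    rwa [gl_i] at this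
  have h3 : ∀ j, q (Sum.inr (j, Fin.last n)) = q (Sum.inl (D.F j).1) := fun j => by
    have := st (D.o n (D.F j))
    rwa [gl_F] at this
  have h4 : ∀ u u', q (Sum.inl u) = q (Sum.inl u') := fun u u' => by
    induction hG.connected u u' with
    | rel u u' r =>
      obtain ⟨k, rfl⟩ := r
      by_cases h : D.J (u, k)
      · have := st (D.y n (D.ind (u, k) - 1) (Fin.last n) (!c))
        rw [gl_e, sub_add_cancel, h.eq] at this
        have e := h2 (D.ind (u, k) - 1)
        rw [sub_add_cancel, h3, h.eq] at e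
        exact e.trans this.symm
      · have := st (D.o n (u, k))
        rw [D.gl_old h] at this
        exact this.symm
    | refl => rfl
    | symm _ _ _ ih => exact ih.symm
    | trans _ _ _ _ _ ih ih' => exact ih.trans ih'
  have h5 : ∀ t, q t = q (Sum.inl (D.F 0).1) := by
    rintro (t | ⟨j, a⟩)
    · exact h4 _ _
    · induction a using Fin.reverseInduction with
      | last => rw [h3, h4]
      | cast e ih => rw [h1, ih]
  exact (h5 t).trans (h5 t').symm

theorem veering_W (hG : G.IsVeering) (hn : ((n + 1 : ℕ) : ZMod D.h) = 0) : (D.W n).IsVeering :=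
  ⟨⟨Sum.inl (D.F 0).1⟩, D.connected_W hG, D.angle_W hG hn, D.colour_W hG⟩

end Loop

end Pool.Agent.Lib.MP_75051e_gt
end

-- part Pool.Agent.Lib.MP_75051e_gt.Homol
section

/-!
Homology of the new triangulation.
-/

set_option autoImplicit false

namespace Pool.Agent.Lib.MP_75051e_gt

open Finset Gluing

lemma freeAb_iff {G : Gluing} {b : ℕ} {φ : G.T × Bool → (Fin b → ℤ)} : IsFreeAb φ ↔
    IsCocycle φ ∧ (∀ c : G.T × Bool → ℤ, IsCocycle c →
      ∃ ψ : (Fin b → ℤ) →+ ℤ, IsCoboundary fun f => c f - ψ (φ f)) ∧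
      ∀ ψ : (Fin b → ℤ) →+ ℤ, (IsCoboundary fun f => ψ (φ f)) → ψ = 0 := by
  refine and_congr_right fun _ => ⟨fun h => ⟨fun c hc => (h c hc).exists, fun ψ hψ => ?_⟩,
    fun h c hc => ?_⟩
  · obtain ⟨q, hq⟩ := hψ
    refine (h 0 ⟨0, by simp⟩).unique ⟨-q, fun f => ?_⟩ ⟨0, by simp⟩
    have := hq f
    simp only [Pi.zero_apply, Pi.neg_apply] at this ⊢
    linarith
  · obtain ⟨ψ, q, hq⟩ := h.1 c hc
    refine ⟨ψ, ⟨q, hq⟩, fun ψ' ⟨q', hq'⟩ => sub_eq_zero.1 (h.2 _ ⟨q - q', fun f => ?_⟩)⟩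
    have h1 := hq f
    have h2 := hq' f
    simp only [AddMonoidHom.sub_apply, Pi.sub_apply] at h1 h2 ⊢
    linarith

namespace Loop

variable {G : Gluing} {c : Bool} {b : ℕ} {φ : G.T × Bool → (Fin b → ℤ)} (D : Loop G c φ) {n : ℕ}

variable (n) in
/-- the labels of the faces of the new triangulation -/
def ph : D.WT n × Bool → (Fin b → ℤ)
  | (Sum.inl t, k) => if D.J (t, k) then - D.P (t, k) else φ (t, k)
  | (Sum.inr (j, a), k) => if k = c then 0
      else Fin.lastCases (D.P (turn G c (D.F (j + 1)))) (fun _ => 0) a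

lemma ph_old {x : G.T × Bool} (h : ¬ D.J x) : D.ph n (D.o n x) = φ x := if_neg h
lemma ph_F (j : ZMod D.h) : D.ph n (D.o n (D.F j)) = - D.P (D.F j) := if_pos (D.J_F j)
lemma ph_c (j : ZMod D.h) (a : Fin (n + 1)) : D.ph n (D.y n j a c) = 0 := if_pos rfl
lemma ph_d (j : ZMod D.h) (e : Fin n) : D.ph n (D.y n j e.castSucc (!c)) = 0 := by simp [ph, y]
lemma ph_e (j : ZMod D.h) :
    D.ph n (D.y n j (Fin.last n) (!c)) = D.P (turn G c (D.F (j + 1))) := by simp [ph, y]
lemma P_F (j : ZMod D.h) : D.P (turn G c (D.F j)) = D.P (D.F j) + φ (D.F j) :=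
  D.P_turn _ (D.F_mem j)

lemma chain_F {A : Type} (u : G.T × Bool → A)
    (h : ∀ x ∈ D.O, G.rot x ≠ rho c → u (turn G c x) = u x) (j : ZMod D.h) :
    u (D.F (j + 1)) = u (turn G c (D.F j)) := by
  rw [D.chain u h _ (D.F_mem _), D.ind_F, add_sub_cancel_right]

lemma cocycle_W (hφ : IsCocycle φ) (hn : ((n + 1 : ℕ) : ZMod D.h) = 0) :
    IsCocycle (G := D.W n) (D.ph n) := by
  obtain ⟨p, hp⟩ := hφ
  let w : D.WT n × Fin 6 → (Fin b → ℤ) :=
    D.mkf (fun s => if D.IsMid s then D.P (D.own s) else p s) (fun _ _ => 0) (fun _ _ => 0)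
      (fun _ _ => 0) (fun j a => Fin.lastCases (p (D.S j) - D.P (D.F j)) (fun _ => 0) a)
      (fun j a => p (D.oL (j - 1 - 2 * (a : ℕ))) - D.P (D.F (j - 1 - 2 * (a : ℕ))))
      fun j _ => p (D.oL j) - D.P (D.F j)
  have w1 : ∀ s, ¬ D.IsMid s → w (D.o n s) = p s := fun s h => if_neg h
  have w2 : ∀ x ∈ D.O, w (D.o n (D.mid x)) = D.P x := fun x hx => by
    simp only [w, mk_o, if_pos (D.isMid_mid hx), own_mid]
  refine ⟨w, (D.rel_iff (Pr := fun s s' f => w s' = w s + D.ph n f)).2 ⟨fun x i hx => ?_,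
    fun j => ?_, fun j => ?_, fun j => ?_, fun j => ?_, fun j => ?_, fun j => ?_, fun j e => ?_,
    fun j e => ?_, fun j e => ?_, fun j e => ?_, fun j e => ?_, fun j e => ?_, fun j => ?_,
    fun j => ?_, fun j => ?_⟩⟩
  · rw [D.ph_old hx]
    rcases D.old_face hx i with ⟨h1, h2⟩ | ⟨h0, -, h1, h2⟩
    · rw [w1 _ h1, w1 _ h2, hp]
    · rw [h1, h2, w2 _ h0, w2 _ ((D.mem_turn x).2 h0), D.P_turn x h0]
  · rw [w1 _ (D.nm_S j), ph_F]; simp only [w, mk_R1, Fin.lastCases_last, sub_eq_add_neg]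
  · rw [w2 _ (D.F_mem j), ph_F]; simp only [w, mk_B, add_neg_cancel]
  · rw [w1 _ (D.nm_oL j), ph_F]; simp only [w, mk_Ou, sub_eq_add_neg]
  · simp only [w, mk_N, mk_R0, ph_c, add_zero]
  · simp only [w, mk_B, mk_R0, ph_c, add_zero]
  · simp only [w, mk_Od, mk_Ou, ph_c, add_zero, zero_ind]
  · simp only [w, mk_N, mk_R1, ph_c, add_zero, Fin.lastCases_castSucc]
  · simp only [w, mk_B, mk_R0, ph_c, add_zero]
  · simp only [w, mk_Ou, ph_c, add_zero]
  · simp only [w, mk_N, mk_R0, ph_d, add_zero]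
  · simp only [w, mk_B, mk_R1, ph_d, add_zero, Fin.lastCases_castSucc]
  · simp only [w, mk_Od, ph_d, add_zero, succ_ind]
  · rw [w2 _ (D.turn_mem _), ph_e]; simp only [w, mk_N, zero_add]
  · have e := D.chain_F (fun x => p (D.mid x) - D.P x) (fun x hx hr => by
      rw [← D.up_blue hr, hp, lo_blue, D.P_turn x hx]; abel) j
    rw [← upT, hp, loT, P_F] at e
    rw [w1 _ (D.nm_Z _), ph_e, ← upW, hp, loW, P_F, sub_eq_iff_eq_add.1 e]
    simp only [w, mk_R1, Fin.lastCases_last]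
    abel
  · rw [w1 _ (D.nm_oU _), ph_e, ← upO, hp, loO, P_F]
    simp only [w, mk_Od, D.last_ind hn]
    abel

lemma unique_W (hφ : IsFreeAb φ) (ψ : (Fin b → ℤ) →+ ℤ)
    (h : IsCoboundary (G := D.W n) fun f => ψ (D.ph n f)) : ψ = 0 := by
  obtain ⟨q, hq⟩ := h
  replace hq : ∀ f, ψ (D.ph n f) = q (D.gl n f).1 - q f.1 := hq
  have h2 := D.new_const (fun j a => q (Sum.inr (j, a))) (fun j e => by
    have := hq (D.y n j e.succ c)
    rw [gl_c, ph_c, map_zero] at this
    exact sub_eq_zero.1 this.symm) fun j => by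
    have := hq (D.y n j 0 c)
    rw [gl_i, ph_c, map_zero] at this
    exact sub_eq_zero.1 this.symm
  refine (freeAb_iff.1 hφ).2.2 ψ ⟨fun t => q (Sum.inl t), fun x => ?_⟩
  by_cases hx : D.J x
  · obtain ⟨j, rfl⟩ : ∃ j, x = D.F (j + 1) := ⟨D.ind x - 1, by rw [sub_add_cancel, hx.eq]⟩
    have e1 := hq (D.y n j (Fin.last n) (!c))
    have e2 := hq (D.o n (D.F (j + 1)))
    rw [gl_e, ph_e, P_F, map_add] at e1
    rw [gl_F, ph_F, map_neg] at e2
    have e3 := h2 j
    simp only [o, y] at e1 e2 e3 ⊢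
    linarith
  · have := hq (D.o n x)
    rwa [D.gl_old hx, D.ph_old hx] at this

/-- a cocycle of the complement of the cycle, with defect `x` -/
def Tw (u : G.T × Bool → ℤ) (x : ℤ) : Prop :=
  ∃ p : G.T × Fin 6 → ℤ, (∀ f i, ¬ D.J f → p (G.up f i) = p (G.lo f i) + u f) ∧
    (∀ j, p (D.mid (turn G c (D.F j))) = p (D.S j) + u (D.F j)) ∧
    (∀ j, p (D.Z j) = p (D.mid (D.F j)) + u (D.F j)) ∧
    ∀ j, p (D.oU j) = p (D.oL j) + u (D.F j) + x

/-- the value on the cycle -/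
def hol (u : G.T × Bool → ℤ) : ℤ := ∑ x ∈ D.O, u x

lemma Tw.cocycle {D : Loop G c φ} {u : G.T × Bool → ℤ} (h : D.Tw u 0) : IsCocycle u := by
  obtain ⟨p, h1, h2, h3, h4⟩ := h
  exact ⟨p, D.forall_old (Pr := fun s s' f _ => p s' = p s + u f) h1 h2 h3
    fun j => by rw [h4, add_zero]⟩

lemma hol_eq (u U : G.T × Bool → ℤ) (g : ZMod D.h → ℤ)
    (h1 : ∀ x ∈ D.O, G.rot x ≠ rho c → U (turn G c x) = U x + u x)
    (h2 : ∀ j, U (turn G c (D.F j)) + g j = U (D.F j) + u (D.F j)) : D.hol u = ∑ j, g j := by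
  have e1 : ∑ x ∈ D.O, U (turn G c x) = ∑ x ∈ D.O, U x :=
    sum_bijective (turn G c) (Finite.injective_iff_bijective.1 (turn_injective G c))
      (fun x => (D.mem_turn x).symm) fun _ _ => rfl
  have e2 : ∑ x ∈ D.O, (if G.rot x = rho c then g (D.ind x) else 0) = ∑ j, g j := by
    rw [← sum_filter]
    exact sum_nbij' D.ind D.F (fun _ _ => mem_univ _)
      (fun j _ => mem_filter.2 (D.J_F j)) (fun x hx => J.eq (mem_filter.1 hx))
      (fun j _ => D.ind_F j) fun _ _ => rfl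
  have e3 : ∑ x ∈ D.O, (U (turn G c x) + if G.rot x = rho c then g (D.ind x) else 0) =
      ∑ x ∈ D.O, (U x + u x) := sum_congr rfl fun x hx => by
    by_cases hr : G.rot x = rho c
    · have := h2 (D.ind x)
      rwa [if_pos hr, D.F_ind x hx hr] at *
    · rw [if_neg hr, add_zero, h1 x hx hr]
  rw [sum_add_distrib, sum_add_distrib, e1, e2] at e3
  exact (add_left_cancel e3).symm

lemma prim {u : G.T × Bool → ℤ} {ψ : (Fin b → ℤ) →+ ℤ} {q : G.T → ℤ}
    (hq : ∀ f, u f - ψ (φ f) = q (G.glue f).1 - q f.1) (x : G.T × Bool) (hx : x ∈ D.O) :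
    q (turn G c x).1 + ψ (D.P (turn G c x)) = q x.1 + ψ (D.P x) + u x := by
  have := hq x
  rw [D.P_turn x hx, map_add, show (turn G c x).1 = (G.glue x).1 from rfl]
  linarith

lemma hol_zero (hφ : IsFreeAb φ) {u : G.T × Bool → ℤ} (hu : IsCocycle u) : D.hol u = 0 := by
  obtain ⟨ψ, q, hq⟩ := (freeAb_iff.1 hφ).2.1 u hu
  rw [D.hol_eq u (fun x => q x.1 + ψ (D.P x)) 0 (fun x hx _ => D.prim hq x hx)
    fun j => by simpa using D.prim hq _ (D.F_mem j)]
  simp

/-- the number of layers does not create new cohomology -/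
def Good (q : ℕ) : Prop := ∀ u, D.Tw u (2 * q * D.hol u) → D.hol u = 0

lemma good_or (hφ : IsFreeAb φ) (q : ℕ) : D.Good q ∨ D.Good (q + 1) := by
  by_contra h
  simp only [Good, not_or, not_forall] at h
  obtain ⟨⟨u, ⟨p, a1, a2, a3, a4⟩, hu⟩, u', ⟨p', b1, b2, b3, b4⟩, hu'⟩ := h
  set v := D.hol u with hv
  set v' := D.hol u' with hv'
  have t : D.Tw (fun f => (q + 1) * v' * u f - q * v * u' f) 0 := by
    refine ⟨fun s => (q + 1) * v' * p s - q * v * p' s, fun f i hf => ?_, fun j => ?_,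
      fun j => ?_, fun j => ?_⟩
    · simp only [a1 f i hf, b1 f i hf]; ring
    · simp only [a2, b2]; ring
    · simp only [a3, b3]; ring
    · simp only [a4, b4]; push_cast; ring
  have z := D.hol_zero hφ t.cocycle
  rw [hol, sum_sub_distrib, ← mul_sum, ← mul_sum, ← hol, ← hol, ← hv, ← hv'] at z
  exact mul_ne_zero hu hu' (by linear_combination z)

lemma exists_gauge (hφ : IsFreeAb φ) {q : ℕ} (hq : n + 1 = q * D.h) (hg : D.Good q)
    (u : D.WT n × Bool → ℤ) (p : D.WT n × Fin 6 → ℤ) (R : D.Rel n fun s s' f => p s' = p s + u f)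
    (hA : ∀ j, u (D.o n (D.F j)) = 0) (hC : ∀ j (e : Fin n), u (D.y n j e.succ c) = 0) :
    ∃ ψ : (Fin b → ℤ) →+ ℤ, IsCoboundary (G := D.W n) fun f => u f - ψ (D.ph n f) := by
  have hn : ((n + 1 : ℕ) : ZMod D.h) = 0 := by rw [hq]; simp
  obtain ⟨g, hg'⟩ : ∃ g : ZMod D.h → ℤ, ∀ j, u (D.y n j 0 c) = g j := ⟨_, fun _ => rfl⟩
  obtain ⟨E, hE⟩ : ∃ E : ZMod D.h → ℤ, ∀ j, u (D.y n j (Fin.last n) (!c)) = E j :=
    ⟨_, fun _ => rfl⟩
  have two : ∀ j : ZMod D.h, j + 1 + 1 = j + 2 := fun j => by ring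
  have d0 : ∀ j (e : Fin n), p (D.y n (j + 2) e.castSucc 0) =
      p (D.y n j e.castSucc 1) + u (D.y n j e.castSucc (!c)) := fun j e => by
    rw [R.cW, R.dT, hC, add_zero]
  have BN : ∀ j a, p (D.y n (j + 2) a 0) = p (D.y n j a 1) + (g j + g (j + 1)) := fun j a => by
    induction a using Fin.induction with
    | zero => rw [← two, R.iW, R.iT, hg', hg', add_assoc]
    | succ e ih => rw [R.dW, R.cT, hC, add_zero, add_left_cancel ((d0 j e).symm.trans ih)]
  have hD : ∀ j (e : Fin n), u (D.y n j e.castSucc (!c)) = g j + g (j + 1) := fun j e =>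
    add_left_cancel ((d0 j e).symm.trans (BN j _))
  have Od : ∀ j (a : Fin (n + 1)), p (D.y n (j + 1 + 2 * (a : ℕ)) a (sh (!c) false)) =
      p (D.y n j 0 (sh (!c) true)) + ∑ i ∈ range (2 * a + 1), g (i + j) := fun j a => by
    induction a using Fin.induction with
    | zero => simp [R.iO, hg']
    | succ e ih =>
      rw [Fin.val_castSucc] at ih
      rw [Fin.val_succ, show j + 1 + 2 * ((e + 1 : ℕ) : ZMod D.h) = j + 1 + 2 * (e : ℕ) + 2 by
        push_cast; ring, R.dO, ih, hD, show 2 * ((e : ℕ) + 1) + 1 = 2 * e + 1 + 1 + 1 by ring,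
        sum_range_succ _ (_ + 1 + 1), sum_range_succ _ (_ + 1),
        show ((2 * e + 1 + 1 : ℕ) : ZMod D.h) + j = j + 1 + 2 * (e : ℕ) + 1 by push_cast; ring,
        show ((2 * e + 1 : ℕ) : ZMod D.h) + j = j + 1 + 2 * (e : ℕ) by push_cast; ring]
      ring
  let u0 : G.T × Bool → ℤ := fun x =>
    if D.J x then E (D.ind x - 1) - g (D.ind x - 1) else u (D.o n x)
  have u1 : ∀ x, ¬ D.J x → u0 x = u (D.o n x) := fun x h => if_neg h
  have u2 : ∀ j, u0 (D.F (j + 1)) = E j - g j := fun j => by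
    simp only [u0, if_pos (D.J_F _), D.ind_F, add_sub_cancel_right]
  let U : G.T × Bool → ℤ := fun x =>
    p (D.o n (D.mid x)) - p (D.y n (D.ind x - 2) (Fin.last n) 1)
  have U0 : ∀ x ∈ D.O, G.rot x ≠ rho c → U (turn G c x) = U x + u0 x := fun x hx hr => by
    have nJ : ¬ D.J x := fun e => hr e.2
    have := R.old x (iO (!c)) nJ
    rw [D.up_blue hr, lo_blue] at this
    simp only [U, D.ind_blue x hx hr, this, u1 x nJ]
    ring
  have U1 : ∀ j, U (turn G c (D.F (j + 1))) = E j := fun j => by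
    simp only [U, D.ind_red, R.eT, hE, two, add_sub_cancel_right, add_sub_cancel_left]
  have U2 : ∀ j, U (D.F (j + 1 + 1)) = g j + g (j + 1) := fun j => by
    have e := R.fW (j + 2)
    rw [BN, hA] at e
    simp only [U, D.ind_F, two, add_sub_cancel_right]
    linarith
  have hh : D.hol u0 = ∑ j, g j := by
    rw [D.hol_eq u0 U (fun j => g (j + -2)) U0 fun j => ?_, sum_shift]
    obtain ⟨j, rfl⟩ : ∃ i, j = i + 1 + 1 := ⟨j - 2, by ring⟩
    rw [U1, U2, u2, show j + 1 + 1 + -2 = j by ring]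
    ring
  have tw : D.Tw u0 (2 * q * D.hol u0) := by
    let p0 : G.T × Fin 6 → ℤ := fun s => if D.IsMid s then
      U (D.own s) + p (D.o n (D.S (D.ind (D.own s) - 1))) - g (D.ind (D.own s) - 2)
      else p (D.o n s)
    have p1 : ∀ s, ¬ D.IsMid s → p0 s = p (D.o n s) := fun s h => if_neg h
    have p2 : ∀ x ∈ D.O, p0 (D.mid x) =
        U x + p (D.o n (D.S (D.ind x - 1))) - g (D.ind x - 2) := fun x hx => by
      simp only [p0, if_pos (D.isMid_mid hx), own_mid]
    refine ⟨p0, fun x i hx => ?_, fun j => ?_, fun j => ?_, fun j => ?_⟩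
    · rcases D.old_face hx i with ⟨h1, h2⟩ | ⟨h0, hr, h1, h2⟩
      · rw [p1 _ h1, p1 _ h2, R.old x i hx, u1 x hx]
      · rw [h1, h2, p2 _ h0, p2 _ ((D.mem_turn x).2 h0), D.ind_blue x h0 hr, U0 x h0 hr]
        ring
    · obtain ⟨j, rfl⟩ : ∃ i, j = i + 1 := ⟨j - 1, by ring⟩
      rw [p1 _ (D.nm_S _), p2 _ (D.turn_mem _), U1, u2, D.ind_red, add_sub_cancel_right, two,
        add_sub_cancel_right]
      ring
    · obtain ⟨j, rfl⟩ : ∃ i, j = i + 1 + 1 := ⟨j - 2, by ring⟩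
      rw [p1 _ (D.nm_Z _), p2 _ (D.F_mem _), U2, u2, D.ind_F, add_sub_cancel_right, R.eW, R.fT,
        hA, hE, two, add_sub_cancel_right]
      ring
    · obtain ⟨j, rfl⟩ : ∃ i, j = i + 1 := ⟨j - 1, by ring⟩
      have e1 := Od (j + 1) (Fin.last n)
      have e2 := sum_range_mul (fun i => g (i + (j + 1))) (2 * q)
      have e3 := D.Ou_eq p (fun j e => by rw [R.cO, hC, add_zero]) (j + 1) (Fin.last n)
      have e4 : (n : ZMod D.h) = -1 := by
        push_cast at hn
        linear_combination hn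
      rw [mul_assoc, ← hq, show 2 * (n + 1) = 2 * n + 1 + 1 by ring, sum_range_succ, sum_shift,
        show ((2 * n + 1 : ℕ) : ZMod D.h) + (j + 1) = j by push_cast; rw [e4]; ring,
        nsmul_eq_mul] at e2
      rw [Fin.val_last, e4, show j + 1 + 1 + 2 * (-1) = j by ring] at e1
      rw [R.fO, hA] at e3
      rw [p1 _ (D.nm_oL _), p1 _ (D.nm_oU _), u2, hh, R.eO, hE, e1]
      push_cast at e2
      linarith
  have z := hg u0 tw
  rw [z, mul_zero] at tw
  obtain ⟨ψ, q0, hq0⟩ := (freeAb_iff.1 hφ).2.1 u0 tw.cocycle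
  have pr := D.prim hq0
  obtain ⟨r, hr⟩ : ∃ r : ZMod D.h → ℤ, ∀ j, q0 (D.F j).1 + ψ (D.P (D.F j)) = r j :=
    ⟨_, fun _ => rfl⟩
  have r1 : ∀ j, r (j + 1) = r j + g j := fun j => by
    obtain ⟨j, rfl⟩ : ∃ i, j = i + 1 := ⟨j - 1, by ring⟩
    have e := D.chain_F (fun x => U x - (q0 x.1 + ψ (D.P x))) (fun x hx hr => by
      rw [U0 x hx hr, pr x hx]; ring) (j + 1)
    rw [U1, U2, pr _ (D.F_mem _), hr, hr, u2] at e
    linarith
  refine ⟨ψ, Sum.elim q0 fun x => r x.1, D.face_cases (Q := fun f => u f - ψ (D.ph n f) =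
    Sum.elim q0 (fun x => r x.1) (D.gl n f).1 - Sum.elim q0 (fun x => r x.1) f.1)
    (fun x hx => ?_) (fun j => ?_) (fun j => ?_) (fun j e => ?_) (fun j e => ?_) fun j => ?_⟩
  · rw [D.gl_old hx, D.ph_old hx, ← u1 x hx]; exact hq0 x
  · rw [gl_F, ph_F, hA]; simp [o, y, ← hr]
  · rw [gl_i, ph_c, hg']; simp [y, r1]
  · rw [gl_c, ph_c, hC]; simp [y]
  · rw [gl_d, ph_d, hD, ← two]
    simp only [y, Sum.elim_inr, r1, map_zero]
    ring
  · have e := pr _ (D.F_mem (j + 1))
    rw [hr, r1, u2, show (turn G c (D.F (j + 1))).1 = (G.glue (D.F (j + 1))).1 from rfl] at e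
    rw [gl_e, ph_e, hE]
    simp only [o, y, Sum.elim_inl, Sum.elim_inr]
    linarith

theorem freeAb_W (hφ : IsFreeAb φ) {q : ℕ} (hq : n + 1 = q * D.h) (hg : D.Good q) :
    IsFreeAb (G := D.W n) (D.ph n) := by
  refine freeAb_iff.2 ⟨D.cocycle_W hφ.1 (by rw [hq]; simp), fun u hu => ?_, D.unique_W hφ⟩
  obtain ⟨p, hp⟩ := hu
  have R := (D.rel_iff (Pr := fun s s' f => p s' = p s + u f)).1 hp
  let q1 : D.WT n → ℤ := Sum.elim 0 fun x =>
    p (D.y n x.1 x.2 (sh (!c) true)) - p (D.o n (D.oL x.1))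
  obtain ⟨ψ, q2, h2⟩ := D.exists_gauge hφ hq hg (fun f => u f - (q1 (D.gl n f).1 - q1 f.1))
    (fun s => p s - q1 s.1) (D.rel_iff.1 fun f i => by
      rw [hp]
      simp only [lo, up, W_glue]
      ring) (fun j => by
      have := R.fO j
      rw [gl_F]
      simp only [q1, o, y, Sum.elim_inl, Sum.elim_inr, Pi.zero_apply] at this ⊢
      linarith) fun j e => by
      have := R.cO j e
      rw [gl_c]
      simp only [q1, o, y, Sum.elim_inr] at this ⊢
      linarith
  refine ⟨ψ, fun t => q1 t + q2 t, fun f => ?_⟩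
  have := h2 f
  simp only [W_glue] at this ⊢
  linarith

end Loop

end Pool.Agent.Lib.MP_75051e_gt
end
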