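import Pool.Agent.Lib.MP_75051e_gt.Homol

/-!
The first cohomology group of a gluing is a free abelian group of finite rank.
-/

set_option autoImplicit false

namespace Pool.Agent.Lib.MP_75051e_gt

open Finset Gluing

/-- the cocycles -/
def abZ (G : Gluing) : Submodule ℤ (G.T × Bool → ℤ) where
  carrier := {c | IsCocycle c}
  add_mem' := by
    rintro c c' ⟨p, hp⟩ ⟨p', hp'⟩
    exact ⟨p + p', fun f i => by simp only [Pi.add_apply, hp, hp']; ring⟩
  zero_mem' := ⟨0, by simp⟩
  smul_mem' := by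
    rintro n c ⟨p, hp⟩
    exact ⟨n • p, fun f i => by simp only [Pi.smul_apply, smul_eq_mul, hp]; ring⟩

/-- the coboundaries -/
def abB (G : Gluing) : Submodule ℤ (abZ G) where
  carrier := {c | IsCoboundary c.1}
  add_mem' := by
    rintro c c' ⟨p, hp⟩ ⟨p', hp'⟩
    exact ⟨p + p', fun f => by simp only [Submodule.coe_add, Pi.add_apply, hp, hp']; ring⟩
  zero_mem' := ⟨0, by simp⟩
  smul_mem' := by
    rintro n c ⟨p, hp⟩
    exact ⟨n • p, fun f => by simp only [Submodule.coe_smul, Pi.smul_apply, smul_eq_mul, hp]; ring⟩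

theorem ab_tf (G : Gluing) : Module.IsTorsionFree ℤ (abZ G ⧸ abB G) :=
  .of_smul_eq_zero fun n x h => by
    obtain ⟨c, rfl⟩ := Submodule.Quotient.mk_surjective _ x
    rw [← Submodule.Quotient.mk_smul, Submodule.Quotient.mk_eq_zero] at h
    obtain ⟨q, hq⟩ := h
    refine or_iff_not_imp_left.2 fun hn => (Submodule.Quotient.mk_eq_zero _).2
      ⟨fun t => q t / n, fun f => ?_⟩
    have e : q (G.glue f).1 = q f.1 + c.1 f * n := by
      have := hq f
      simp only [Submodule.coe_smul, Pi.smul_apply, smul_eq_mul] at this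
      linear_combination -this
    simp only [e, Int.add_mul_ediv_right _ _ hn, add_sub_cancel_left]

theorem exists_freeAb (G : Gluing) :
    ∃ (b : ℕ) (φ : G.T × Bool → (Fin b → ℤ)), IsFreeAb φ := by
  have := ab_tf G
  let B := Module.finBasis ℤ (abZ G ⧸ abB G)
  choose c hc using fun i => Submodule.Quotient.mk_surjective (abB G) (B i)
  choose p hp using fun i => (c i).2
  have key : ∀ a : Fin (Module.finrank ℤ (abZ G ⧸ abB G)) → ℤ,
      (abB G).mkQ (∑ i, a i • c i) = ∑ i, a i • B i := fun a => by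
    simp only [map_sum, map_smul, Submodule.mkQ_apply, hc]
  refine ⟨_, fun f i => (c i).1 f, freeAb_iff.2
    ⟨⟨fun s i => p i s, fun f j => funext fun i => hp i f j⟩, fun u hu => ?_, fun ψ h => ?_⟩⟩
  · let a := B.repr ((abB G).mkQ ⟨u, hu⟩)
    have h : (⟨u, hu⟩ : abZ G) - ∑ i, a i • c i ∈ abB G := by
      rw [← Submodule.Quotient.eq, ← Submodule.mkQ_apply, ← Submodule.mkQ_apply, key, B.sum_repr]
    obtain ⟨q, hq⟩ := h
    refine ⟨(Fintype.linearCombination ℤ a).toAddMonoidHom, q, fun f => ?_⟩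
    rw [← hq f]
    simp [Fintype.linearCombination_apply, mul_comm]
  · have e : ∀ x, ψ x = ∑ i, ψ (Pi.single i 1) * x i := fun x => by
      conv_lhs => rw [← Finset.univ_sum_single x, map_sum]
      refine sum_congr rfl fun i _ => ?_
      rw [mul_comm, ← smul_eq_mul, ← map_zsmul, ← Pi.single_smul, smul_eq_mul, mul_one]
    have h1 : ∑ i, ψ (Pi.single i 1) • c i ∈ abB G := by
      obtain ⟨q, hq⟩ := h
      refine ⟨q, fun f => ?_⟩
      refine .trans ?_ ((e _).symm.trans (hq f))
      simp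
    rw [← Submodule.Quotient.mk_eq_zero, ← Submodule.mkQ_apply, key] at h1
    have h2 := Fintype.linearIndependent_iff.1 B.linearIndependent _ h1
    ext x
    exact h2 x

theorem ufm_GR (b : ℕ) : UniqueFactorizationMonoid (GR b) := by
  induction b with
  | zero =>
    exact (AddMonoidAlgebra.uniqueAlgEquiv ℤ (A := ℤ)
      (Fin 0 → ℤ)).symm.toMulEquiv.uniqueFactorizationMonoid inferInstance
  | succ b ih =>
    have h : UniqueFactorizationMonoid (LaurentPolynomial (GR b)) :=
      .of_isLocalization (Submonoid.powers (Polynomial.X : Polynomial (GR b))) _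
    exact ((AddMonoidAlgebra.mapDomainRingEquiv ℤ
      (Fin.consLinearEquiv ℤ fun _ : Fin (b + 1) => ℤ).symm.toAddEquiv).trans
      AddMonoidAlgebra.curryRingEquiv).symm.toMulEquiv.uniqueFactorizationMonoid h

theorem exists_gcd_set {R : Type} [CommRing R] [UniqueFactorizationMonoid R] (S : Set R) :
    ∃ a, (∀ d ∈ S, a ∣ d) ∧ ∀ e, (∀ d ∈ S, e ∣ d) → e ∣ a := by
  let _ := UniqueFactorizationMonoid.toGCDMonoid R
  obtain ⟨a, ha, hm⟩ := (wellFounded_dvdNotUnit (α := R)).has_min
    {a | ∀ e, (∀ d ∈ S, e ∣ d) → e ∣ a} ⟨0, fun e _ => dvd_zero e⟩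
  refine ⟨a, fun d hd => by_contra fun h => ?_, ha⟩
  exact hm (gcd a d) (fun e he => dvd_gcd (ha e he) (he d hd))
    (dvdNotUnit_of_dvd_of_not_dvd (gcd_dvd_left a d) fun k => h (k.trans (gcd_dvd_right a d)))

/-- The Fitting ideal of the taut module has a greatest common divisor. -/
theorem exists_tautPoly {G : Gluing} {b : ℕ} (φ : G.T × Bool → (Fin b → ℤ)) :
    ∃ Θ : GR b, IsTautPoly φ Θ := by
  have := ufm_GR b
  exact exists_gcd_set (fitting (GR b) (TautModule φ) : Set (GR b))

end Pool.Agent.Lib.MP_75051e_gt
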