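import Mathlib

/-!
Linear forms with coefficients in `Z[x, y]`, and certificates that a linear system has no
nonzero solution.
-/

set_option autoImplicit false

namespace Pool.Agent.Lib.MP_75051e_gt

/-- the term `c x^a y^b e_v` -/
structure Tm where
  v : ℕ
  a : ℕ
  b : ℕ
  c : ℤ

/-- sum of two sorted forms -/
def mer : ℕ → List Tm → List Tm → List Tm
  | 0, l, l' => l ++ l'
  | _ + 1, [], l' => l'
  | _ + 1, s :: l, [] => s :: l
  | n + 1, s :: l, t :: l' =>
    bif Nat.beq s.v t.v && Nat.beq s.a t.a && Nat.beq s.b t.b then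
      (bif Nat.beq (Int.add s.c t.c).natAbs 0 then mer n l l'
        else ⟨s.v, s.a, s.b, Int.add s.c t.c⟩ :: mer n l l')
    else bif Nat.blt s.v t.v || (Nat.beq s.v t.v &&
        (Nat.blt s.a t.a || (Nat.beq s.a t.a && Nat.blt s.b t.b))) then s :: mer n l (t :: l')
    else t :: mer n (s :: l) l'

/-- the form `l` times the coefficient of `t` -/
def scl (t : Tm) (l : List Tm) : List Tm :=
  l.map fun s => ⟨s.v, Nat.add s.a t.a, Nat.add s.b t.b, Int.mul s.c t.c⟩

/-- substitution of forms for the variables -/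
def sbs (σ : ℕ → List Tm) : List Tm → List Tm
  | [] => []
  | t :: l => mer 100000 (scl t (σ t.v)) (sbs σ l)

/-- The row `D n` times the monomial of the head of `C n` is a combination of earlier rows. -/
def chk (D C : ℕ → List Tm) (n : ℕ) : Bool :=
  match C n with
  | [] => false
  | t :: l => Nat.beq t.v n && Nat.beq t.c.natAbs 1 && l.all (fun s => Nat.blt s.v n) &&
      (sbs D (t :: l)).isEmpty

/-- the form is the variable `v` -/
def isVar (l : List Tm) (v : ℕ) : Bool :=
  match l with
  | [t] => Nat.beq t.v v && Nat.beq t.a 0 && Nat.beq t.b 0 && Nat.beq t.c.natAbs 1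
  | _ => false

/-- a test holds for all numbers from `m` to `m + n - 1` -/
def allTo (f : ℕ → Bool) (m : ℕ) : ℕ → Bool
  | 0 => true
  | n + 1 => f (Nat.add m n) && allTo f m n

theorem allTo_spec {f : ℕ → Bool} {m n : ℕ} (h : allTo f m n = true) {i : ℕ} (h1 : m ≤ i)
    (h2 : i < m + n) : f i = true := by
  induction n with
  | zero => omega
  | succ n ih =>
    rw [allTo, Bool.and_eq_true] at h
    rcases Nat.lt_or_ge i (m + n) with k | k
    · exact ih h.2 k
    · have e : i = Nat.add m n := by rw [Nat.add_eq]; omega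
      rw [e]; exact h.1

section

variable {R N : Type} [CommRing R] [AddCommGroup N] [Module R N] (x y : R) (U : ℕ → N)

/-- the value of a form -/
def ev (l : List Tm) : N := (l.map fun t => ((t.c : R) * x ^ t.a * y ^ t.b) • U t.v).sum

theorem ev_nil : ev x y U [] = 0 := rfl

theorem ev_cons (t : Tm) (l : List Tm) :
    ev x y U (t :: l) = ((t.c : R) * x ^ t.a * y ^ t.b) • U t.v + ev x y U l := rfl

theorem ev_mer (n : ℕ) (l l' : List Tm) : ev x y U (mer n l l') = ev x y U l + ev x y U l' := by
  induction n generalizing l l' with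
  | zero => simp only [mer, ev, List.map_append, List.sum_append]
  | succ n ih =>
    rcases l with _ | ⟨s, l⟩
    · rw [mer, ev_nil, zero_add]
    rcases l' with _ | ⟨t, l'⟩
    · rw [mer, ev_nil, add_zero]
    rw [mer]
    cases h1 : (Nat.beq s.v t.v && Nat.beq s.a t.a && Nat.beq s.b t.b)
    · rw [cond_false]
      cases h2 : (Nat.blt s.v t.v || (Nat.beq s.v t.v &&
        (Nat.blt s.a t.a || (Nat.beq s.a t.a && Nat.blt s.b t.b))))
      · rw [cond_false, ev_cons, ih, ev_cons x y U t]; abel
      · rw [cond_true, ev_cons, ih, ev_cons x y U s]; abel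
    · rw [cond_true]
      simp only [Bool.and_eq_true, Nat.beq_eq] at h1
      obtain ⟨⟨e1, e2⟩, e3⟩ := h1
      have k : (((Int.add s.c t.c : ℤ) : R) * x ^ s.a * y ^ s.b) • U s.v =
          ((s.c : R) * x ^ s.a * y ^ s.b) • U s.v + ((t.c : R) * x ^ t.a * y ^ t.b) • U t.v := by
        rw [← e1, ← e2, ← e3, ← add_smul, Int.add_def, Int.cast_add, add_mul, add_mul]
      cases h3 : Nat.beq (Int.add s.c t.c).natAbs 0
      · rw [cond_false, ev_cons, ih, ev_cons, ev_cons, k]; abel
      · rw [Nat.beq_eq, Int.natAbs_eq_zero] at h3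
        rw [h3, Int.cast_zero, zero_mul, zero_mul, zero_smul] at k
        rw [cond_true, ih, ev_cons, ev_cons, add_add_add_comm, ← k, zero_add]

theorem ev_scl (t : Tm) (l : List Tm) :
    ev x y U (scl t l) = ((t.c : R) * x ^ t.a * y ^ t.b) • ev x y U l := by
  induction l with
  | nil => exact (smul_zero _).symm
  | cons s l ih =>
    have e : scl t (s :: l) =
      ⟨s.v, Nat.add s.a t.a, Nat.add s.b t.b, Int.mul s.c t.c⟩ :: scl t l := rfl
    rw [e, ev_cons, ev_cons, ih, smul_add, smul_smul]
    congr 2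
    simp only [Nat.add_eq, Int.mul_def, Int.cast_mul, pow_add]
    ring

theorem ev_sbs (σ : ℕ → List Tm) (l : List Tm) :
    ev x y U (sbs σ l) = ev x y (fun v => ev x y U (σ v)) l := by
  induction l with
  | nil => rfl
  | cons t l ih => rw [sbs, ev_mer, ih, ev_scl, ev_cons]

variable {x y U}

theorem ev_isVar {l : List Tm} {v : ℕ} (h : isVar l v = true) (h0 : ev x y U l = 0) : U v = 0 := by
  match l, h, h0 with
  | [t], h, h0 =>
    simp only [isVar, Bool.and_eq_true, Nat.beq_eq] at h
    obtain ⟨⟨⟨e1, e2⟩, e3⟩, e4⟩ := h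
    rw [ev_cons, ev_nil, add_zero, e1, e2, e3, pow_zero, pow_zero, mul_one, mul_one] at h0
    exact ((Int.isUnit_iff_natAbs_eq.2 e4).map (Int.castRingHom R)).smul_eq_zero.1 h0

theorem rows_zero (hx : IsUnit x) (hy : IsUnit y) {D C : ℕ → List Tm} {m n : ℕ}
    (h0 : ∀ i < m, ev x y U (D i) = 0) (h : ∀ i, m ≤ i → i < n → chk D C i = true) :
    ∀ i < n, ev x y U (D i) = 0 := by
  intro i
  induction i using Nat.strong_induction_on with
  | _ i ih =>
    intro hi
    rcases Nat.lt_or_ge i m with k | k
    · exact h0 i k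
    have hc := h i k hi
    unfold chk at hc
    rcases e : C i with _ | ⟨t, l⟩
    · rw [e] at hc; exact absurd hc Bool.false_ne_true
    rw [e] at hc
    simp only [Bool.and_eq_true, Nat.beq_eq, List.all_eq_true, Nat.blt_eq,
      List.isEmpty_iff] at hc
    obtain ⟨⟨⟨e1, e2⟩, e3⟩, e4⟩ := hc
    have e5 := ev_sbs x y U D (t :: l)
    have e6 : ev x y (fun v => ev x y U (D v)) l = 0 :=
      List.sum_eq_zero fun z hz => by
        obtain ⟨s, hs, rfl⟩ := List.mem_map.1 hz
        beta_reduce
        rw [ih s.v (e3 s hs) ((e3 s hs).trans hi), smul_zero]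
    rw [e4, ev_nil, ev_cons, e6, add_zero, e1] at e5
    exact ((((Int.isUnit_iff_natAbs_eq.2 e2).map (Int.castRingHom R)).mul (hx.pow _)).mul
      (hy.pow _)).smul_eq_zero.1 e5.symm

end

/-- prescribed differences along a rooted tree -/
theorem exists_gauge {T A : Type} [AddCommGroup A] (rk : T → ℕ) (nb : T → T) (d : T → A) :
    ∃ q : T → A, ∀ t, rk (nb t) < rk t → q t = q (nb t) + d t := by
  classical
  let F : ∀ t : T, (∀ s, rk s < rk t → A) → A := fun t g =>
    if h : rk (nb t) < rk t then g (nb t) h + d t else 0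
  have wf : WellFounded fun s t : T => rk s < rk t := InvImage.wf rk Nat.lt_wfRel.wf
  refine ⟨wf.fix F, fun t h => ?_⟩
  rw [wf.fix_eq F t]
  exact dif_pos h

/-- functions that are constant along a rooted forest -/
theorem eq_of_rank {T A : Type} (rk : T → ℕ) (nb rep : T → T) (w : T → A)
    (h : ∀ t, t = rep t ∨ (rk (nb t) < rk t ∧ rep (nb t) = rep t ∧ w (nb t) = w t)) (t : T) :
    w t = w (rep t) := by
  induction e : rk t using Nat.strong_induction_on generalizing t with
  | _ n ih =>
    rcases h t with k | ⟨k1, k2, k3⟩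
    · exact congrArg w k
    · rw [← k3, ← k2]
      exact ih _ (e ▸ k1) _ rfl

end Pool.Agent.Lib.MP_75051e_gt
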