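import Pool.Agent.Lib.MP_75051e_gt.Homol
import Pool.Agent.Lib.MP_75051e_gt.PEng
import Pool.Agent.Lib.MP_75051e_gt.PTab

/-! The gadget with 420 tetrahedra: definitions and finite checks. -/

set_option autoImplicit false

namespace Pool.Agent.Lib.MP_75051e_gt.Tb

open Gluing

/-- digit number `i` of `big` in base `2 ^ w` -/
def dg (big w i : ℕ) : ℕ := Nat.mod (Nat.shiftRight big (Nat.mul w i)) (Nat.pow 2 w)

/-- a list of `n` terms -/
def dec : ℕ → ℕ → List Tm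
  | 0, _ => []
  | n + 1, x => ⟨Nat.mod (Nat.shiftRight x 23) 4096, Nat.mod (Nat.shiftRight x 19) 16,
      Nat.mod (Nat.shiftRight x 15) 16, Int.subNatNat (Nat.mod x 32768) 16384⟩ ::
      dec n (Nat.shiftRight x 35)

/-- row number `n` of a table -/
def row (big off n : ℕ) : List Tm :=
  dec (Nat.sub (dg off 13 (Nat.succ n)) (dg off 13 n))
    (Nat.mod (Nat.shiftRight big (Nat.mul 35 (dg off 13 n)))
      (Nat.pow 2 (Nat.mul 35 (Nat.sub (dg off 13 (Nat.succ n)) (dg off 13 n)))))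

/-- numbering of the faces and of the edges of the tetrahedra -/
def fi (f : Fin 420 × Bool) : ℕ := 2 * f.1.val + f.2.toNat
def fd (n : ℕ) : Fin 420 × Bool := (Fin.ofNat 420 (n / 2), n % 2 == 1)
def si (s : Fin 420 × Fin 6) : ℕ := 6 * s.1.val + s.2.val
def sd (n : ℕ) : Fin 420 × Fin 6 := (Fin.ofNat 420 (n / 6), Fin.ofNat 6 n)

def gf (f : Fin 420 × Bool) : Fin 420 × Bool := fd (dg gT 10 (fi f))
def gi (f : Fin 420 × Bool) : Fin 420 × Bool := fd (dg gI 10 (fi f))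
def tc (t : Fin 420) : Bool := dg tcT 1 t.val == 1
def bc (t : Fin 420) : Bool := dg bcT 1 t.val == 1

theorem g_chk : ∀ (t : Fin 420) (k : Bool), gi (gf (t, k)) = (t, k) ∧ gf (gi (t, k)) = (t, k) ∧
    bc (gf (t, k)).1 = tc t ∧ fd (fi (t, k)) = (t, k) := by decide +kernel

/-- the closed block -/
def Γ : Gluing where
  T := Fin 420
  glue := ⟨gf, gi, fun f => (g_chk f.1 f.2).1, fun f => (g_chk f.1 f.2).2.1⟩
  rot f := rho (tc f.1)

def lo (f : Fin 420 × Bool) (i : Fin 3) : Fin 420 × Fin 6 := Γ.lo f i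
def up (f : Fin 420 × Bool) (i : Fin 3) : Fin 420 × Fin 6 := Γ.up f i

def ow (s : Fin 420 × Fin 6) : ℕ := dg owT 9 (si s)
def p0 (s : Fin 420 × Fin 6) : ℕ := dg p0T 3 (si s)
def p1 (s : Fin 420 × Fin 6) : ℕ := dg p1T 3 (si s)
def rk (s : Fin 420 × Fin 6) : ℕ := dg rkT 6 (si s)
def nf (s : Fin 420 × Fin 6) : Fin 420 × Bool := fd (dg nbT 12 (si s) / 3)
def ni (s : Fin 420 × Fin 6) : Fin 3 := Fin.ofNat 3 (dg nbT 12 (si s))
def tn (t : Fin 420) : Fin 420 × Bool := fd (dg tnT 10 t.val)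
def tr (t : Fin 420) : ℕ := dg trT 7 t.val

/-- the chosen edge with a given owner -/
def rep (v : ℕ) : Fin 420 × Fin 6 :=
  if v < 420 then (Fin.ofNat 420 v, 1) else (415, Fin.ofNat 6 v)

theorem flag_chk : ∀ (t : Fin 420) (k : Bool) (i : Fin 3), t ≠ 417 →
    ow (lo (t, k) i) = ow (up (t, k) i) ∧
    p0 (lo (t, k) i) + p0 (up (t, k) 0) = p0 (up (t, k) i) + p0 (lo (t, k) 0) ∧
    p1 (lo (t, k) i) + p1 (up (t, k) 0) = p1 (up (t, k) i) + p1 (lo (t, k) 0) := by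
  decide +kernel

theorem slot_chk : ∀ (t : Fin 420) (j : Fin 6), sd (si (t, j)) = (t, j) ∧
    p0 (rep (ow (t, j))) ≤ 4 ∧ ((t, j) = rep (ow (t, j)) ∨ (nf (t, j)).1 ≠ 417 ∧
    (lo (nf (t, j)) (ni (t, j)) = (t, j) ∧ rk (up (nf (t, j)) (ni (t, j))) < rk (t, j) ∨
      up (nf (t, j)) (ni (t, j)) = (t, j) ∧ rk (lo (nf (t, j)) (ni (t, j))) < rk (t, j))) := by
  decide +kernel

theorem tet_chk : ∀ t : Fin 420, ow (t, 1) = t.val ∧ (t = 415 ∨ (tn t).1 ≠ 417 ∧
    p0 (lo (tn t) 0) = p0 (up (tn t) 0) ∧ p1 (lo (tn t) 0) = p1 (up (tn t) 0) ∧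
    ((tn t).1 = t ∧ tr (gf (tn t)).1 < tr t ∨ (gf (tn t)).1 = t ∧ tr (tn t).1 < tr t)) := by
  decide +kernel

/-- the term of an edge -/
def tm (s : Fin 420 × Fin 6) (c : ℤ) : List Tm := [⟨ow s, p0 s, p1 s, c⟩]

/-- the relation `s = s' + s''` -/
def rel (s s' s'' : Fin 420 × Fin 6) : List Tm := mer 3 (tm s 1) (mer 3 (tm s' (-1)) (tm s'' (-1)))

/-- the rows for the module -/
def DM (n : ℕ) : List Tm :=
  if n < 840 then rel ((fd n).1, 0) ((fd n).1, sh true (fd n).2) ((fd n).1, sh false (fd n).2)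
  else if n < 842 then rel (417, sh true (!(fd n).2)) (417, 1) (417, sh false (fd n).2)
  else if n < 843 then [⟨420, 0, 0, 1⟩] else row dMT dMO (n - 843)

def CM (n : ℕ) : List Tm := row cMT cMO (n - 843)

/-- the values of the universal solution -/
def WM (v : ℕ) : List Tm := row wMT wMO v

theorem w_chk : allTo (fun n => (sbs WM (DM n)).isEmpty) 0 840 = true := by decide +kernel

theorem m_chk : allTo (chk DM CM) 843 871 = true := by decide +kernel

theorem mz_chk : ∀ (t : Fin 420) (j : Fin 6), dg zT 11 (ow (t, j)) < 1714 ∧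
    isVar (DM (dg zT 11 (ow (t, j)))) (ow (t, j)) = true := by decide +kernel

/-- the rows for the cohomology -/
def DH (n : ℕ) : List Tm :=
  if n < 2520 then
    if (fd (n / 3)).1 = 417 then [] else mer 3 [⟨fi (fd (n / 3)), 0, 0, -1⟩]
      (mer 3 [⟨840 + si (up (fd (n / 3)) (Fin.ofNat 3 n)), 0, 0, 1⟩]
        [⟨840 + si (lo (fd (n / 3)) (Fin.ofNat 3 n)), 0, 0, -1⟩])
  else if n < 2940 then
    if Fin.ofNat 420 n = 415 then [] else [⟨fi (tn (Fin.ofNat 420 n)), 0, 0, 1⟩]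
  else if n < 2941 then [⟨190, 0, 0, 1⟩] else if n < 2942 then [⟨4, 0, 0, 1⟩]
  else row dHT dHO (n - 2942)

def CH (n : ℕ) : List Tm := row cHT cHO (n - 2942)

theorem h_chk : allTo (chk DH CH) 2942 842 = true := by decide +kernel

theorem hz_chk : ∀ (t : Fin 420) (k : Bool), t ≠ 417 → dg z1T 12 (fi (t, k)) < 3784 ∧
    isVar (DH (dg z1T 12 (fi (t, k)))) (fi (t, k)) = true := by decide +kernel

end Pool.Agent.Lib.MP_75051e_gt.Tb
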