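import Pool.Agent.Lib.MP_75051e_gt.Homol

/-!
Gluings with dead red edges: colours, owners of edges, fans, cocycles and modules.
-/

set_option autoImplicit false

namespace Pool.Agent.Lib.MP_75051e_gt

open Finset Gluing

/-- the colours of the top and of the bottom edges -/
structure Col (G : Gluing) where
  tc : G.T → Bool
  bc : G.T → Bool
  rot_eq : ∀ f, G.rot f = rho (tc f.1)
  bc_glue : ∀ f, bc (G.glue f).1 = tc f.1

/-- A coloured connected gluing; `Z` is a set of dead red edges of angle 0, every other edge is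
the top edge of exactly one tetrahedron `own`. -/
structure Pre (G : Gluing) extends Col G where
  Z : G.T × Fin 6 → Prop
  Z_glue : ∀ f i, Z (G.lo f i) ↔ Z (G.up f i)
  Z_red : ∀ s, Z s → ∃ j, s.2 = sh false j
  own : G.T × Fin 6 → G.T
  own_top : ∀ t, own (t, 1) = t
  own_glue : ∀ f i, ¬ Z (G.lo f i) → own (G.lo f i) = own (G.up f i)
  conn : ∀ s, ¬ Z s → G.SameEdge s (own s, 1)
  link : ∀ t t', Relation.EqvGen (fun a b => ∃ k, b = (G.glue (a, k)).1) t t'

variable {G G' : Gluing}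

/-- the three identifications across a face of colour `c` -/
lemma three_iff {Pr : G.T × Fin 6 → G.T × Fin 6 → Prop} {c : Bool} {f : G.T × Bool}
    (hr : G.rot f = rho c) : (∀ i, Pr (G.lo f i) (G.up f i)) ↔
      Pr (f.1, 1) ((G.glue f).1, sh c (G.glue f).2) ∧
      Pr (f.1, sh c (xor f.2 c)) ((G.glue f).1, 0) ∧
      Pr (f.1, sh (!c) (xor f.2 (!c))) ((G.glue f).1, sh (!c) (G.glue f).2) := by
  constructor
  · intro h
    have h1 := h 0
    have h2 := h (iW c)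
    have h3 := h (iO c)
    rw [lo_T, up_T hr] at h1
    rw [lo_W, up_W hr] at h2
    rw [lo_O, up_O hr] at h3
    exact ⟨h1, h2, h3⟩
  · rintro ⟨h1, h2, h3⟩ i
    rcases tri c i with rfl | rfl | rfl
    · rw [lo_T, up_T hr]; exact h1
    · rw [lo_W, up_W hr]; exact h2
    · rw [lo_O, up_O hr]; exact h3

/-- invariance along live edges -/
theorem eq_of_sameZ {Z : G.T × Fin 6 → Prop} (hZ : ∀ f i, Z (G.lo f i) ↔ Z (G.up f i)) {A : Type}
    {w : G.T × Fin 6 → A} (h : ∀ f i, ¬ Z (G.lo f i) → w (G.lo f i) = w (G.up f i))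
    {a b : G.T × Fin 6} (hab : G.SameEdge a b) (ha : ¬ Z a) : w a = w b ∧ ¬ Z b := by
  suffices k : (Z a ↔ Z b) ∧ (¬ Z a → w a = w b) from ⟨k.2 ha, mt k.1.2 ha⟩
  clear ha
  induction hab with
  | rel a b r => obtain ⟨f, i, rfl, rfl⟩ := r; exact ⟨hZ f i, h f i⟩
  | refl => exact ⟨Iff.rfl, fun _ => rfl⟩
  | symm _ _ _ ih => exact ⟨ih.1.symm, fun k => (ih.2 (mt ih.1.1 k)).symm⟩
  | trans _ _ _ _ _ i j => exact ⟨i.1.trans j.1, fun k => (i.2 k).trans (j.2 (mt i.1.2 k))⟩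

section orbit

variable {α : Type} [Finite α] {e : α → α} (he : Function.Injective e) {p : α → Prop}
include he

lemma orb_step {x : α} : (∃ n, p (e^[n] (e x))) ↔ ∃ n, p (e^[n] x) := by
  refine ⟨fun ⟨n, h⟩ => ⟨n + 1, h⟩, fun ⟨n, h⟩ => ?_⟩
  obtain ⟨L, h0, hL⟩ := he.mem_periodicPts x
  refine ⟨n + L - 1, ?_⟩
  rwa [← Function.iterate_succ_apply, show (n + L - 1).succ = n + L by omega,
    Function.iterate_add_apply, hL.eq]

lemma orb_ind {Q : α → Prop} (h0 : ∀ f, p f → Q (e f)) (h1 : ∀ x, ¬ p x → Q x → Q (e x)) {x : α}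
    (hx : ∃ n, p (e^[n] x)) : Q x := by
  obtain ⟨n, h⟩ := hx
  obtain ⟨L, l0, hL⟩ := he.mem_periodicPts x
  have k : ∀ m, Q (e^[m + 1 + n] x) := fun m => by
    induction m with
    | zero => rw [zero_add, add_comm, Function.iterate_succ_apply']; exact h0 _ h
    | succ m ih =>
      rw [add_right_comm, Function.iterate_succ_apply']
      exact (em _).elim (h0 _) fun j => h1 _ j ih
  have l1 := Nat.mul_le_mul_right (n + 1) l0
  have := k (L * (n + 1) - n - 1)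
  rwa [show L * (n + 1) - n - 1 + 1 + n = L * (n + 1) by omega, (hL.mul_const _).eq] at this

variable (p) in
/-- the last point with property `p` before a given point -/
lemma exists_prev : ∃ r : α → α, (∀ f, p f → r (e f) = f) ∧
    (∀ x, ¬ p x → (∃ n, p (e^[n] x)) → r (e x) = r x) ∧ (∀ x, p x → p (r x)) ∧
    ∀ x y, p x → p y → r x = r y → x = y := by
  classical
  let R : α → α → Prop := fun a b => ¬ p a ∧ b = e a
  let Ch : α → α → Prop := fun f x => p f ∧ Relation.ReflTransGen R (e f) x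
  have ex : ∀ x, (∃ n, p (e^[n] x)) → ∃ f, Ch f x := fun x =>
    orb_ind he (Q := fun x => ∃ f, Ch f x) (fun f h => ⟨f, h, .refl⟩)
      fun x h ⟨f, k⟩ => ⟨f, k.1, k.2.tail ⟨h, rfl⟩⟩
  have u0 : ∀ a f, p f → Relation.ReflTransGen R a (e f) → e f = a := fun a f h k =>
    k.cases_tail.resolve_right fun ⟨y, _, j⟩ => j.1 (he j.2 ▸ h)
  have u1 : ∀ f g x, Ch f x → Ch g x → f = g := fun f g x h k =>
    (Relation.ReflTransGen.total_of_right_unique (r := Function.swap R)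
      (fun _ _ _ i j => he (i.2.symm.trans j.2)) h.2.swap k.2.swap).elim
      (fun j => he (u0 _ _ h.1 j.swap)) fun j => (he (u0 _ _ k.1 j.swap)).symm
  have u2 : ∀ x y, p x → Relation.ReflTransGen R x y → x = y := fun x y h k =>
    k.cases_head.resolve_right fun ⟨_, j, _⟩ => j.1 h
  obtain ⟨r, hr⟩ : ∃ r : α → α, ∀ x, (∃ f, Ch f x) → Ch (r x) x :=
    ⟨fun x => if h : ∃ f, Ch f x then h.choose else x, fun x h => by
      simp only [dif_pos h]; exact h.choose_spec⟩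
  have v : ∀ f x, Ch f x → r x = f := fun f x h => u1 _ _ _ (hr x ⟨f, h⟩) h
  refine ⟨r, fun f h => v _ _ ⟨h, .refl⟩, fun x h k => ?_, fun x h => (hr x (ex x ⟨0, h⟩)).1,
    fun x y hx hy k => ?_⟩
  · have j := hr x (ex x k)
    exact v _ _ ⟨j.1, j.2.tail ⟨h, rfl⟩⟩
  · exact (Relation.ReflTransGen.total_of_right_unique (fun _ _ _ i j => i.2.trans j.2.symm)
      (hr x (ex x ⟨0, hx⟩)).2 (k ▸ (hr y (ex y ⟨0, hy⟩)).2)).elim (u2 _ _ hx)
      fun j => (u2 _ _ hy j).symm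

end orbit

/-- the edge of colour `c` and angle 0 in the top face `h` -/
def sl (c : Bool) (h : G.T × Bool) : G.T × Fin 6 := (h.1, sh c (xor h.2 c))

lemma sl_eq (t : G.T) (c k : Bool) : (t, sh c k) = sl c (t, xor k c) := by simp [sl]

lemma slot_sl (s : G.T × Fin 6) : s = (s.1, 0) ∨ s = (s.1, 1) ∨ ∃ c h, s = sl c h := by
  rcases (by decide : ∀ j : Fin 6, j = 0 ∨ j = 1 ∨ ∃ c k, j = sh c (xor k c)) s.2 with
    h | h | ⟨c, k, h⟩
  exacts [.inl (Prod.ext rfl h), .inr (.inl (Prod.ext rfl h)),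
    .inr (.inr ⟨c, (s.1, k), Prod.ext rfl h⟩)]

lemma exists_sl {A : Type} (a b : G.T → A) (u : Bool → G.T × Bool → A) : ∃ w : G.T × Fin 6 → A,
    (∀ t, w (t, 0) = a t) ∧ (∀ t, w (t, 1) = b t) ∧ ∀ c h, w (sl c h) = u c h :=
  ⟨fun s => ![a s.1, b s.1, u false (s.1, false), u true (s.1, true), u false (s.1, true),
    u true (s.1, false)] s.2, fun _ => rfl, fun _ => rfl, fun c ⟨_, k⟩ => by
      cases c <;> cases k <;> rfl⟩

namespace Col

variable (C : Col G) {c : Bool} {x : G.T × Bool}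

lemma base (h : C.tc x.1 = c) : G.up x 0 = sl c (turn G c x) ∧ G.lo x (iW c) = sl c x ∧
    G.up x (iW c) = ((G.glue x).1, 0) := by
  subst h
  exact ⟨(up_T (C.rot_eq x)).trans (sl_eq ..), lo_W .., up_W (C.rot_eq x)⟩

lemma step (h : C.tc x.1 ≠ c) : G.lo x (iO (C.tc x.1)) = sl c x ∧
    G.up x (iO (C.tc x.1)) = sl c (turn G c x) := by
  obtain rfl := Bool.eq_not.2 h.symm
  exact ⟨lo_O .., (up_O (C.rot_eq x)).trans (sl_eq ..)⟩

lemma inv {A : Type} {w : G.T × Fin 6 → A}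
    (h1 : ∀ f, w (f.1, 1) = w (sl (C.tc f.1) (turn G (C.tc f.1) f)))
    (h2 : ∀ f, w (sl (C.tc f.1) f) = w ((G.glue f).1, 0))
    (h3 : ∀ c f, w (sl c f) = w (sl c (turn G c f))) (f : G.T × Bool) (i : Fin 3) :
    w (G.lo f i) = w (G.up f i) := by
  refine (three_iff (Pr := fun a b => w a = w b) (C.rot_eq f)).2 ⟨?_, h2 f, ?_⟩ i
  · rw [sl_eq _ _ (G.glue f).2]; exact h1 f
  · rw [sl_eq _ _ (G.glue f).2]; exact h3 _ f

lemma exists_col : ∃ col : G.T × Fin 6 → Bool, (∀ a b, G.SameEdge a b → col a = col b) ∧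
    (∀ t, col (t, 0) = C.bc t) ∧ (∀ t, col (t, 1) = C.tc t) ∧ ∀ t c k, col (t, sh c k) = c := by
  obtain ⟨w, a, b, u⟩ := exists_sl C.bc C.tc fun c _ => c
  exact ⟨w, fun _ _ => eq_of_same (C.inv (fun f => by rw [b, u]) (fun f => by rw [a, u, C.bc_glue])
    fun c f => by rw [u, u]), a, b, fun t c k => by rw [sl_eq, u]⟩

/-- the cycle of colour `c` contains a face of colour `c` -/
def Orb (c : Bool) (x : G.T × Bool) : Prop := ∃ n, C.tc ((turn G c)^[n] x).1 = c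

lemma orb_turn : C.Orb c (turn G c x) ↔ C.Orb c x :=
  orb_step (turn_injective G c) (p := fun y => C.tc y.1 = c)

lemma orb {b : G.T × Fin 6} (h : G.SameEdge (sl c x) b) (hb : b.2 = 0 ∨ b.2 = 1) : C.Orb c x := by
  obtain ⟨w, a, a', u⟩ := exists_sl (fun _ => True) (fun _ => True) C.Orb
  have o : ∀ f, C.Orb (C.tc f.1) f := fun f => ⟨0, rfl⟩
  rw [← u, eq_of_same (w := w) (C.inv (fun f => by rw [a', u, eq_true (C.orb_turn.2 (o f))])
    (fun f => by rw [a, u, eq_true (o f)]) fun c f => by rw [u, u, C.orb_turn]) h]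
  rcases hb with k | k
  · rw [show b = (b.1, 0) from Prod.ext rfl k, a]; trivial
  · rw [show b = (b.1, 1) from Prod.ext rfl k, a']; trivial

lemma same_step (h : C.tc x.1 ≠ c) : G.SameEdge (sl c x) (sl c (turn G c x)) := by
  rw [← (C.step h).1, ← (C.step h).2]
  exact same_glue ..

lemma same_top (x : G.T × Bool) :
    G.SameEdge (x.1, 1) (sl (C.tc x.1) (turn G (C.tc x.1) x)) := by
  rw [← (C.base rfl).1, ← lo_T]
  exact same_glue ..

lemma same_bot (x : G.T × Bool) : G.SameEdge (sl (C.tc x.1) x) ((G.glue x).1, 0) := by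
  rw [← (C.base rfl).2.1, ← (C.base rfl).2.2]
  exact same_glue ..

lemma ends (H : ∀ c x, C.Orb c x) (s : G.T × Fin 6) :
    (∃ t, G.SameEdge s (t, 1)) ∧ ∃ t, G.SameEdge s (t, 0) := by
  have top : ∀ c x, ∃ t, G.SameEdge (sl c x) (t, 1) := fun c x =>
    orb_ind (turn_injective G c) (p := fun y => C.tc y.1 = c)
      (Q := fun x => ∃ t, G.SameEdge (sl c x) (t, 1))
      (fun f h => ⟨f.1, h ▸ (C.same_top f).symm _ _⟩)
      (fun x h ⟨t, k⟩ => ⟨t, ((C.same_step h).symm _ _).trans _ _ _ k⟩) (H c x)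
  have bot : ∀ c x, ∃ t, G.SameEdge (sl c x) (t, 0) := fun c x => by
    obtain ⟨n, h⟩ := H c x
    induction n generalizing x with
    | zero => exact ⟨_, h ▸ C.same_bot x⟩
    | succ n ih =>
      by_cases k : C.tc x.1 = c
      · exact ⟨_, k ▸ C.same_bot x⟩
      · exact (ih _ h).imp fun t j => (C.same_step k).trans _ _ _ j
  rcases slot_sl s with h | h | ⟨c, x, rfl⟩
  · have k := C.same_bot (G.glue.symm (s.1, false))
    rw [Equiv.apply_symm_apply, ← h] at k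
    exact ⟨(top _ _).imp fun t j => (k.symm _ _).trans _ _ _ j, s.1, h ▸ .refl _⟩
  · have k := C.same_top (s.1, false)
    rw [← h] at k
    exact ⟨⟨s.1, h ▸ .refl _⟩, (bot _ _).imp fun t j => k.trans _ _ _ j⟩
  · exact ⟨top c x, bot c x⟩

end Col

/-- It is enough to join the live edges of angle 0 to their owners. -/
theorem conn_of_sh (C : Col G) {Z : G.T × Fin 6 → Prop} (hZ : ∀ f i, Z (G.lo f i) ↔ Z (G.up f i))
    {own : G.T × Fin 6 → G.T} (h1 : ∀ t, own (t, 1) = t)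
    (h2 : ∀ f i, ¬ Z (G.lo f i) → own (G.lo f i) = own (G.up f i))
    (h3 : ∀ t c k, ¬ Z (t, sh c k) → G.SameEdge (t, sh c k) (own (t, sh c k), 1))
    (s : G.T × Fin 6) (hs : ¬ Z s) : G.SameEdge s (own s, 1) := by
  rcases slot_sl s with h | h | ⟨c, x, rfl⟩
  · obtain ⟨-, e1, e2⟩ := C.base (x := G.glue.symm (s.1, false)) rfl
    rw [Equiv.apply_symm_apply, ← h] at e2
    have k := mt (hZ _ _).1 (e2 ▸ hs)
    rw [← e2, ← h2 _ _ k]
    refine ((same_glue _ _).symm _ _).trans _ _ _ ?_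
    rw [e1] at k ⊢
    exact h3 _ _ _ k
  · rw [h, h1]
    exact .refl _
  · exact h3 _ _ _ hs

namespace Pre

variable (P : Pre G)

lemma nZ_one (t : G.T) : ¬ P.Z (t, 1) := fun h =>
  (P.Z_red _ h).elim fun j e => sh_ne_one false j e.symm
lemma nZ_zero (t : G.T) : ¬ P.Z (t, 0) := fun h =>
  (P.Z_red _ h).elim fun j e => sh_ne_zero false j e.symm
lemma nZ_blue (t : G.T) (k : Bool) : ¬ P.Z (t, sh true k) := fun h =>
  (P.Z_red _ h).elim fun j e => sh_ne_not false k j e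

theorem tc_own (t : G.T) (c k : Bool) (h : ¬ P.Z (t, sh c k)) : P.tc (P.own (t, sh c k)) = c := by
  obtain ⟨col, h1, -, h3, h4⟩ := P.toCol.exists_col
  rw [← h3, ← h1 _ _ (P.conn _ h), h4]

theorem tc_own_zero (t : G.T) : P.tc (P.own (t, 0)) = P.bc t := by
  obtain ⟨col, h1, h2, h3, -⟩ := P.toCol.exists_col
  rw [← h3, ← h1 _ _ (P.conn _ (P.nZ_zero t)), h2]

lemma orb {c : Bool} {x : G.T × Bool} (h : ¬ P.Z (sl c x)) : P.toCol.Orb c x :=
  P.toCol.orb (P.conn _ h) (.inr rfl)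

lemma nZ_T (f : G.T × Bool) : ¬ P.Z (G.lo f 0) := lo_T f ▸ P.nZ_one _

end Pre

/-- The two fans of every live edge: `rt s` is the first face of the fan that contains the edge
`s` of angle 0, and `lst g` is the last face of the fan that starts with the face `g`. -/
structure Fan (P : Pre G) where
  lst : G.T × Bool ≃ G.T × Bool
  rt : G.T × Fin 6 → G.T × Bool
  rt_T : ∀ f, rt (G.up f 0) = f
  rt_O : ∀ f, ¬ P.Z (G.lo f (iO (P.tc f.1))) →
    rt (G.up f (iO (P.tc f.1))) = rt (G.lo f (iO (P.tc f.1)))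
  rt_W : ∀ f, lst (rt (G.lo f (iW (P.tc f.1)))) = f
  rt_own : ∀ t c k, ¬ P.Z (t, sh c k) → (rt (t, sh c k)).1 = P.own (t, sh c k)
  tc_lst : ∀ g, P.tc (lst g).1 = P.tc g.1
  ind : ∀ Q : G.T × Fin 6 → Prop, (∀ f, Q (G.up f 0)) →
    (∀ f, ¬ P.Z (G.lo f (iO (P.tc f.1))) → Q (G.lo f (iO (P.tc f.1))) →
      Q (G.up f (iO (P.tc f.1)))) → ∀ t c k, ¬ P.Z (t, sh c k) → Q (t, sh c k)

theorem exists_fan (P : Pre G) : Nonempty (Fan P) := by
  choose r r1 r2 r3 r4 using fun c => exists_prev (turn_injective G c) fun y => P.tc y.1 = c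
  obtain ⟨rt, -, -, hrt⟩ := exists_sl (fun t => (t, false)) (fun t => (t, false)) r
  have n : ∀ f : G.T × Bool, P.tc f.1 ≠ !P.tc f.1 := fun f => by simp
  have bij : Function.Bijective fun h : G.T × Bool => r (P.tc h.1) h :=
    Finite.injective_iff_bijective.1 fun x y (e : r _ x = r _ y) => by
      have k : P.tc y.1 = P.tc x.1 := by rw [← r3 _ x rfl, e, r3 _ y rfl]
      exact r4 _ x y rfl k (by rw [e, k])
  have T : ∀ f, rt (G.up f 0) = f := fun f => by rw [(P.base rfl).1, hrt, r1 _ f rfl]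
  have O : ∀ f, ¬ P.Z (G.lo f (iO (P.tc f.1))) →
      rt (G.up f (iO (P.tc f.1))) = rt (G.lo f (iO (P.tc f.1))) := fun f h => by
    rw [(P.step (n f)).1] at h ⊢
    rw [(P.step (n f)).2, hrt, hrt, r2 _ f (n f) (P.orb h)]
  have ind : ∀ Q : G.T × Fin 6 → Prop, (∀ f, Q (G.up f 0)) →
      (∀ f, ¬ P.Z (G.lo f (iO (P.tc f.1))) → Q (G.lo f (iO (P.tc f.1))) →
        Q (G.up f (iO (P.tc f.1)))) → ∀ t c k, ¬ P.Z (t, sh c k) → Q (t, sh c k) := by
    intro Q h0 h1 t c k h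
    rw [sl_eq] at h ⊢
    refine (orb_ind (turn_injective G c) (p := fun y => P.tc y.1 = c)
      (Q := fun x => ¬ P.Z (sl c x) ∧ Q (sl c x)) (fun f j => ?_) (fun f j i => ?_) (P.orb h)).2
    · rw [← (P.base j).1]
      exact ⟨mt (P.Z_glue f 0).2 (P.nZ_T f), h0 f⟩
    · rw [← (P.step j).1] at i
      rw [← (P.step j).2]
      exact ⟨mt (P.Z_glue f _).2 i.1, h1 f i.1 i.2⟩
  refine ⟨⟨(Equiv.ofBijective _ bij).symm, rt, T, O, fun f => ?_,
    ind (fun s => (rt s).1 = P.own s) (fun f => ?_) fun f h k => ?_, fun g => ?_, ind⟩⟩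
  · rw [(P.base rfl).2.1, hrt]
    exact (Equiv.ofBijective _ bij).symm_apply_apply f
  · rw [T, ← P.own_glue f 0 (P.nZ_T f), lo_T, P.own_top]
  · rw [O f h, k, P.own_glue f _ h]
  · obtain ⟨h, rfl⟩ := (Equiv.ofBijective _ bij).surjective g
    rw [Equiv.symm_apply_apply]
    exact (r3 _ h rfl).symm

theorem pre_of_veering (h : G.IsVeering) : ∃ P : Pre G, ∀ s, ¬ P.Z s := by
  obtain ⟨col, h1, h2⟩ := exists_col h
  have key : ∀ f, ∃ c, G.rot f = rho c ∧ col (f.1, 1) = c ∧ col ((G.glue f).1, 0) = c := fun f => by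
    obtain ⟨c, hc⟩ : ∃ c, G.rot f = rho c :=
      (em _).elim (fun k => ⟨true, k⟩) fun k => ⟨_, rot_cases h true f k⟩
    exact ⟨c, hc, by rw [← lo_T, h1, up_T hc, h2], by rw [← up_W hc, ← h1, lo_W, h2]⟩
  let C : Col G := ⟨fun t => col (t, 1), fun t => col (t, 0),
    fun f => (key f).elim fun c k => k.2.1 ▸ k.1, fun f => (key f).elim fun c k => k.2.1 ▸ k.2.2⟩
  have H : ∀ c x, C.Orb c x := fun c x => by
    obtain ⟨b, hb⟩ := Set.nonempty_of_ncard_ne_zero (by rw [h.angle (sl c x)]; decide)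
    exact C.orb hb.1 hb.2
  choose own ho using fun s => (C.ends H s).1
  have uq : ∀ s t, G.SameEdge s (t, 1) → own s = t := fun s t k => by
    obtain ⟨b, hb⟩ := (C.ends H s).2
    by_contra n
    have := (Set.two_lt_ncard (s := {b | G.SameEdge s b ∧ (b.2 = 0 ∨ b.2 = 1)})).2
      ⟨_, ⟨ho s, .inr rfl⟩, _, ⟨k, .inr rfl⟩, _, ⟨hb, .inl rfl⟩, by simpa, by simp, by simp⟩
    rw [h.angle] at this
    exact lt_irrefl _ this
  exact ⟨⟨C, fun _ => False, fun _ _ => Iff.rfl, fun _ => False.elim, own,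
    fun t => uq _ t (.refl _), fun f i _ => uq _ _ ((same_glue f i).trans _ _ _ (ho _)),
    fun s _ => ho s, h.connected⟩, fun _ => id⟩

theorem veering_of_pre (P : Pre G) (hZ : ∀ s, ¬ P.Z s) (hn : Nonempty G.T) : G.IsVeering := by
  obtain ⟨col, h1, -, -, h4⟩ := P.toCol.exists_col
  refine ⟨hn, P.link, fun a => ?_, col, h1,
    fun t => ⟨h4 t false false, h4 t true true, h4 t false true, h4 t true false⟩⟩
  have so : ∀ a b, G.SameEdge a b → P.own a = P.own b := fun a b =>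
    eq_of_same fun f i => P.own_glue f i (hZ _)
  have en := fun s => (P.toCol.ends (fun c x => P.orb (hZ _)) s).2
  have inj : Function.Injective fun t => P.own (t, 0) :=
    Finite.injective_iff_surjective.2 fun t => (en (t, 1)).imp fun b k =>
      (so _ _ k).symm.trans (P.own_top t)
  obtain ⟨b, hb⟩ := en a
  rw [← Set.ncard_pair (a := (P.own a, (1 : Fin 6))) (b := (b, 0)) (by simp)]
  congr 1
  ext ⟨t, j⟩
  refine ⟨?_, ?_⟩
  · rintro ⟨k, rfl | rfl⟩
    · exact .inr (Prod.ext (inj ((so _ _ k).symm.trans (so _ _ hb))) rfl)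
    · exact .inl (Prod.ext ((so _ _ k).trans (P.own_top t)).symm rfl)
  · rintro (k | k) <;> rw [k]
    exacts [⟨P.conn a (hZ a), .inr rfl⟩, ⟨hb, .inl rfl⟩]

/-- `p` is a primitive of `c` around the live edges -/
def CocZ (Z : G.T × Fin 6 → Prop) {A : Type} [AddCommGroup A] (c : G.T × Bool → A)
    (p : G.T × Fin 6 → A) : Prop :=
  ∀ f i, ¬ Z (G.lo f i) → p (G.up f i) = p (G.lo f i) + c f

variable {b : ℕ}

/-- `IsFreeAb` with the dead edges ignored -/
structure FreeZ (Z : G.T × Fin 6 → Prop) (φ : G.T × Bool → (Fin b → ℤ)) : Prop where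
  coc : ∃ p, CocZ Z φ p
  surj : ∀ (c : G.T × Bool → ℤ) (p : G.T × Fin 6 → ℤ), CocZ Z c p →
    ∃ ψ : (Fin b → ℤ) →+ ℤ, IsCoboundary fun f => c f - ψ (φ f)
  inj : ∀ ψ : (Fin b → ℤ) →+ ℤ, (IsCoboundary fun f => ψ (φ f)) → ψ = 0

theorem freeZ_iff {Z : G.T × Fin 6 → Prop} (hZ : ∀ s, ¬ Z s) {φ : G.T × Bool → (Fin b → ℤ)} :
    FreeZ Z φ ↔ IsFreeAb φ := by
  rw [freeAb_iff]
  exact ⟨fun h => ⟨h.coc.imp fun _ hp f i => hp f i (hZ _),
      fun c ⟨p, hp⟩ => h.surj c p fun f i _ => hp f i, h.inj⟩,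
    fun h => ⟨h.1.imp fun _ hp f i _ => hp f i,
      fun c p hp => h.2.1 c ⟨p, fun f i => hp f i (hZ _)⟩, h.2.2⟩⟩

/-- the relations of the taut module, with the dead edges killed -/
structure Sol (Z : G.T × Fin 6 → Prop) (φ : G.T × Bool → (Fin b → ℤ)) {N : Type} [AddCommGroup N]
    [Module (GR b) N] (v : G.T × Fin 6 → N) : Prop where
  glue : ∀ f i, v (G.lo f i) = ee (φ f) • v (G.up f i)
  bot : ∀ t k, v (t, 0) = v (t, sh true k) + v (t, sh false k)
  zero : ∀ s, Z s → v s = 0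

/-- the universal solution -/
structure Pres (Z : G.T × Fin 6 → Prop) (φ : G.T × Bool → (Fin b → ℤ)) {M : Type} [AddCommGroup M]
    [Module (GR b) M] (v : G.T × Fin 6 → M) : Prop where
  sol : Sol Z φ v
  span : ∀ N : Submodule (GR b) M, (∀ s, v s ∈ N) → N = ⊤
  lift : ∀ (N : Type) [AddCommGroup N] [Module (GR b) N] (w : G.T × Fin 6 → N), Sol Z φ w →
    ∃ L : M →ₗ[GR b] N, ∀ s, L (v s) = w s

section modules

variable {Z : G.T × Fin 6 → Prop} {Z' : G'.T × Fin 6 → Prop} {φ : G.T × Bool → (Fin b → ℤ)}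
  {φ' : G'.T × Bool → (Fin b → ℤ)} {M M' : Type} [AddCommGroup M] [Module (GR b) M]
  [AddCommGroup M'] [Module (GR b) M'] {v : G.T × Fin 6 → M}

theorem Sol.top (h : Sol Z φ v) {c : Bool} {f : G.T × Bool} (hr : G.rot f = rho c) :
    v (f.1, sh c (xor f.2 c)) = v (f.1, 1) + v (f.1, sh (!c) (xor f.2 (!c))) := by
  rw [← lo_W, ← lo_T, ← lo_O, h.glue, h.glue, h.glue, up_W hr, up_T hr, up_O hr, ← smul_add,
    h.bot _ (G.glue f).2]
  cases c
  · rw [add_comm]; rfl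
  · rfl

/-- the normalised generators are constant along live edges -/
theorem Sol.same (h : Sol Z φ v) {Y : G.T × Fin 6 → Prop}
    (hY : ∀ f i, Y (G.lo f i) ↔ Y (G.up f i)) {p : G.T × Fin 6 → (Fin b → ℤ)} (hp : CocZ Y φ p)
    {s s' : G.T × Fin 6} (e : G.SameEdge s s') (hs : ¬ Y s) :
    v s = ee (p s' - p s) • v s' := by
  have := (eq_of_sameZ hY (w := fun s => ee (p s) • v s) (fun f i hf => by
    rw [h.glue, ee_smul, hp f i hf]) e hs).1
  rw [sub_eq_neg_add, ← ee_smul, ← this, ee_smul, neg_add_cancel, ee_zero, one_smul]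

theorem pres_taut (hZ : ∀ s, ¬ Z s) : Pres Z φ (gen φ) :=
  ⟨⟨gen_glue φ, fun t k => gen_bot φ t true k, fun s h => absurd h (hZ s)⟩,
    fun _ h => span_gen φ h, fun _ _ _ w h => exists_lift φ true w h.glue h.bot⟩

theorem Pres.fitting_le (h : Pres Z φ v) {v' : G.T × Fin 6 → M'} (h' : Pres Z φ v') :
    fitting (GR b) M ≤ fitting (GR b) M' :=
  (h.lift M' v' h'.sol).elim fun L hL => fitting_mono L (h'.span _ fun s => ⟨_, hL s⟩)

theorem Pres.transfer (h : Pres Z φ v) (o : G.T × Fin 6 → G'.T × Fin 6)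
    (π : G'.T × Fin 6 → G.T × Fin 6) (κ : G'.T × Fin 6 → GR b)
    (h0 : ∀ s, κ (o s) • v (π (o s)) = v s) (h1 : Sol Z' φ' fun s => κ s • v (π s))
    (h2 : ∀ (N : Type) [AddCommGroup N] [Module (GR b) N] (w : G'.T × Fin 6 → N), Sol Z' φ' w →
      Sol Z φ (fun s => w (o s)) ∧ ∀ s, w s = κ s • w (o (π s))) :
    Pres Z' φ' fun s => κ s • v (π s) := by
  refine ⟨h1, fun N hN => h.span N fun s => h0 s ▸ hN (o s), fun N _ _ w hw => ?_⟩
  obtain ⟨L, hL⟩ := h.lift N _ (h2 N w hw).1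
  exact ⟨L, fun s => by rw [map_smul, hL, ← (h2 N w hw).2]⟩

end modules

end Pool.Agent.Lib.MP_75051e_gt
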