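import Pool.Agent.Lib.MP_75051e_gt.PWdH

/-!
A gadget is a block of tetrahedra that replaces the tetrahedron `Y` of a cut.
-/

set_option autoImplicit false

namespace Pool.Agent.Lib.MP_75051e_gt

open Finset Gluing

/-- A block with the two bottom faces of `lo` and the two top faces of `hi` as its boundary
(`Γ` is the block closed up).  `ow s` is the owner of an edge, or an edge of `lo` that comes from
the outside. -/
structure Gad where
  Γ : Gluing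
  C : Col Γ
  lo : Γ.T
  hi : Γ.T
  ne : lo ≠ hi
  glue_hi : ∀ k, Γ.glue (hi, k) = (lo, k)
  tc_hi : C.tc hi = true
  ow : Γ.T × Fin 6 → Γ.T ⊕ Fin 6
  ow_top : ∀ γ, ow (γ, 1) = .inl γ
  ow_glue : ∀ f i, f.1 ≠ hi → ow (Γ.lo f i) = ow (Γ.up f i)
  ow_zero : ow (lo, 0) = .inr 0
  ow_blue : ∀ k, ow (lo, sh true k) = .inr (sh true k) ∧ ow (hi, sh true k) = .inr (sh true k)
  r : Bool → Γ.T
  r_ne : ∀ k, r k ≠ hi
  ow_red : ∀ k, ow (lo, sh false k) = .inl (r k) ∧ ow (hi, sh false k) = .inl (r k)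
  conn : ∀ (A : Type) (w : Γ.T × Fin 6 → A),
    (∀ f i, f.1 ≠ hi → w (Γ.lo f i) = w (Γ.up f i)) →
    ∀ s, w s = w (Sum.elim (fun γ => (γ, 1)) (fun j => (lo, j)) (ow s))
  link : ∀ (A : Type) (q : Γ.T → A), (∀ f, f.1 ≠ hi → q (Γ.glue f).1 = q f.1) → ∀ γ, q γ = q lo
  l : Bool → Γ.T × Bool → ℤ
  p : Bool → Γ.T × Fin 6 → ℤ
  p_glue : ∀ j f i, f.1 ≠ hi → p j (Γ.up f i) = p j (Γ.lo f i) + l j f
  p_zero : ∀ j, p j (lo, 0) = 0
  p_one : ∀ j, p j (hi, 1) = 0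
  p_blue : ∀ j k, p j (lo, sh true k) = 0 ∧ p j (hi, sh true k) = 0
  p_red : ∀ j k, p j (lo, sh false k) = (if j = k then 1 else 0) ∧ p j (hi, sh false k) = 0
  h1 : ∀ (c : Γ.T × Bool → ℤ) (u : Γ.T × Fin 6 → ℤ),
    (∀ f i, f.1 ≠ hi → u (Γ.up f i) = u (Γ.lo f i) + c f) →
    ∃ (α : Bool → ℤ) (q : Γ.T → ℤ), ∀ f, f.1 ≠ hi →
      c f = α false * l false f + α true * l true f + (q (Γ.glue f).1 - q f.1)
  mod : ∀ (R : Type) [CommRing R] (m : ℤ → ℤ → R), m 0 0 = 1 →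
    (∀ a b a' b', m (a + a') (b + b') = m a b * m a' b') → ∃ w : Γ.T × Fin 6 → R,
    (∀ f i, f.1 ≠ hi → w (Γ.lo f i) = m (l false f) (l true f) * w (Γ.up f i)) ∧
    (∀ γ k, w (γ, 0) = w (γ, sh true k) + w (γ, sh false k)) ∧ w (lo, 0) = 1 ∧ w (hi, 1) = 1 ∧
    (∀ k, w (lo, sh true k) = 1 ∧ w (hi, sh true k) = 1 ∧
      w (lo, sh false k) = 0 ∧ w (hi, sh false k) = 0) ∧
    ∀ (N : Type) [AddCommGroup N] [Module R N] (u : Γ.T × Fin 6 → N),
      (∀ f i, f.1 ≠ hi → u (Γ.lo f i) = m (l false f) (l true f) • u (Γ.up f i)) →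
      (∀ γ k, u (γ, 0) = u (γ, sh true k) + u (γ, sh false k)) →
      (∀ k, u (hi, sh true (!k)) = u (hi, 1) + u (hi, sh false k)) →
      ∀ s, u s = w s • u (lo, 0)

namespace Cut

variable {B : Gluing} {P : Pre B} (K : Cut P) (Λ : Gad)

/-- the tetrahedra after the insertion -/
abbrev IT : Type := {t : B.T // t ≠ K.Y} ⊕ Λ.Γ.T

/-- the old tetrahedra, `Y` being sent to `γ` -/
def em (γ : Λ.Γ.T) (t : B.T) : K.IT Λ := if h : t = K.Y then .inr γ else .inl ⟨t, h⟩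

/-- an old face or edge seen from above (bottom faces) -/
def eL {α : Type} (s : B.T × α) : K.IT Λ × α := (K.em Λ Λ.lo s.1, s.2)
/-- an old face or edge seen from below (top faces) -/
def eH {α : Type} (s : B.T × α) : K.IT Λ × α := (K.em Λ Λ.hi s.1, s.2)
/-- a face or edge of the block -/
def eG {α : Type} (s : Λ.Γ.T × α) : K.IT Λ × α := (.inr s.1, s.2)

/-- functions on the faces: `u` on the old faces, `u'` on the faces inside the block -/
def onF {A : Type} (u : B.T × Bool → A) (u' : Λ.Γ.T × Bool → A) : K.IT Λ × Bool → A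
  | (.inl t, k) => u (t.1, k)
  | (.inr γ, k) => if γ = Λ.hi then u (K.Y, k) else u' (γ, k)

lemma em_Y (γ : Λ.Γ.T) : K.em Λ γ K.Y = .inr γ := dif_pos rfl
lemma em_ne (γ : Λ.Γ.T) {t : B.T} (h : t ≠ K.Y) : K.em Λ γ t = .inl ⟨t, h⟩ := dif_neg h

lemma onF_H {A : Type} (u : B.T × Bool → A) (u' : Λ.Γ.T × Bool → A) (f : B.T × Bool) :
    K.onF Λ u u' (K.eH Λ f) = u f := by
  obtain ⟨t, k⟩ := f
  by_cases h : t = K.Y
  · subst h; simp [eH, em_Y, onF]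
  · simp [eH, K.em_ne Λ _ h, onF]

lemma onF_G {A : Type} (u : B.T × Bool → A) (u' : Λ.Γ.T × Bool → A) {f : Λ.Γ.T × Bool}
    (h : f.1 ≠ Λ.hi) : K.onF Λ u u' (K.eG Λ f) = u' f := if_neg h

lemma face_cases {Q : K.IT Λ × Bool → Prop} (h1 : ∀ f, Q (K.eH Λ f))
    (h2 : ∀ f : Λ.Γ.T × Bool, f.1 ≠ Λ.hi → Q (K.eG Λ f)) : ∀ f, Q f := by
  rintro ⟨t | γ, k⟩
  · simpa [eH, K.em_ne Λ _ t.2] using h1 (t.1, k)
  · by_cases h : γ = Λ.hi
    · simpa [eH, em_Y, h] using h1 (K.Y, k)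
    · exact h2 (γ, k) h

/-- the gluing map after the insertion -/
def gl : K.IT Λ × Bool → K.IT Λ × Bool :=
  K.onF Λ (fun f => K.eL Λ (B.glue f)) fun f => K.eG Λ (Λ.Γ.glue f)

lemma em_inr {γ γ' : Λ.Γ.T} {t : B.T} (h : K.em Λ γ t = .inr γ') : γ = γ' := by
  by_cases e : t = K.Y
  · rw [e, em_Y] at h
    exact Sum.inr.inj h
  · rw [K.em_ne Λ _ e] at h
    exact absurd h Sum.inl_ne_inr

lemma em_inj (γ : Λ.Γ.T) : Function.Injective (K.em Λ γ) := fun t t' h => by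
  by_cases e : t = K.Y <;> by_cases e' : t' = K.Y
  · rw [e, e']
  · rw [e, em_Y, K.em_ne Λ _ e'] at h
    exact absurd h Sum.inr_ne_inl
  · rw [e', em_Y, K.em_ne Λ _ e] at h
    exact absurd h Sum.inl_ne_inr
  · rw [K.em_ne Λ _ e, K.em_ne Λ _ e'] at h
    exact congrArg Subtype.val (Sum.inl.inj h)

theorem gl_inj : Function.Injective (K.gl Λ) := by
  have gH : ∀ f, K.gl Λ (K.eH Λ f) = K.eL Λ (B.glue f) := fun f => K.onF_H Λ _ _ f
  have gG : ∀ f : Λ.Γ.T × Bool, f.1 ≠ Λ.hi → K.gl Λ (K.eG Λ f) = K.eG Λ (Λ.Γ.glue f) :=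
    fun f h => K.onF_G Λ _ _ h
  have x : ∀ f, ∀ g : Λ.Γ.T × Bool, g.1 ≠ Λ.hi → K.eL Λ (B.glue f) ≠ K.eG Λ (Λ.Γ.glue g) :=
    fun f g h e => h (by
      have e1 := K.em_inr Λ (congrArg Prod.fst e)
      have e2 : Λ.Γ.glue g = Λ.Γ.glue (Λ.hi, (Λ.Γ.glue g).2) := by
        rw [Λ.glue_hi, e1]
      exact congrArg Prod.fst (Λ.Γ.glue.injective e2))
  refine K.face_cases Λ (Q := fun a => ∀ b, K.gl Λ a = K.gl Λ b → a = b)
    (fun f => K.face_cases Λ (fun g e => ?_) fun g h e => ?_)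
    fun f h => K.face_cases Λ (fun g e => ?_) fun g h' e => ?_
  · rw [gH, gH] at e
    rw [B.glue.injective (Prod.ext (K.em_inj Λ _ (Prod.ext_iff.1 e).1) (Prod.ext_iff.1 e).2)]
  · rw [gH, gG g h] at e
    exact absurd e (x f g h)
  · rw [gH, gG f h] at e
    exact absurd e.symm (x g f h)
  · rw [gG f h, gG g h'] at e
    rw [Λ.Γ.glue.injective (Prod.ext (Sum.inr.inj (Prod.ext_iff.1 e).1) (Prod.ext_iff.1 e).2)]

/-- the gluing after the insertion -/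
noncomputable def W : Gluing where
  T := K.IT Λ
  glue := Equiv.ofBijective (K.gl Λ) (Finite.injective_iff_bijective.1 (K.gl_inj Λ))
  rot := K.onF Λ B.rot Λ.Γ.rot

lemma glue_H (f : B.T × Bool) : (K.W Λ).glue (K.eH Λ f) = K.eL Λ (B.glue f) :=
  K.onF_H Λ (fun f => K.eL Λ (B.glue f)) (fun f => K.eG Λ (Λ.Γ.glue f)) f
lemma glue_G {f : Λ.Γ.T × Bool} (h : f.1 ≠ Λ.hi) :
    (K.W Λ).glue (K.eG Λ f) = K.eG Λ (Λ.Γ.glue f) :=
  K.onF_G Λ (fun f => K.eL Λ (B.glue f)) (fun f => K.eG Λ (Λ.Γ.glue f)) h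
lemma lo_H (f : B.T × Bool) (i : Fin 3) : (K.W Λ).lo (K.eH Λ f) i = K.eH Λ (B.lo f i) := rfl
lemma lo_G (f : Λ.Γ.T × Bool) (i : Fin 3) : (K.W Λ).lo (K.eG Λ f) i = K.eG Λ (Λ.Γ.lo f i) := rfl
lemma up_H (f : B.T × Bool) (i : Fin 3) : (K.W Λ).up (K.eH Λ f) i = K.eL Λ (B.up f i) := by
  rw [up, glue_H, show (K.W Λ).rot (K.eH Λ f) = B.rot f from K.onF_H Λ _ _ f]; rfl
lemma up_G {f : Λ.Γ.T × Bool} (h : f.1 ≠ Λ.hi) (i : Fin 3) :
    (K.W Λ).up (K.eG Λ f) i = K.eG Λ (Λ.Γ.up f i) := by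
  rw [up, K.glue_G Λ h, show (K.W Λ).rot (K.eG Λ f) = Λ.Γ.rot f from K.onF_G Λ _ _ h]; rfl

/-- the identifications of edges after the insertion -/
lemma flag_cases {Q : K.IT Λ × Bool → K.IT Λ × Fin 6 → K.IT Λ × Fin 6 → Prop}
    (h1 : ∀ f i, Q (K.eH Λ f) (K.eH Λ (B.lo f i)) (K.eL Λ (B.up f i)))
    (h2 : ∀ (f : Λ.Γ.T × Bool) i, f.1 ≠ Λ.hi →
      Q (K.eG Λ f) (K.eG Λ (Λ.Γ.lo f i)) (K.eG Λ (Λ.Γ.up f i))) (f : K.IT Λ × Bool) (i : Fin 3) :
    Q f ((K.W Λ).lo f i) ((K.W Λ).up f i) :=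
  K.face_cases Λ (Q := fun f => Q f ((K.W Λ).lo f i) ((K.W Λ).up f i))
    (fun f => by rw [lo_H, up_H]; exact h1 f i) (fun f h => by
      rw [lo_G, K.up_G Λ h]; exact h2 f i h) f

theorem card_lt : Fintype.card B.T < Fintype.card (K.W Λ).T :=
  Fintype.card_lt_of_injective_of_notMem (β := (K.W Λ).T) (K.em Λ Λ.lo) (K.em_inj Λ _)
    (b := .inr Λ.hi) fun ⟨_, h⟩ => Λ.ne (K.em_inr Λ h)

open Classical in
/-- the owners of the edges after the insertion -/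
noncomputable def own : K.IT Λ × Fin 6 → K.IT Λ
  | (.inl t, s) => if P.Z (t.1, s) then .inr (Λ.r (K.lab (t.1, s)))
      else K.em Λ Λ.hi (P.own (t.1, s))
  | (.inr γ, s) => Sum.elim .inr (fun j => K.em Λ Λ.hi (P.own (K.Y, j))) (Λ.ow (γ, s))

open Classical in
/-- the new owner of an old edge -/
noncomputable def ownB (s : B.T × Fin 6) : K.IT Λ :=
  if P.Z s then .inr (Λ.r (K.lab s)) else K.em Λ Λ.hi (P.own s)

lemma ownB_glue (f : B.T × Bool) (i : Fin 3) : K.ownB Λ (B.lo f i) = K.ownB Λ (B.up f i) := by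
  by_cases h : P.Z (B.lo f i)
  · rw [ownB, ownB, if_pos h, if_pos ((P.Z_glue f i).1 h), K.lab_glue f i h]
  · rw [ownB, ownB, if_neg h, if_neg (mt (P.Z_glue f i).2 h), P.own_glue f i h]

lemma own_G (s : Λ.Γ.T × Fin 6) : K.own Λ (K.eG Λ s) =
    Sum.elim .inr (fun j => K.em Λ Λ.hi (P.own (K.Y, j))) (Λ.ow s) := rfl

lemma slot_cases' (j : Fin 6) : j = 0 ∨ j = 1 ∨ ∃ c k, j = sh c k := by
  revert j
  decide

lemma own_sh {γ : Λ.Γ.T} (c k : Bool) (h : Λ.ow (γ, sh c k) = Λ.ow (Λ.lo, sh c k)) :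
    K.own Λ (K.eG Λ (γ, sh c k)) = K.ownB Λ (K.Y, sh c k) := by
  rw [own_G, h, ownB]
  cases c
  · rw [(Λ.ow_red k).1, if_pos (K.Z_Y k), K.lab_Y]
    rfl
  · rw [(Λ.ow_blue k).1, if_neg (P.nZ_blue _ k)]
    rfl

omit K in
lemma ow_hi (c k : Bool) : Λ.ow (Λ.hi, sh c k) = Λ.ow (Λ.lo, sh c k) := by
  cases c
  · rw [(Λ.ow_red k).1, (Λ.ow_red k).2]
  · rw [(Λ.ow_blue k).1, (Λ.ow_blue k).2]

lemma own_H {s : B.T × Fin 6} (h : s.2 ≠ 0) : K.own Λ (K.eH Λ s) = K.ownB Λ s := by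
  obtain ⟨t, j⟩ := s
  by_cases e : t = K.Y
  · subst e
    rw [eH, em_Y]
    rcases slot_cases' j with rfl | rfl | ⟨c, k, rfl⟩
    · exact absurd rfl h
    · rw [ownB, if_neg (P.nZ_one _), P.own_top, em_Y]
      exact (K.own_G Λ (Λ.hi, 1)).trans (by rw [Λ.ow_top]; rfl)
    · exact K.own_sh Λ c k (ow_hi Λ c k)
  · rw [eH, K.em_ne Λ _ e]
    rfl

lemma own_L {s : B.T × Fin 6} (h : s.2 ≠ 1) : K.own Λ (K.eL Λ s) = K.ownB Λ s := by
  obtain ⟨t, j⟩ := s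
  by_cases e : t = K.Y
  · subst e
    rw [eL, em_Y]
    rcases slot_cases' j with rfl | rfl | ⟨c, k, rfl⟩
    · rw [ownB, if_neg (P.nZ_zero _)]
      exact (K.own_G Λ (Λ.lo, 0)).trans (by rw [Λ.ow_zero]; rfl)
    · exact absurd rfl h
    · exact K.own_sh Λ c k rfl
  · rw [eL, K.em_ne Λ _ e]
    rfl

lemma lo_ne (f : B.T × Bool) (i : Fin 3) : (B.lo f i).2 ≠ 0 :=
  (by decide : ∀ k i, topE k i ≠ 0) _ _

lemma up_ne (f : B.T × Bool) (i : Fin 3) : (B.up f i).2 ≠ 1 :=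
  (by decide : ∀ k i, botE k i ≠ 1) _ _

lemma cl_G (s : Λ.Γ.T × Fin 6) : cl (K.W Λ) (K.eG Λ s) =
    cl (K.W Λ) (K.eG Λ (Sum.elim (fun γ => (γ, 1)) (fun j => (Λ.lo, j)) (Λ.ow s))) :=
  Λ.conn _ (fun s => cl (K.W Λ) (K.eG Λ s))
    (fun f i h => by rw [← lo_G, ← K.up_G Λ h, cl_glue]) s

/-- an old edge in the new gluing -/
def eE (s : B.T × Fin 6) : K.IT Λ × Fin 6 := if s.2 = 1 then K.eH Λ s else K.eL Λ s

lemma cl_H {s : B.T × Fin 6} (h : s.2 ≠ 0) : cl (K.W Λ) (K.eH Λ s) = cl (K.W Λ) (K.eE Λ s) := by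
  obtain ⟨t, j⟩ := s
  rw [eE]
  split_ifs with h1
  · rfl
  by_cases e : t = K.Y
  · subst e
    rw [eH, eL, em_Y, em_Y]
    rcases slot_cases' j with rfl | rfl | ⟨c, k, rfl⟩
    · exact absurd rfl h
    · exact absurd rfl h1
    · exact (K.cl_G Λ (Λ.hi, _)).trans (by rw [ow_hi]; exact (K.cl_G Λ (Λ.lo, _)).symm)
  · rw [eH, eL, K.em_ne Λ _ e, K.em_ne Λ _ e]

lemma cl_E {a b : B.T × Fin 6} (h : B.SameEdge a b) :
    cl (K.W Λ) (K.eE Λ a) = cl (K.W Λ) (K.eE Λ b) :=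
  eq_of_same (w := fun s => cl (K.W Λ) (K.eE Λ s)) (fun f i => by
    rw [← K.cl_H Λ (lo_ne f i), ← lo_H, cl_glue, up_H, eE, if_neg (up_ne f i)]) h

lemma cl_ownB (s : B.T × Fin 6) : cl (K.W Λ) (K.eE Λ s) = cl (K.W Λ) (K.ownB Λ s, 1) := by
  by_cases h : P.Z s
  · rw [K.cl_E Λ (K.same s h), ownB, if_pos h, eE, if_neg (sh_ne_one _ _), eL, em_Y]
    exact (K.cl_G Λ (Λ.lo, _)).trans (by rw [(Λ.ow_red _).1]; rfl)
  · rw [K.cl_E Λ (P.conn s h), ownB, if_neg h, eE, if_pos rfl]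
    rfl

lemma cl_own (s : K.IT Λ × Fin 6) : cl (K.W Λ) s = cl (K.W Λ) (K.own Λ s, 1) := by
  obtain ⟨t | γ, j⟩ := s
  · refine Eq.trans ?_ (K.cl_ownB Λ (t.1, j))
    rw [eE, eH, eL, K.em_ne Λ _ t.2, K.em_ne Λ _ t.2, ite_self]
  · have h1 := K.cl_G Λ (γ, j)
    have h2 := Λ.conn _ Λ.ow Λ.ow_glue (γ, j)
    have h3 := K.own_G Λ (γ, j)
    rcases e : Λ.ow (γ, j) with δ | i <;> rw [e] at h1 h2 h3
    · exact h1.trans (congrArg (fun x => cl (K.W Λ) (x, 1)) h3.symm)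
    · have h4 : i ≠ 1 := fun e' => by
        rw [e', Sum.elim_inr, Λ.ow_top] at h2
        exact Sum.inr_ne_inl h2
      have h5 := K.cl_ownB Λ (K.Y, i)
      rw [← K.own_L Λ h4, eE, if_neg h4, eL, em_Y] at h5
      have h6 := K.own_G Λ (Λ.lo, i)
      rw [Sum.elim_inr] at h2
      rw [← h2, ← h3] at h6
      exact h1.trans (h5.trans (congrArg (fun x => cl (K.W Λ) (x, 1)) h6))

lemma link_W (t t' : (K.W Λ).T) :
    Relation.EqvGen (fun a b => ∃ k, b = ((K.W Λ).glue (a, k)).1) t t' := by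
  let q : K.IT Λ → Quot fun a b : (K.W Λ).T => ∃ k, b = ((K.W Λ).glue (a, k)).1 := Quot.mk _
  have q0 : ∀ f, q ((K.W Λ).glue f).1 = q f.1 := fun f => (Quot.sound ⟨f.2, rfl⟩).symm
  have q1 : ∀ γ, q (.inr γ) = q (.inr Λ.lo) := Λ.link _ (fun γ => q (.inr γ)) fun f h => by
    have := q0 (K.eG Λ f)
    rwa [K.glue_G Λ h] at this
  have q2 : ∀ γ u, q (K.em Λ γ u) = q (K.em Λ Λ.lo u) := fun γ u => by
    by_cases e : u = K.Y
    · rw [e, em_Y, em_Y, q1]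
    · rw [K.em_ne Λ _ e, K.em_ne Λ _ e]
  have q3 : ∀ u u', Relation.EqvGen (fun a b => ∃ k, b = (B.glue (a, k)).1) u u' →
      q (K.em Λ Λ.lo u) = q (K.em Λ Λ.lo u') := fun u u' h => by
    induction h with
    | rel a b r =>
      obtain ⟨k, rfl⟩ := r
      have := q0 (K.eH Λ (a, k))
      rw [glue_H] at this
      exact (this.trans (q2 _ a)).symm
    | refl => rfl
    | symm _ _ _ ih => exact ih.symm
    | trans _ _ _ _ _ ih ih' => exact ih.trans ih'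
  have q4 : ∀ x, q x = q (K.em Λ Λ.lo K.Y) := by
    rintro (u | γ)
    · rw [← q3 u.1 _ (P.link _ _), K.em_ne Λ _ u.2]
    · rw [em_Y, q1]
  exact Quot.eq.1 ((q4 t).trans (q4 t').symm)

/-- the colours after the insertion -/
noncomputable def colW : Col (K.W Λ) :=
  have tH : ∀ t, Sum.elim (fun t => P.tc t.1) Λ.C.tc (K.em Λ Λ.hi t) = P.tc t := fun t => by
    by_cases e : t = K.Y
    · rw [e, em_Y, K.tc_Y]
      exact Λ.tc_hi
    · rw [K.em_ne Λ _ e]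
      rfl
  have bL : ∀ t, Sum.elim (fun t => P.bc t.1) Λ.C.bc (K.em Λ Λ.lo t) = P.bc t := fun t => by
    by_cases e : t = K.Y
    · have := Λ.C.bc_glue (Λ.hi, false)
      rw [Λ.glue_hi, Λ.tc_hi] at this
      rw [e, em_Y, K.bc_Y]
      exact this
    · rw [K.em_ne Λ _ e]
      rfl
  { tc := Sum.elim (fun t => P.tc t.1) Λ.C.tc
    bc := Sum.elim (fun t => P.bc t.1) Λ.C.bc
    rot_eq := K.face_cases Λ
      (fun f => (K.onF_H Λ _ _ f).trans ((P.rot_eq f).trans (congrArg rho (tH f.1).symm)))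
      fun f h => (K.onF_G Λ _ _ h).trans (Λ.C.rot_eq f)
    bc_glue := K.face_cases Λ
      (fun f => by
        rw [glue_H]
        exact (bL _).trans ((P.bc_glue f).trans (tH f.1).symm))
      fun f h => by
        rw [K.glue_G Λ h]
        exact Λ.C.bc_glue f }

/-- the result of the insertion has no dead edge -/
theorem exists_pre : ∃ P' : Pre (K.W Λ), ∀ s, ¬ P'.Z s := by
  refine ⟨⟨K.colW Λ, fun _ => False, fun _ _ => Iff.rfl, fun _ => False.elim, K.own Λ, ?_,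
    fun f i _ => K.flag_cases Λ (Q := fun _ a b => K.own Λ a = K.own Λ b) (fun f i => ?_)
      (fun f i h => ?_) f i, fun s _ => cl_eq.1 (K.cl_own Λ s), K.link_W Λ⟩, fun _ => id⟩
  · rintro (t | γ)
    · exact (if_neg (P.nZ_one _)).trans (by rw [P.own_top, K.em_ne Λ _ t.2])
    · exact (K.own_G Λ (γ, 1)).trans (by rw [Λ.ow_top]; rfl)
  · rw [K.own_H Λ (lo_ne f i), K.own_L Λ (up_ne f i), ownB_glue]
  · rw [own_G, own_G, Λ.ow_glue f i h]

theorem veering_W : (K.W Λ).IsVeering :=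
  (K.exists_pre Λ).elim fun P' h => veering_of_pre P' h ⟨.inr Λ.lo⟩

/-- `u` is a primitive of `c` along the two dead edges cut open at `Y`, with holonomies `x` -/
def Hol {A : Type} [AddCommGroup A] (c : B.T × Bool → A) (u : B.T × Fin 6 → A) (x : Bool → A) :
    Prop :=
  (∀ j, u (K.Y, sh false j) = 0) ∧ ∀ f i, P.Z (B.lo f i) →
    u (B.up f i) + (if (B.up f i).1 = K.Y then x (B.glue f).2 else 0) = u (B.lo f i) + c f

lemma hol_dead {f : B.T × Bool} {i : Fin 3} (h : P.Z (B.lo f i)) :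
    B.lo f i = (f.1, sh false f.2) ∧ B.up f i = ((B.glue f).1, sh false (B.glue f).2) := by
  have hr := P.rot_eq f
  rcases tri (P.tc f.1) i with rfl | rfl | rfl
  · exact absurd h (P.nZ_T f)
  · exact absurd (up_W hr ▸ (P.Z_glue _ _).1 h) (P.nZ_zero _)
  · rw [lo_O] at h ⊢
    rw [up_O hr]
    revert h
    cases P.tc f.1
    · exact fun h => absurd h (P.nZ_blue _ _)
    · simp

lemma hol_lo (f : B.T × Bool) : B.lo f (iW false) = (f.1, sh false f.2) := by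
  rw [lo_W, Bool.xor_false]

lemma hol_hit {α A : Type} [AddCommGroup A] (e : α → α) (p : α → Prop) (g : α → A) :
    ∃ V : α → A, (∀ y, p y → V y = 0) ∧
      ∀ y, ¬ p y → (∃ n, p (e^[n] y)) → V y = g y + V (e y) := by
  classical
  refine ⟨fun y => if h : ∃ n, p (e^[n] y) then ∑ i ∈ range (Nat.find h), g (e^[i] y) else 0,
    fun y hy => ?_, fun y hy h => ?_⟩
  · have h : ∃ n, p (e^[n] y) := ⟨0, hy⟩
    simp only [dif_pos h]
    rw [(Nat.find_eq_zero h).2 hy, sum_range_zero]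
  · have h' : ∃ n, p (e^[n] (e y)) := by
      obtain ⟨_ | n, hn⟩ := h
      exacts [absurd hn hy, ⟨n, hn⟩]
    simp only [dif_pos h, dif_pos h']
    rw [Nat.find_comp_succ h h' hy, sum_range_succ', add_comm]
    rfl

lemma hol_orb {f : B.T × Bool} (h : P.Z (f.1, sh false f.2)) :
    ∃ n, (B.glue.symm^[n] f).1 = K.Y := by
  have e : ∀ g g' : B.T × Bool, (g.1, sh false g.2) = (g'.1, sh false g'.2) → g = g' :=
    fun g g' k => Prod.ext (Prod.ext_iff.1 k).1 (sh_inj false _ _ (Prod.ext_iff.1 k).2)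
  have k := (eq_of_sameZ (Z := fun s => ¬ P.Z s) (fun f i => not_congr (P.Z_glue f i))
    (w := fun s => ∀ g : B.T × Bool, s = (g.1, sh false g.2) → ∃ n, (B.glue.symm^[n] g).1 = K.Y)
    (fun f i hf => by
      obtain ⟨h1, h2⟩ := hol_dead (not_not.1 hf)
      have o := orb_step B.glue.symm.injective (p := fun g => g.1 = K.Y) (x := B.glue f)
      rw [Equiv.symm_apply_apply] at o
      rw [h1, h2]
      exact propext ⟨fun a g k => e _ _ k ▸ o.1 (a f rfl), fun a g k => e _ _ k ▸ o.2 (a _ rfl)⟩)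
    (K.same _ h) (not_not.2 h)).1
  exact k.mpr (fun g k => ⟨0, (Prod.ext_iff.1 k).1.symm⟩) f rfl

theorem exists_hol {A : Type} [AddCommGroup A] (c : B.T × Bool → A) : ∃ u x, K.Hol c u x := by
  obtain ⟨V, h1, h2⟩ := hol_hit B.glue.symm (fun g => g.1 = K.Y) fun g => c (B.glue.symm g)
  have e : ∀ k, decide (sh false k = 4) = k := by decide
  refine ⟨fun s => V (s.1, decide (s.2 = 4)),
    fun j => V (B.glue.symm (K.Y, j)) + c (B.glue.symm (K.Y, j)), fun j => h1 _ rfl,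
    fun f i hf => ?_⟩
  obtain ⟨k1, k2⟩ := hol_dead hf
  have k3 := K.hol_orb (f := B.glue f) (k2 ▸ (P.Z_glue f i).1 hf)
  rw [k1, k2]
  simp only [e, Prod.mk.eta]
  split_ifs with h
  · rw [h1 _ h, zero_add, ← h, Prod.mk.eta, Equiv.symm_apply_apply]
  · rw [h2 _ h k3, Equiv.symm_apply_apply, add_zero, add_comm]

theorem Hol.eq_zero {K : Cut P} {A : Type} [AddCommGroup A] {u : B.T × Fin 6 → A} {x : Bool → A}
    (h : K.Hol 0 u x) (j : Bool) : x j = 0 := by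
  classical
  let S : Finset (B.T × Bool) :=
    univ.filter fun f => P.Z (f.1, sh false f.2) ∧ K.lab (f.1, sh false f.2) = j
  have mem : ∀ f, f ∈ S ↔ P.Z (f.1, sh false f.2) ∧ K.lab (f.1, sh false f.2) = j := fun f => by
    simp [S]
  have mp : ∀ f ∈ S, B.glue f ∈ S := fun f hf => by
    rw [mem, ← hol_lo] at hf
    rw [mem, ← (hol_dead hf.1).2]
    exact ⟨(P.Z_glue _ _).1 hf.1, (K.lab_glue _ _ hf.1).symm.trans hf.2⟩
  have e : ∑ f ∈ S, u (f.1, sh false f.2) =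
      ∑ f ∈ S, (u (f.1, sh false f.2) + if f.1 = K.Y then x f.2 else 0) :=
    sum_nbij B.glue mp B.glue.injective.injOn
      (surjOn_of_injOn_of_card_le _ mp B.glue.injective.injOn le_rfl) fun f hf => by
        have z := hol_lo f ▸ ((mem f).1 hf).1
        have := h.2 f _ z
        rw [(hol_dead z).2, hol_lo, Pi.zero_apply, add_zero] at this
        exact this.symm
  rw [sum_add_distrib, left_eq_add, sum_eq_single_of_mem (K.Y, j)
    ((mem _).2 ⟨K.Z_Y j, K.lab_Y j⟩) fun f hf n => if_neg fun k => n (Prod.ext k (by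
      have := ((mem f).1 hf).2
      rwa [k, K.lab_Y] at this))] at e
  exact (if_pos rfl).symm.trans e

/-- the labels of the faces after the insertion -/
def ph {b : ℕ} (φ : B.T × Bool → (Fin b → ℤ)) (x : Bool → (Fin b → ℤ)) :
    K.IT Λ × Bool → (Fin b → ℤ) :=
  K.onF Λ φ fun f => Λ.l false f • x false + Λ.l true f • x true

end Cut

end Pool.Agent.Lib.MP_75051e_gt
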