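import Pool.Agent.Lib.MP_75051e_gt.PGad

/-!
The insertion of a gadget keeps the cohomology and the module.
-/

set_option autoImplicit false

namespace Pool.Agent.Lib.MP_75051e_gt

open Finset Gluing

namespace Cut

variable {B : Gluing} {P : Pre B} (K : Cut P) (Λ : Gad) {b : ℕ} {φ : B.T × Bool → (Fin b → ℤ)}
  {u : B.T × Fin 6 → (Fin b → ℤ)} {x : Bool → (Fin b → ℤ)}

theorem coc_I (h : FreeZ P.Z φ) (hx : K.Hol φ u x) :
    IsCocycle (G := K.W Λ) (K.ph Λ φ x) := by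
  classical
  obtain ⟨p, hp⟩ := h.coc
  obtain ⟨q, q1, q2⟩ : ∃ q : K.IT Λ × Fin 6 → (Fin b → ℤ),
      (∀ t s, q (.inl t, s) = if P.Z (t.1, s) then u (t.1, s) else p (t.1, s)) ∧
      ∀ γ s, q (.inr γ, s) = Λ.p false (γ, s) • x false + Λ.p true (γ, s) • x true +
        Sum.elim (fun γ => if γ = Λ.hi then p (K.Y, 1) else 0) (fun j => p (K.Y, j))
          (Λ.ow (γ, s)) :=
    ⟨fun s => Sum.elim (fun t => if P.Z (t.1, s.2) then u (t.1, s.2) else p (t.1, s.2))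
      (fun γ => Λ.p false (γ, s.2) • x false + Λ.p true (γ, s.2) • x true +
        Sum.elim (fun γ => if γ = Λ.hi then p (K.Y, 1) else 0) (fun j => p (K.Y, j))
          (Λ.ow (γ, s.2))) s.1, fun _ _ => rfl, fun _ _ => rfl⟩
  have qH : ∀ s : B.T × Fin 6, s.2 ≠ 0 → q (K.eH Λ s) = if P.Z s then u s else p s := by
    rintro ⟨t, s⟩ hs
    by_cases e : t = K.Y
    · subst e
      have b1 := fun k => show q (.inr Λ.hi, sh true k) = if P.Z (K.Y, sh true k) then
          u (K.Y, sh true k) else p (K.Y, sh true k) by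
        simp [q2, (Λ.p_blue _ k).2, (Λ.ow_blue k).2, P.nZ_blue]
      have b2 := fun k => show q (.inr Λ.hi, sh false k) = if P.Z (K.Y, sh false k) then
          u (K.Y, sh false k) else p (K.Y, sh false k) by
        simp [q2, (Λ.p_red _ k).2, (Λ.ow_red k).2, Λ.r_ne, K.Z_Y, hx.1]
      rw [eH, em_Y]
      rcases slot_cases true s with rfl | rfl | rfl | rfl | rfl | rfl
      · exact absurd rfl hs
      · simp [q2, Λ.p_one, Λ.ow_top, P.nZ_one]
      exacts [b1 false, b1 true, b2 false, b2 true]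
    · rw [eH, K.em_ne Λ _ e, q1]
  have qL : ∀ s : B.T × Fin 6, s.2 ≠ 1 → ¬ P.Z s → q (K.eL Λ s) = p s := by
    rintro ⟨t, s⟩ hs hz
    by_cases e : t = K.Y
    · subst e
      have b1 := fun k => show q (.inr Λ.lo, sh true k) = p (K.Y, sh true k) by
        simp [q2, (Λ.p_blue _ k).1, (Λ.ow_blue k).1]
      rw [eL, em_Y]
      rcases slot_cases true s with rfl | rfl | rfl | rfl | rfl | rfl
      · simp [q2, Λ.p_zero, Λ.ow_zero]
      · exact absurd rfl hs
      exacts [b1 false, b1 true, absurd (K.Z_Y false) hz, absurd (K.Z_Y true) hz]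
    · rw [eL, K.em_ne Λ _ e, q1, if_neg hz]
  have qZ : ∀ t k, P.Z (t, sh false k) → q (K.eL Λ (t, sh false k)) =
      u (t, sh false k) + if t = K.Y then x k else 0 := by
    intro t k hz
    by_cases e : t = K.Y
    · subst e
      rw [eL, em_Y, q2, (Λ.p_red _ k).1, (Λ.p_red _ k).1, (Λ.ow_red k).1, hx.1]
      cases k <;> simp [Λ.r_ne]
    · rw [eL, K.em_ne Λ _ e, q1, if_pos hz, if_neg e, add_zero]
  have n0 : ∀ k i, topE k i ≠ 0 := by decide
  have n1 : ∀ k i, botE k i ≠ 1 := by decide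
  refine ⟨q, K.flag_cases Λ (Q := fun f a c => q c = q a + K.ph Λ φ x f) (fun f i => ?_)
    fun f i hf => ?_⟩
  · rw [ph, onF_H, qH _ (n0 _ _)]
    split_ifs with z
    · have z' := (P.Z_glue f i).1 z
      have := hx.2 f i z
      rw [(hol_dead z).2] at this z' ⊢
      rw [qZ _ _ z', this]
    · rw [qL _ (n1 _ _) (mt (P.Z_glue f i).2 z), hp f i z]
  · rw [ph, K.onF_G Λ _ _ hf, eG, eG, q2, q2, Prod.mk.eta, Prod.mk.eta, Λ.p_glue _ f i hf,
      Λ.p_glue _ f i hf, Λ.ow_glue f i hf, add_smul, add_smul]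
    abel

theorem inj_I (h : FreeZ P.Z φ) (ψ : (Fin b → ℤ) →+ ℤ)
    (hψ : IsCoboundary (G := K.W Λ) fun f => ψ (K.ph Λ φ x f)) : ψ = 0 := by
  obtain ⟨q, hq⟩ := hψ
  have e := Λ.conn ℤ (fun s => Λ.p false s * ψ (x false) + Λ.p true s * ψ (x true) - q (.inr s.1))
    (fun f i hf => by
      have := hq (K.eG Λ f)
      simp only [ph, K.onF_G Λ _ _ hf, K.glue_G Λ hf, map_add, map_zsmul, smul_eq_mul] at this
      rw [Λ.p_glue _ f i hf, Λ.p_glue _ f i hf]
      change _ = q (.inr (Λ.Γ.glue f).1) - q (.inr f.1) at this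
      change _ - q (.inr f.1) = _ - q (.inr (Λ.Γ.glue f).1)
      linear_combination -this) (Λ.hi, sh true false)
  simp only [(Λ.ow_blue false).2, Sum.elim_inr, (Λ.p_blue _ false).1, (Λ.p_blue _ false).2,
    zero_mul, add_zero, zero_sub, neg_inj] at e
  have e' : ∀ t, q (K.em Λ Λ.hi t) = q (K.em Λ Λ.lo t) := fun t => by
    by_cases k : t = K.Y
    · rw [k, em_Y, em_Y, e]
    · rw [K.em_ne Λ _ k, K.em_ne Λ _ k]
  refine h.inj ψ ⟨fun t => q (K.em Λ Λ.lo t), fun f => ?_⟩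
  have := hq (K.eH Λ f)
  simp only [ph, onF_H, glue_H] at this
  exact this.trans (congrArg _ (e' f.1))

theorem surj_I (h : FreeZ P.Z φ) (hx : K.Hol φ u x) (c : K.IT Λ × Bool → ℤ)
    (hc : IsCocycle (G := K.W Λ) c) :
    ∃ ψ : (Fin b → ℤ) →+ ℤ, IsCoboundary (G := K.W Λ) fun f => c f - ψ (K.ph Λ φ x f) := by
  obtain ⟨r, hr⟩ : ∃ r : K.IT Λ × Fin 6 → ℤ, ∀ f i,
    r ((K.W Λ).up f i) = r ((K.W Λ).lo f i) + c f := hc
  have rH : ∀ f i, r (K.eL Λ (B.up f i)) = r (K.eH Λ (B.lo f i)) + c (K.eH Λ f) := fun f i => by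
    rw [← K.up_H, ← K.lo_H]; exact hr _ i
  have rG : ∀ f i, f.1 ≠ Λ.hi →
      r (K.eG Λ (Λ.Γ.up f i)) = r (K.eG Λ (Λ.Γ.lo f i)) + c (K.eG Λ f) := fun f i e => by
    rw [← K.up_G Λ e, ← K.lo_G]; exact hr _ i
  obtain ⟨α, q, hq⟩ := Λ.h1 (fun f => c (K.eG Λ f)) (fun s => r (K.eG Λ s)) rG
  have hw := Λ.conn ℤ
    (fun s => r (K.eG Λ s) - q s.1 - (α false * Λ.p false s + α true * Λ.p true s)) fun f i e => by
      rw [rG f i e, hq f e, Λ.p_glue _ f i e, Λ.p_glue _ f i e]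
      simp only [lo, up]
      ring
  have blue : ∀ k, r (.inr Λ.lo, sh true k) = r (.inr Λ.hi, sh true k) - (q Λ.hi - q Λ.lo) :=
    fun k => by
      have := hw (Λ.hi, sh true k)
      simp only [(Λ.ow_blue k).2, Sum.elim_inr, (Λ.p_blue _ k).1, (Λ.p_blue _ k).2, eG] at this
      linear_combination -this
  have red : ∀ k, r (.inr Λ.lo, sh false k) =
      r (.inr Λ.hi, sh false k) - (q Λ.hi - q Λ.lo) + α k := fun k => by
    have h1 := hw (Λ.hi, sh false k)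
    have h2 := hw (Λ.lo, sh false k)
    rw [(Λ.ow_red k).2] at h1
    rw [(Λ.ow_red k).1, ← h1] at h2
    simp only [(Λ.p_red _ k).1, (Λ.p_red _ k).2, eG] at h2
    cases k <;> simp at h2 <;> linear_combination h2
  obtain ⟨D, D1, D2⟩ : ∃ D : B.T → ℤ, D K.Y = q Λ.hi - q Λ.lo ∧ ∀ t, t ≠ K.Y → D t = 0 :=
    ⟨fun t => if t = K.Y then q Λ.hi - q Λ.lo else 0, if_pos rfl, fun t e => if_neg e⟩
  have out : ∀ s : B.T × Fin 6, s.1 ≠ K.Y → r (K.eL Λ s) = r (K.eH Λ s) - D s.1 := fun s e => by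
    rw [D2 _ e, sub_zero, eL, eH, K.em_ne Λ _ e, K.em_ne Λ _ e]
  obtain ⟨ψ, g, hg⟩ := h.surj (fun f => c (K.eH Λ f) + D f.1)
    (fun s => if s.2 = 1 then r (K.eH Λ s) - D s.1 else r (K.eL Λ s)) fun f i e => by
      have e1 : (B.up f i).2 ≠ 1 := (by decide : ∀ k j, botE k j ≠ 1) _ _
      have e2 : (if (B.lo f i).2 = 1 then r (K.eH Λ (B.lo f i)) - D (B.lo f i).1
          else r (K.eL Λ (B.lo f i))) = r (K.eH Λ (B.lo f i)) - D f.1 := by
        split_ifs with e3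
        · rfl
        · rcases eq_or_ne f.1 K.Y with e4 | e4
          · obtain ⟨a, k, e5⟩ := (by decide : ∀ k j, topE k j ≠ 1 → ∃ a k', topE k j = sh a k')
              f.2 i e3
            rw [lo, e4, e5] at e ⊢
            cases a
            · exact absurd (K.Z_Y k) e
            · rw [eL, eH, em_Y, em_Y, D1, blue]
          · exact out _ e4
      simp only [if_neg e1, e2, rH]
      ring
  have hz := Hol.eq_zero (K := K) (x := fun j => α j - ψ (x j))
    (u := fun s => r (K.eH Λ s) - D s.1 - ψ (u s) - g s.1 -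
      (r (.inr Λ.hi, sh false (K.lab s)) - D K.Y - g K.Y)) ⟨fun j => by
      simp only [hx.1, K.lab_Y, eH, em_Y, map_zero]
      ring, fun f i e => by
      have e1 := congrArg ψ (hx.2 f i e)
      have e2 := hg f
      have e3 := rH f i
      beta_reduce
      rw [← K.lab_glue f i e]
      split_ifs at e1 ⊢ with e4
      · obtain ⟨j, e5⟩ := P.Z_red _ ((P.Z_glue f i).1 e)
        obtain rfl := (by decide : ∀ k j k', botE k j = sh false k' → k' = k) _ _ _ e5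
        have e6 : r (K.eL Λ (B.up f i)) = r (K.eH Λ (B.up f i)) - D (B.up f i).1 + α (B.glue f).2 := by
          rw [eL, eH, e4, e5, em_Y, em_Y, D1, red]
        simp only [map_add, up, lo, Pi.zero_apply] at e1 e2 e3 e6 ⊢
        linear_combination e3 - e6 - e1 + e2
      · have e6 := out _ e4
        simp only [map_add, map_zero, up, lo, Pi.zero_apply] at e1 e2 e3 e6 ⊢
        linear_combination e3 - e6 - e1 + e2⟩
  let Q : K.IT Λ → ℤ := Sum.elim (fun t => g t.1) fun γ => q γ - q Λ.lo + g K.Y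
  have Q1 : ∀ t, Q (K.em Λ Λ.lo t) = g t := fun t => by
    rcases eq_or_ne t K.Y with rfl | e
    · simp [em_Y, Q]
    · simp [K.em_ne Λ _ e, Q]
  have Q2 : ∀ t, Q (K.em Λ Λ.hi t) = g t + D t := fun t => by
    rcases eq_or_ne t K.Y with rfl | e
    · simp [em_Y, Q, D1, add_comm]
    · simp [K.em_ne Λ _ e, Q, D2 t e]
  refine ⟨ψ, Q, K.face_cases Λ (fun f => ?_) fun f e => ?_⟩
  · have e2 := hg f
    beta_reduce
    rw [glue_H, ph, onF_H]
    simp only [eL, eH, Q1, Q2] at e2 ⊢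
    linear_combination e2
  · beta_reduce
    rw [K.glue_G Λ e, ph, K.onF_G Λ _ _ e, hq f e]
    simp only [eG, Q, Sum.elim_inr, map_add, map_zsmul, smul_eq_mul]
    linear_combination Λ.l false f * hz false + Λ.l true f * hz true

theorem freeAb_I (h : FreeZ P.Z φ) (hx : K.Hol φ u x) : IsFreeAb (G := K.W Λ) (K.ph Λ φ x) :=
  freeAb_iff.2 ⟨K.coc_I Λ h hx, K.surj_I Λ h hx, K.inj_I Λ h⟩

theorem pres_I {M : Type} [AddCommGroup M] [Module (GR b) M] {v : B.T × Fin 6 → M}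
    (h : Pres P.Z φ v) :
    ∃ v' : K.IT Λ × Fin 6 → M, Pres (G := K.W Λ) (fun _ => False) (K.ph Λ φ x) v' := by
  obtain ⟨w, w1, w2, w3, w4, w5, w6⟩ := Λ.mod (GR b) (fun a c => ee (a • x false + c • x true))
    (by simp [ee_zero]) fun a c a' c' => by
      rw [← ee_add, add_smul, add_smul, add_add_add_comm]
  have sc : ∀ j : Fin 6, j = 0 ∨ j = 1 ∨ (∃ k, j = sh true k) ∨ ∃ k, j = sh false k := by decide
  have n0 : ∀ (f : B.T × Bool) i, (B.lo f i).2 ≠ 0 := fun f i =>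
    (by decide : ∀ k i, topE k i ≠ 0) _ _
  have n1 : ∀ (f : B.T × Bool) i, (B.up f i).2 ≠ 1 := fun f i =>
    (by decide : ∀ k i, botE k i ≠ 1) _ _
  have rY : ∀ k, B.rot (K.Y, k) = rho true := fun k => K.tc_Y ▸ P.rot_eq (K.Y, k)
  have pH : ∀ f, K.ph Λ φ x (K.eH Λ f) = φ f := K.onF_H Λ _ _
  have pG : ∀ f : Λ.Γ.T × Bool, f.1 ≠ Λ.hi →
      K.ph Λ φ x (K.eG Λ f) = Λ.l false f • x false + Λ.l true f • x true :=
    fun f hf => K.onF_G Λ _ _ hf
  have vr : ∀ k, v (K.Y, sh false k) = 0 := fun k => h.sol.zero _ (K.Z_Y k)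
  have vb : ∀ k, v (K.Y, sh true k) = v (K.Y, 0) := fun k => by
    rw [h.sol.bot _ k, vr, add_zero]
  have vt : v (K.Y, 1) = v (K.Y, 0) := by
    have := h.sol.top (rY false)
    rw [vb] at this
    rw [this, Bool.not_true, vr, add_zero]
  let o : B.T × Fin 6 → K.IT Λ × Fin 6 := fun s => if s.2 = 1 then K.eH Λ s else K.eL Λ s
  let π : K.IT Λ × Fin 6 → B.T × Fin 6 := fun s =>
    s.1.elim (fun t => (t.1, s.2)) fun _ => (K.Y, 0)
  let κ : K.IT Λ × Fin 6 → GR b := fun s => s.1.elim (fun _ => 1) fun g => w (g, s.2)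
  have VL : ∀ s, s.2 ≠ 1 → κ (K.eL Λ s) • v (π (K.eL Λ s)) = v s := by
    rintro ⟨t, j⟩ hj
    by_cases e : t = K.Y
    · subst e
      rw [eL, em_Y]
      change w (Λ.lo, j) • v (K.Y, 0) = _
      rcases sc j with rfl | rfl | ⟨k, rfl⟩ | ⟨k, rfl⟩
      · rw [w3, one_smul]
      · exact absurd rfl hj
      · rw [(w5 k).1, one_smul, vb]
      · rw [(w5 k).2.2.1, zero_smul, vr]
    · rw [eL, K.em_ne Λ _ e]
      exact one_smul _ _
  have VH : ∀ s, s.2 ≠ 0 → κ (K.eH Λ s) • v (π (K.eH Λ s)) = v s := by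
    rintro ⟨t, j⟩ hj
    by_cases e : t = K.Y
    · subst e
      rw [eH, em_Y]
      change w (Λ.hi, j) • v (K.Y, 0) = _
      rcases sc j with rfl | rfl | ⟨k, rfl⟩ | ⟨k, rfl⟩
      · exact absurd rfl hj
      · rw [w4, one_smul, vt]
      · rw [(w5 k).2.1, one_smul, vb]
      · rw [(w5 k).2.2.2, zero_smul, vr]
    · rw [eH, K.em_ne Λ _ e]
      exact one_smul _ _
  refine ⟨_, h.transfer (G' := K.W Λ) o π κ (fun s => ?_) ⟨?_, ?_, fun _ => False.elim⟩
    fun N _ _ (U : K.IT Λ × Fin 6 → N) hU => ?_⟩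
  · by_cases e : s.2 = 1
    · simp only [o, if_pos e]
      exact VH s (by rw [e]; decide)
    · simp only [o, if_neg e]
      exact VL s e
  · refine K.flag_cases Λ (Q := fun f a c => κ a • v (π a) = ee (K.ph Λ φ x f) • κ c • v (π c))
      (fun f i => ?_) fun f i hf => ?_
    · rw [VH _ (n0 f i), VL _ (n1 f i), pH, h.sol.glue]
    · rw [pG f hf, ← mul_smul]
      exact congrArg (· • v (K.Y, 0)) (w1 f i hf)
  · rintro (t | g) k
    · change (1 : GR b) • v (t.1, 0) = (1 : GR b) • v (t.1, _) + (1 : GR b) • v (t.1, _)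
      rw [← smul_add, ← h.sol.bot]
    · change w (g, 0) • v (K.Y, 0) = w (g, _) • v (K.Y, 0) + w (g, _) • v (K.Y, 0)
      rw [← add_smul, ← w2]
  have un : ∀ s, U (K.eG Λ s) = w s • U (K.eG Λ (Λ.lo, 0)) := by
    refine w6 N (fun s => U (K.eG Λ s)) (fun f i hf => ?_) (fun g k => hU.bot _ k) fun k => ?_
    · have := hU.glue (K.eG Λ f) i
      rwa [lo_G, K.up_G Λ hf, pG f hf] at this
    · have := hU.top (f := K.eH Λ (K.Y, k)) ((K.onF_H Λ _ _ _).trans (rY k))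
      simp only [eH, em_Y, Bool.xor_true, Bool.not_true, Bool.xor_false] at this
      exact this
  have oL : ∀ s, s.2 ≠ 1 → o s = K.eL Λ s := fun s e => if_neg e
  have oH : ∀ s, s.2 ≠ 0 → U (o s) = U (K.eH Λ s) := by
    rintro ⟨t, j⟩ hj
    by_cases e1 : j = 1
    · exact congrArg U (if_pos e1)
    rw [oL _ e1]
    by_cases e : t = K.Y
    · subst e
      rw [eL, eH, em_Y, em_Y]
      change U (K.eG Λ (Λ.lo, j)) = U (K.eG Λ (Λ.hi, j))
      rw [un, un (Λ.hi, j)]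
      rcases sc j with rfl | rfl | ⟨k, rfl⟩ | ⟨k, rfl⟩
      · exact absurd rfl hj
      · exact absurd rfl e1
      · rw [(w5 k).1, (w5 k).2.1]
      · rw [(w5 k).2.2.1, (w5 k).2.2.2]
    · rw [eL, eH, K.em_ne Λ _ e, K.em_ne Λ _ e]
  have gl : ∀ f i, U (o (B.lo f i)) = ee (φ f) • U (o (B.up f i)) := fun f i => by
    rw [oH _ (n0 f i), oL _ (n1 f i), ← lo_H, ← up_H, ← pH]
    exact hU.glue _ i
  refine ⟨⟨gl, fun t k => ?_, fun s hs => ?_⟩, ?_⟩
  · rw [oL _ (by decide : (0 : Fin 6) ≠ 1), oL _ (sh_ne_one true k), oL _ (sh_ne_one false k)]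
    exact hU.bot _ k
  · have := eq_of_same (w := fun s => U (o s) = 0) (fun f i => propext ⟨fun e => ?_, fun e => ?_⟩)
      (K.same s hs)
    · rw [this, oL _ (sh_ne_one false _), eL, em_Y]
      exact (un (Λ.lo, _)).trans (by rw [(w5 _).2.2.1, zero_smul])
    · rw [← one_smul (GR b) (U _), ← ee_zero, ← neg_add_cancel (φ f), ← ee_smul, ← gl, e,
        smul_zero]
    · rw [gl, e, smul_zero]
  · rintro ⟨t | g, j⟩
    · change U _ = (1 : GR b) • U (o (t.1, j))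
      rw [one_smul]
      by_cases e : j = 1
      · rw [show o (t.1, j) = K.eH Λ (t.1, j) from if_pos e, eH, K.em_ne Λ _ t.2]; rfl
      · rw [oL _ e, eL, K.em_ne Λ _ t.2]; rfl
    · change U _ = w (g, j) • U (o (K.Y, 0))
      rw [oL _ (by decide : (0 : Fin 6) ≠ 1), eL, em_Y]
      exact un (g, j)

end Cut

/-- one step: a larger veering triangulation with the same Fitting ideal -/
theorem step (Λ : Gad) {G : Gluing} (hG : G.IsVeering) {b : ℕ} {φ : G.T × Bool → (Fin b → ℤ)}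
    (hφ : IsFreeAb φ) : ∃ (W : Gluing) (φ' : W.T × Bool → (Fin b → ℤ)), W.IsVeering ∧
      IsFreeAb φ' ∧ fitting (GR b) (TautModule φ') = fitting (GR b) (TautModule φ) ∧
      Fintype.card G.T < Fintype.card W.T := by
  obtain ⟨B, P, K, φ', v, h1, h2, h3⟩ := exists_cut hG hφ
  obtain ⟨u, x, hx⟩ := K.exists_hol φ'
  obtain ⟨v', hv⟩ := K.pres_I Λ (x := x) h2
  have ht := pres_taut (G := K.W Λ) (Z := fun _ => False) (φ := K.ph Λ φ' x) fun _ => id
  exact ⟨K.W Λ, K.ph Λ φ' x, K.veering_W Λ, K.freeAb_I Λ h1 hx,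
    le_antisymm (ht.fitting_le hv) (hv.fitting_le ht), h3.trans_lt (K.card_lt Λ)⟩

theorem family (Λ : Gad) {V : Gluing} (hV : V.IsVeering) {b : ℕ} {φ : V.T × Bool → (Fin b → ℤ)}
    (hφ : IsFreeAb φ) : ∃ W : ℕ → Gluing, (∀ k, (W k).IsVeering) ∧
      (Function.Injective fun k => Fintype.card (W k).T) ∧
      ∀ k, ∃ φ' : (W k).T × Bool → (Fin b → ℤ), IsFreeAb φ' ∧
        fitting (GR b) (TautModule φ') = fitting (GR b) (TautModule φ) := by
  let S := {W : Gluing // W.IsVeering ∧ ∃ φ' : W.T × Bool → (Fin b → ℤ), IsFreeAb φ' ∧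
    fitting (GR b) (TautModule φ') = fitting (GR b) (TautModule φ)}
  have hs : ∀ W : S, ∃ W' : S, Fintype.card W.1.T < Fintype.card W'.1.T := by
    rintro ⟨W, h1, φ', h2, h3⟩
    obtain ⟨W', φ'', a1, a2, a3, a4⟩ := step Λ h1 h2
    exact ⟨⟨W', a1, φ'', a2, a3.trans h3⟩, a4⟩
  choose nx hn using hs
  refine ⟨fun k => (nx^[k] ⟨V, hV, φ, hφ, rfl⟩).1, fun k => (nx^[k] _).2.1,
    (strictMono_nat_of_lt_succ fun k => ?_).injective, fun k => (nx^[k] _).2.2⟩
  simp only [Function.iterate_succ_apply']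
  exact hn _

end Pool.Agent.Lib.MP_75051e_gt
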