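import Pool.Agent.Lib.MP_75051e_gt.PChk
import Pool.Agent.Lib.MP_75051e_gt.PGadH
import Pool.Agent.Lib.MP_75051e_gt.PAb

/-! The block with 420 tetrahedra is a gadget. -/

set_option autoImplicit false

namespace Pool.Agent.Lib.MP_75051e_gt.Tb

open Gluing

/-- the owners of the edges -/
def owS (s : Fin 420 × Fin 6) : Fin 420 ⊕ Fin 6 :=
  if ow s < 420 then .inl (Fin.ofNat 420 (ow s)) else .inr (Fin.ofNat 6 (ow s))

/-- the two primitives and the two cocycles -/
def pz (j : Bool) (s : Fin 420 × Fin 6) : ℤ := 2 - (bif j then p1 s else p0 s : ℕ)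
def lz (j : Bool) (f : Fin 420 × Bool) : ℤ := pz j (up f 0) - pz j (lo f 0)

theorem bd_chk : (∀ k, gf (417, k) = (415, k)) ∧ tc 417 = true ∧ owS (415, 0) = .inr 0 ∧
    (∀ k, owS (415, sh true k) = .inr (sh true k) ∧ owS (417, sh true k) = .inr (sh true k)) ∧
    (∀ k, owS (415, sh false k) = .inl (bif k then 416 else 418) ∧
      owS (417, sh false k) = .inl (bif k then 416 else 418)) ∧
    (∀ j, pz j (415, 0) = 0) ∧ (∀ j, pz j (417, 1) = 0) ∧
    (∀ j k, pz j (415, sh true k) = 0 ∧ pz j (417, sh true k) = 0) ∧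
    (∀ j k, pz j (415, sh false k) = (if j = k then 1 else 0) ∧ pz j (417, sh false k) = 0) ∧
    lz false (fd 190) = 1 ∧ lz true (fd 190) = 0 ∧ lz false (fd 4) = 0 ∧ lz true (fd 4) = 1 := by
  decide +kernel

/-- the universal solution takes the value one -/
def One (s : Fin 420 × Fin 6) : Prop :=
  p0 s = 2 ∧ p1 s = 2 ∧ (mer 3 (WM (ow s)) [⟨0, 3, 4, -1⟩]).isEmpty = true

instance (s : Fin 420 × Fin 6) : Decidable (One s) := by unfold One; infer_instance

theorem bw_chk : One (415, 0) ∧ One (417, 1) ∧ ∀ k, One (415, sh true k) ∧ One (417, sh true k) ∧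
    (WM (ow (415, sh false k))).isEmpty = true ∧ (WM (ow (417, sh false k))).isEmpty = true := by
  decide +kernel

theorem pz_glue (j : Bool) (f : Fin 420 × Bool) (i : Fin 3) (h : f.1 ≠ 417) :
    pz j (up f i) = pz j (lo f i) + lz j f := by
  have := flag_chk f.1 f.2 i h
  cases j <;> simp only [lz, pz, cond, Prod.mk.eta] at this ⊢ <;> omega

theorem conn {A : Type} (w : Fin 420 × Fin 6 → A)
    (h : ∀ f i, f.1 ≠ 417 → w (lo f i) = w (up f i)) (s : Fin 420 × Fin 6) :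
    w s = w (rep (ow s)) := by
  induction hn : rk s using Nat.strong_induction_on generalizing s with
  | _ n ih =>
    subst hn
    rcases (slot_chk s.1 s.2).2.2 with e | ⟨h1, ⟨e, h2⟩ | ⟨e, h2⟩⟩
    · exact congrArg w e
    · have e1 := (flag_chk (nf s).1 (nf s).2 (ni s) h1).1
      have e2 := h (nf s) (ni s) h1
      simp only [Prod.mk.eta] at e e1 e2 h2
      rw [e] at e1 e2
      rw [e2, e1]
      exact ih _ h2 _ rfl
    · have e1 := (flag_chk (nf s).1 (nf s).2 (ni s) h1).1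
      have e2 := h (nf s) (ni s) h1
      simp only [Prod.mk.eta] at e e1 e2 h2
      rw [e] at e1 e2
      rw [← e2, ← e1]
      exact ih _ h2 _ rfl

theorem link {A : Type} (q : Fin 420 → A) (h : ∀ f, f.1 ≠ 417 → q (gf f).1 = q f.1)
    (t : Fin 420) : q t = q 415 := by
  induction hn : tr t using Nat.strong_induction_on generalizing t with
  | _ n ih =>
    subst hn
    rcases (tet_chk t).2 with e | ⟨h1, -, -, ⟨e, h2⟩ | ⟨e, h2⟩⟩
    · rw [e]
    · rw [← ih _ h2 _ rfl, h _ h1, e]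
    · rw [← ih _ h2 _ rfl, ← h _ h1, e]

theorem fi_lt (f : Fin 420 × Bool) : fi f < 840 := by
  have := f.1.2
  have := f.2.toNat_le
  unfold fi
  omega

theorem fd_fi (f : Fin 420 × Bool) : fd (fi f) = f := (g_chk f.1 f.2).2.2.2

theorem sd_si (s : Fin 420 × Fin 6) : sd (si s) = s := (slot_chk s.1 s.2).1

theorem h1 (c : Fin 420 × Bool → ℤ) (u : Fin 420 × Fin 6 → ℤ)
    (hu : ∀ f i, f.1 ≠ 417 → u (up f i) = u (lo f i) + c f) :
    ∃ (α : Bool → ℤ) (q : Fin 420 → ℤ), ∀ f, f.1 ≠ 417 →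
      c f = α false * lz false f + α true * lz true f + (q (gf f).1 - q f.1) := by
  obtain ⟨q, hq⟩ := exists_gauge tr
    (fun t => if (tn t).1 = t ∧ tr (gf (tn t)).1 < tr t then (gf (tn t)).1 else (tn t).1)
    fun t => if (tn t).1 = t ∧ tr (gf (tn t)).1 < tr t then -c (tn t) else c (tn t)
  obtain ⟨c1, hc1⟩ : ∃ c1 : Fin 420 × Bool → ℤ, ∀ f, c1 f = c f - (q (gf f).1 - q f.1) :=
    ⟨_, fun _ => rfl⟩
  obtain ⟨c2, hc2⟩ : ∃ c2 : Fin 420 × Bool → ℤ,
      ∀ f, c2 f = c1 f - c1 (fd 190) * lz false f - c1 (fd 4) * lz true f := ⟨_, fun _ => rfl⟩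
  obtain ⟨u2, hu2⟩ : ∃ u2 : Fin 420 × Fin 6 → ℤ, ∀ s,
      u2 s = u s - q s.1 - c1 (fd 190) * pz false s - c1 (fd 4) * pz true s := ⟨_, fun _ => rfl⟩
  obtain ⟨U, hU⟩ : ∃ U : ℕ → ℤ, ∀ v, U v = if v < 840 then c2 (fd v) else u2 (sd (v - 840)) :=
    ⟨_, fun _ => rfl⟩
  have U1 : ∀ f, U (fi f) = c2 f := fun f => by rw [hU, if_pos (fi_lt f), fd_fi]
  have U2 : ∀ s, U (840 + si s) = u2 s := fun s => by
    rw [hU, if_neg (by omega), Nat.add_sub_cancel_left, sd_si]
  have tree : ∀ t, t ≠ 415 → c2 (tn t) = 0 := fun t ht => by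
    obtain ⟨-, a0, a1, a⟩ := (tet_chk t).2.resolve_left ht
    have := hq t
    rw [hc2, hc1, lz, lz, pz, pz, pz, pz, cond, cond, cond, cond, a0, a1]
    by_cases e : (tn t).1 = t ∧ tr (gf (tn t)).1 < tr t
    · simp only [if_pos e] at this
      rw [e.1, this e.2]
      ring
    · simp only [if_neg e] at this
      obtain ⟨e1, e2⟩ := a.resolve_left e
      rw [e1, this e2]
      ring
  obtain ⟨-, -, -, -, -, -, -, -, -, b1, b2, b3, b4⟩ := bd_chk
  have key := rows_zero (x := (1 : ℤ)) (y := 1) (U := U) isUnit_one isUnit_one (D := DH)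
    (C := CH) (m := 2942) (n := 3784) (fun i hi => by
      unfold DH
      split_ifs with a1 a2 a3 a4 a5
      · rfl
      · simp only [ev_mer, ev_cons, ev_nil, U1, U2, hc2, hu2, hc1 (fd (i / 3)), hu _ _ a2,
          pz_glue _ _ _ a2]
        rw [show (up (fd (i / 3)) (Fin.ofNat 3 i)).1 = (gf (fd (i / 3))).1 from rfl,
          show (lo (fd (i / 3)) (Fin.ofNat 3 i)).1 = (fd (i / 3)).1 from rfl]
        simp only [smul_eq_mul, Int.cast_id]
        ring
      · rfl
      · rw [ev_cons, U1, tree _ a4, smul_zero, ev_nil, add_zero]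
      · rw [ev_cons, hU, if_pos (by norm_num), hc2, b1, b2, ev_nil]
        simp
      · rw [ev_cons, hU, if_pos (by norm_num), hc2, b3, b4, ev_nil]
        simp) fun i a b => allTo_spec h_chk a b
  refine ⟨fun j => bif j then c1 (fd 4) else c1 (fd 190), q, fun f hf => ?_⟩
  obtain ⟨a, b⟩ := hz_chk f.1 f.2 hf
  have := ev_isVar b (key _ a)
  rw [Prod.mk.eta, U1, hc2, hc1 f] at this
  simp only [cond]
  linarith

section

variable {R : Type} [CommRing R] {m : ℤ → ℤ → R} (m0 : m 0 0 = 1)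
  (ma : ∀ a b a' b', m (a + a') (b + b') = m a b * m a' b')
  {N : Type} [AddCommGroup N] [Module R N]

include m0 ma

theorem m_pow (a b : ℕ) : m 1 0 ^ a * m 0 1 ^ b = m a b := by
  induction a with
  | zero =>
    induction b with
    | zero => simpa using m0.symm
    | succ b ih => rw [pow_succ, ← mul_assoc, ih, ← ma]; simp
  | succ a ih => rw [pow_succ', mul_assoc, ih, ← ma, add_comm]; simp

theorem m_unit (a b : ℤ) : IsUnit (m a b) :=
  IsUnit.of_mul_eq_one (m (-a) (-b)) (by rw [← ma, add_neg_cancel, add_neg_cancel, m0])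

theorem ev_rel (U : ℕ → N) (s s' s'' : Fin 420 × Fin 6) :
    ev (m 1 0) (m 0 1) U (rel s s' s'') = m (p0 s) (p1 s) • U (ow s) -
      (m (p0 s') (p1 s') • U (ow s') + m (p0 s'') (p1 s'') • U (ow s'')) := by
  simp only [rel, tm, ev_mer, ev_cons, ev_nil, mul_assoc, m_pow m0 ma]
  simp only [Int.cast_one, Int.cast_neg, one_mul, neg_mul, neg_smul, add_zero]
  abel

theorem hom_zero (u : Fin 420 × Fin 6 → N)
    (a1 : ∀ f i, f.1 ≠ 417 → u (lo f i) = m (lz false f) (lz true f) • u (up f i))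
    (a2 : ∀ γ k, u (γ, 0) = u (γ, sh true k) + u (γ, sh false k))
    (a3 : ∀ k, u (417, sh true (!k)) = u (417, 1) + u (417, sh false k)) (a4 : u (415, 0) = 0)
    (s : Fin 420 × Fin 6) : u s = 0 := by
  obtain ⟨U, hU⟩ : ∃ U : ℕ → N, ∀ v, U v = m (pz false (rep v)) (pz true (rep v)) • u (rep v) :=
    ⟨_, fun _ => rfl⟩
  have e : ∀ s, m (p0 s) (p1 s) • U (ow s) = m 2 2 • u s := fun s => by
    rw [hU, ← conn (fun s => m (pz false s) (pz true s) • u s) (fun f i h => by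
      rw [a1 f i h, smul_smul, ← ma, pz_glue _ f i h, pz_glue _ f i h]) s, smul_smul, ← ma]
    simp [pz]
  have key := rows_zero (U := U) (m_unit m0 ma 1 0) (m_unit m0 ma 0 1) (D := DM) (C := CM)
    (m := 843) (n := 1714) (fun i hi => by
      unfold DM
      split_ifs
      · rw [ev_rel m0 ma, e, e, e, a2, smul_add, sub_self]
      · rw [ev_rel m0 ma, e, e, e, a3, smul_add, sub_self]
      · rw [ev_cons, hU, show rep 420 = (415, 0) from rfl, a4, ev_nil]
        simp) fun i a b => allTo_spec m_chk a b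
  obtain ⟨a, b⟩ := mz_chk s.1 s.2
  have := e s
  rw [ev_isVar b (key _ a), smul_zero] at this
  exact ((m_unit m0 ma 2 2).smul_eq_zero).1 this.symm

omit m0 ma in
/-- the universal solution -/
def sol (m : ℤ → ℤ → R) (s : Fin 420 × Fin 6) : R :=
  m (p0 s - 5) (p1 s - 6) * ev (m 1 0) (m 0 1) (fun _ => (1 : R)) (WM (ow s))

theorem sol_one {s : Fin 420 × Fin 6} (h : One s) : sol m s = 1 := by
  have := ev_mer (m 1 0) (m 0 1) (fun _ => (1 : R)) 3 (WM (ow s)) [⟨0, 3, 4, -1⟩]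
  rw [List.isEmpty_iff.1 h.2.2, ev_nil, ev_cons, ev_nil, mul_assoc, m_pow m0 ma] at this
  rw [sol, h.1, h.2.1, eq_neg_of_add_eq_zero_left this.symm]
  simp only [Int.cast_one, Int.cast_neg, one_mul, neg_mul, add_zero, neg_neg, smul_eq_mul, mul_one]
  rw [← ma]
  simpa using m0

omit m0 ma in
theorem sol_zero {s : Fin 420 × Fin 6} (h : (WM (ow s)).isEmpty = true) : sol m s = 0 := by
  rw [sol, List.isEmpty_iff.1 h, ev_nil, mul_zero]

omit m0 in
theorem sol_glue (f : Fin 420 × Bool) (i : Fin 3) (h : f.1 ≠ 417) :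
    sol m (lo f i) = m (lz false f) (lz true f) * sol m (up f i) := by
  have e0 := pz_glue false f i h
  have e1 := pz_glue true f i h
  simp only [pz, cond] at e0 e1
  rw [sol, sol, ← mul_assoc, ← ma, (flag_chk f.1 f.2 i h).1]
  congr 2 <;> omega

theorem sol_bot (γ : Fin 420) (k : Bool) :
    sol m (γ, 0) = sol m (γ, sh true k) + sol m (γ, sh false k) := by
  have h := allTo_spec w_chk (Nat.zero_le _) (fi_lt (γ, k))
  have e := ev_sbs (m 1 0) (m 0 1) (fun _ => (1 : R)) WM (DM (fi (γ, k)))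
  rw [List.isEmpty_iff.1 h, ev_nil, DM, if_pos (fi_lt _), fd_fi, ev_rel m0 ma] at e
  simp only [smul_eq_mul] at e
  simp only [sol, sub_eq_add_neg, ma]
  linear_combination -m (-5) (-6) * e

theorem sol_uniq (u : Fin 420 × Fin 6 → N)
    (a1 : ∀ f i, f.1 ≠ 417 → u (lo f i) = m (lz false f) (lz true f) • u (up f i))
    (a2 : ∀ γ k, u (γ, 0) = u (γ, sh true k) + u (γ, sh false k))
    (a3 : ∀ k, u (417, sh true (!k)) = u (417, 1) + u (417, sh false k)) (s : Fin 420 × Fin 6) :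
    u s = sol m s • u (415, 0) := by
  obtain ⟨b1, b2, b3⟩ := bw_chk
  refine sub_eq_zero.1 (hom_zero m0 ma (fun s => u s - sol m s • u (415, 0)) (fun f i h => ?_)
    (fun γ k => ?_) (fun k => ?_) ?_ s)
  · rw [sol_glue ma f i h, smul_sub, mul_smul, a1 f i h]
  · rw [sol_bot m0 ma γ k, add_smul, a2 γ k]
    abel
  · rw [sol_one m0 ma (b3 _).2.1, sol_one m0 ma b2, sol_zero (b3 k).2.2.2, a3 k, zero_smul]
    abel
  · rw [sol_one m0 ma b1, one_smul, sub_self]

end

theorem owS_top (γ : Fin 420) : owS (γ, 1) = .inl γ := by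
  rw [owS, (tet_chk γ).1, if_pos γ.2, Fin.ofNat_val_eq_self]

theorem owS_glue (f : Fin 420 × Bool) (i : Fin 3) (h : f.1 ≠ 417) :
    owS (lo f i) = owS (up f i) := by
  rw [owS, owS, (flag_chk f.1 f.2 i h).1]

theorem owS_rep (s : Fin 420 × Fin 6) :
    rep (ow s) = Sum.elim (fun γ => (γ, 1)) (fun j => (415, j)) (owS s) := by
  rw [owS, rep]
  split_ifs <;> rfl

/-- the gadget -/
noncomputable def gad : Gad where
  Γ := Γ
  C := ⟨tc, bc, fun _ => rfl, fun f => (g_chk f.1 f.2).2.2.1⟩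
  lo := (415 : Fin 420)
  hi := (417 : Fin 420)
  ne := show (415 : Fin 420) ≠ 417 by decide
  glue_hi := bd_chk.1
  tc_hi := bd_chk.2.1
  ow := owS
  ow_top := owS_top
  ow_glue := owS_glue
  ow_zero := bd_chk.2.2.1
  ow_blue := bd_chk.2.2.2.1
  r k := bif k then (416 : Fin 420) else (418 : Fin 420)
  r_ne := show ∀ k : Bool, (bif k then (416 : Fin 420) else 418) ≠ 417 by decide
  ow_red := bd_chk.2.2.2.2.1
  conn _ w h s := (conn w h s).trans (congrArg w (owS_rep s))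
  link _ := link
  l := lz
  p := pz
  p_glue := pz_glue
  p_zero := bd_chk.2.2.2.2.2.1
  p_one := bd_chk.2.2.2.2.2.2.1
  p_blue := bd_chk.2.2.2.2.2.2.2.1
  p_red := bd_chk.2.2.2.2.2.2.2.2.1
  h1 := h1
  mod _ _ m m0 ma := ⟨sol m, sol_glue ma, sol_bot m0 ma, sol_one m0 ma bw_chk.1,
    sol_one m0 ma bw_chk.2.1, fun k => ⟨sol_one m0 ma (bw_chk.2.2 k).1,
      sol_one m0 ma (bw_chk.2.2 k).2.1, sol_zero (bw_chk.2.2 k).2.2.1,
      sol_zero (bw_chk.2.2 k).2.2.2⟩, fun _ _ _ => sol_uniq m0 ma⟩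

end Pool.Agent.Lib.MP_75051e_gt.Tb
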