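import Pool.Agent.Lib.MP_75051e_gt.PFan

/-!
Wedging: a flat tetrahedron is put on every face of a cycle of blue faces.
-/

set_option autoImplicit false

namespace Pool.Agent.Lib.MP_75051e_gt

open Finset Gluing

variable {G : Gluing}

/-- the cycle `O` of the blue face `g0` under `(t, k) ↦ lst (t, !k)` -/
structure Wd (P : Pre G) extends Fan P where
  g0 : G.T × Bool
  O : G.T × Bool → Bool
  O_g0 : O g0 = true
  O_lst : ∀ t k, O (lst (t, k)) = O (t, !k)
  O_blue : ∀ g, O g = true → P.tc g.1 = true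
  O_ind : ∀ Q : G.T × Bool → Prop, Q g0 →
    (∀ t k, O (t, !k) = true → Q (t, !k) → Q (lst (t, k))) → ∀ g, O g = true → Q g

theorem exists_wd (P : Pre G) (g : G.T × Bool) (h : P.tc g.1 = true) : ∃ D : Wd P, D.g0 = g := by
  classical
  obtain ⟨F⟩ := exists_fan P
  let e : G.T × Bool → G.T × Bool := fun x => F.lst (x.1, !x.2)
  have he : Function.Injective e := fun x y k => by
    obtain ⟨h1, h2⟩ := Prod.ext_iff.1 (F.lst.injective k)
    exact Prod.ext h1 (Bool.not_inj h2)
  have e1 : ∀ t k, F.lst (t, k) = e (t, !k) := fun t k => by simp [e]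
  have st := fun x => orb_step he (p := fun y => y = g) (x := x)
  have ind : ∀ Q : G.T × Bool → Prop, Q g → (∀ x, (∃ n, e^[n] x = g) → Q x → Q (e x)) →
      ∀ x, (∃ n, e^[n] x = g) → Q x := fun Q h0 h1 x hx =>
    (orb_ind he (p := fun y => y = g) (Q := fun x => (∃ n, e^[n] x = g) ∧ Q x)
      (fun f k => ⟨(st f).2 ⟨0, k⟩, h1 f ⟨0, k⟩ (k ▸ h0)⟩)
      (fun x _ k => ⟨(st x).2 k.1, h1 x k.1 k.2⟩) hx).2
  refine ⟨⟨F, g, fun x => decide (∃ n, e^[n] x = g), decide_eq_true ⟨0, rfl⟩,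
    fun t k => decide_eq_decide.2 (e1 t k ▸ st _), fun x k => ?_, fun Q h0 h1 x k => ?_⟩, rfl⟩
  · exact ind (fun x => P.tc x.1 = true) h (fun x _ j => (F.tc_lst _).trans j) x
      (of_decide_eq_true k)
  · refine ind Q h0 (fun x j i => h1 x.1 (!x.2) ?_ ?_) x (of_decide_eq_true k)
    · rw [Bool.not_not]
      exact decide_eq_true j
    · rwa [Bool.not_not]

/-- the level with the single index `k` -/
def sg (k : Bool) : Bool → Bool := fun j => j == k

/-- the old edge under an edge of a tetrahedron of level `a` -/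
def pj (a : Bool → Bool) : Fin 6 → Fin 6 :=
  ![if a false then (if a true then 1 else 5) else if a true then 3 else 0, 1, 2,
    if a false then 1 else 3, 4, if a true then 1 else 5]

/-- the new red edges of a tetrahedron of level `a` -/
def nwb (a : Bool → Bool) : Fin 6 → Bool := ![false, false, a true, false, a false, false]

lemma pj_one (a : Bool → Bool) : pj a 1 = 1 := rfl
lemma pj_red (a : Bool → Bool) (j : Bool) : pj a (sh false j) = sh false j := by cases j <;> rfl
lemma pj_blue (a : Bool → Bool) (j : Bool) : pj a (sh true j) = if a j then 1 else sh true j := by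
  cases j <;> rfl
lemma pj_zero (a : Bool → Bool) (k : Bool) : pj a 0 =
    if a k then (if a (!k) then 1 else sh true (!k)) else if a (!k) then sh true k else 0 := by
  cases k <;> cases h : a false <;> cases h' : a true <;> simp [pj, sh, h, h']
lemma pj_bot {a : Bool → Bool} (h : ∀ j, a j = false) (s : Fin 6) : pj a s = s := by
  fin_cases s <;> simp [pj, h]
lemma nwb_zero (a : Bool → Bool) : nwb a 0 = false := rfl
lemma nwb_one (a : Bool → Bool) : nwb a 1 = false := rfl
lemma nwb_blue (a : Bool → Bool) (j : Bool) : nwb a (sh true j) = false := by cases j <;> rfl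
lemma nwb_red (a : Bool → Bool) (j : Bool) : nwb a (sh false j) = a (!j) := by cases j <;> rfl

namespace Wd

variable {P : Pre G} (D : Wd P)

/-- the new tetrahedra: an old tetrahedron and a level -/
def WT : Type := {x : G.T × (Bool → Bool) // ∀ k, x.2 k = true → D.O (x.1, k) = true}

instance : Fintype D.WT := by unfold WT; infer_instance
instance : DecidableEq D.WT := by unfold WT; infer_instance

/-- the tetrahedron over `t` with the level `a` cut down to the cycle -/
def ver (t : G.T) (a : Bool → Bool) : D.WT :=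
  ⟨(t, fun k => a k && D.O (t, k)), fun _ h => (Bool.and_eq_true_iff.1 h).2⟩

variable {D} in
/-- the old tetrahedron -/
def WT.t (x : D.WT) : G.T := x.1.1

variable {D} in
/-- the level -/
def WT.a (x : D.WT) : Bool → Bool := x.1.2

lemma ver_t (t : G.T) (a : Bool → Bool) : (D.ver t a).t = t := rfl
lemma ver_a (t : G.T) (a : Bool → Bool) (k : Bool) : (D.ver t a).a k = (a k && D.O (t, k)) := rfl
lemma a_O (x : D.WT) {k : Bool} (h : x.a k = true) : D.O (x.t, k) = true := x.2 k h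
lemma ext' {x y : D.WT} (k : Bool) (h : x.t = y.t) (h1 : x.a k = y.a k)
    (h2 : x.a (!k) = y.a (!k)) : x = y :=
  Subtype.ext (Prod.ext h (funext fun j => by cases j <;> cases k <;> assumption))
lemma ver_self (x : D.WT) : D.ver x.t x.a = x :=
  Subtype.ext (Prod.ext rfl (funext fun _ => Bool.and_eq_left_iff_imp.2 (D.a_O x)))

/-- faces that are glued to a new tetrahedron over the same old one -/
def FR (f : D.WT × Bool) : Prop := f.1.a f.2 = false ∧ D.O (f.1.t, f.2) = true
/-- faces that play the role of an old face -/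
def FE (f : D.WT × Bool) : Prop := f.1.a f.2 = D.O (f.1.t, f.2) ∧ f.1.a (!f.2) = false
/-- faces that are glued to the next new tetrahedron of the cycle -/
def FX (f : D.WT × Bool) : Prop := f.1.a f.2 = D.O (f.1.t, f.2) ∧ f.1.a (!f.2) = true

instance (f : D.WT × Bool) : Decidable (D.FR f) := by unfold FR; infer_instance

lemma kinds (f : D.WT × Bool) : D.FR f ∨ D.FE f ∨ D.FX f := by
  have := D.a_O f.1 (k := f.2)
  unfold FR FE FX
  revert this
  cases f.1.a f.2 <;> cases D.O (f.1.t, f.2) <;> cases f.1.a (!f.2) <;> simp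

/-- the old face under a face -/
def fc (f : D.WT × Bool) : G.T × Bool := (f.1.t, f.2)

/-- old faces and old edges in the tetrahedra of level zero -/
def o {α : Type} (s : G.T × α) : D.WT × α := (D.ver s.1 fun _ => false, s.2)

/-- the face that plays the role of the old face `g` -/
def ex (g : G.T × Bool) : D.WT × Bool := (D.ver g.1 (sg g.2), g.2)

/-- the new gluing map -/
def gl (f : D.WT × Bool) : D.WT × Bool :=
  if D.FR f then (D.ver f.1.t fun j => f.1.a j || sg f.2 j, f.2)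
  else if f.1.a (!f.2) = false then D.o (G.glue (D.fc f))
  else (D.ver (D.lst (D.fc f)).1 (sg (D.lst (D.fc f)).2), !(D.lst (D.fc f)).2)

variable {D}

lemma FE.nR {f : D.WT × Bool} (h : D.FE f) : ¬ D.FR f := fun e =>
  absurd (h.1.symm.trans e.1) (by simp [e.2])
lemma FX.nR {f : D.WT × Bool} (h : D.FX f) : ¬ D.FR f := fun e =>
  absurd (h.1.symm.trans e.1) (by simp [e.2])
lemma FR.gl {f : D.WT × Bool} (h : D.FR f) :
    D.gl f = (D.ver f.1.t fun j => f.1.a j || sg f.2 j, f.2) := if_pos h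
lemma FE.gl {f : D.WT × Bool} (h : D.FE f) : D.gl f = D.o (G.glue (D.fc f)) := by
  rw [Wd.gl, if_neg h.nR, if_pos h.2]
lemma FX.gl {f : D.WT × Bool} (h : D.FX f) : D.gl f =
    (D.ver (D.lst (D.fc f)).1 (sg (D.lst (D.fc f)).2), !(D.lst (D.fc f)).2) := by
  rw [Wd.gl, if_neg h.nR, if_neg (by simp [h.2])]
lemma FX.O {f : D.WT × Bool} (h : D.FX f) : D.O (D.lst (D.fc f)) = true :=
  (D.O_lst _ _).trans (D.a_O _ h.2)

variable (D)

lemma fe_ex (g : G.T × Bool) : D.FE (D.ex g) := by simp [FE, ex, ver_a, ver_t, sg]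
lemma fc_ex (g : G.T × Bool) : D.fc (D.ex g) = g := rfl

theorem gl_inj : Function.Injective D.gl := by
  have R : ∀ f, D.FR f → (D.gl f).1.a (D.gl f).2 = true := fun f h => by
    simp [h.gl, ver_a, sg, h.2]
  have E : ∀ f, D.FE f → ∀ j, (D.gl f).1.a j = false := fun f h j => by rw [h.gl]; rfl
  have X : ∀ f, D.FX f → (D.gl f).1.a (D.gl f).2 = false ∧ (D.gl f).1.a (!(D.gl f).2) = true :=
    fun f h => by simpa [h.gl, ver_a, sg] using h.O
  have x : ∀ f f' : D.WT × Bool, D.fc f = D.fc f' → f.1.a f.2 = f'.1.a f'.2 →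
      f.1.a (!f.2) = f'.1.a (!f'.2) → f = f' := by
    rintro ⟨y, k⟩ ⟨y', k'⟩ e h1 h2
    obtain ⟨e1, rfl⟩ := Prod.ext_iff.1 e
    exact Prod.ext (D.ext' k e1 h1 h2) rfl
  have o1 : ∀ f f' : D.WT × Bool, D.fc f = D.fc f' → D.O (f.1.t, f.2) = D.O (f'.1.t, f'.2) :=
    fun _ _ e => congrArg D.O e
  intro f f' e
  rcases D.kinds f with h | h | h <;> rcases D.kinds f' with h' | h' | h'
  · rw [h.gl, h'.gl] at e
    obtain ⟨e1, e2⟩ := Prod.ext_iff.1 e
    have e3 : f.1.t = f'.1.t := (congrArg WT.t e1 :)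
    have e4 : f.2 = f'.2 := e2
    refine x _ _ (Prod.ext e3 e4) (h.1.trans h'.1.symm) ?_
    have e5 := congrArg (fun y => WT.a y (!f.2)) e1
    have n1 := D.a_O f.1 (k := !f.2)
    have n2 := D.a_O f'.1 (k := !f.2)
    simp only [ver_a, sg, ← e4, ← e3] at e5 n2 ⊢
    revert e5 n1 n2
    cases f.1.a (!f.2) <;> cases f'.1.a (!f.2) <;> cases D.O (f.1.t, !f.2) <;> simp
  · exact absurd ((R f h).symm.trans (e ▸ E f' h' _)) (by decide)
  · exact absurd ((R f h).symm.trans (e ▸ (X f' h').1)) (by decide)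
  · exact absurd ((R f' h').symm.trans (e ▸ E f h _)) (by decide)
  · rw [h.gl, h'.gl] at e
    obtain ⟨e1, e2⟩ := Prod.ext_iff.1 e
    have e3 := G.glue.injective (Prod.ext (congrArg WT.t e1) e2)
    exact x _ _ e3 (h.1.trans ((o1 _ _ e3).trans h'.1.symm)) (h.2.trans h'.2.symm)
  · exact absurd ((X f' h').2.symm.trans (e ▸ E f h _)) (by decide)
  · exact absurd ((R f' h').symm.trans (e ▸ (X f h).1)) (by decide)
  · exact absurd ((X f h).2.symm.trans (e ▸ E f' h' _)) (by decide)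
  · rw [h.gl, h'.gl] at e
    obtain ⟨e1, e2⟩ := Prod.ext_iff.1 e
    have e3 := D.lst.injective (Prod.ext (congrArg WT.t e1) (Bool.not_inj e2))
    exact x _ _ e3 (h.1.trans ((o1 _ _ e3).trans h'.1.symm)) (h.2.trans h'.2.symm)

/-- the wedged gluing -/
noncomputable def W : Gluing where
  T := D.WT
  glue := Equiv.ofBijective D.gl (Finite.injective_iff_bijective.1 D.gl_inj)
  rot f := rho (P.tc f.1.t)

lemma W_glue (f : D.WT × Bool) : D.W.glue f = D.gl f := rfl
lemma W_rot (f : D.WT × Bool) : D.W.rot f = rho (P.tc f.1.t) := rfl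

/-- the old edge under a new edge -/
def π (s : D.WT × Fin 6) : G.T × Fin 6 := (s.1.t, pj s.1.a s.2)
/-- the new red edges -/
def nw (s : D.WT × Fin 6) : Prop := nwb s.1.a s.2 = true
/-- the dead edges -/
def Z' (s : D.WT × Fin 6) : Prop := D.nw s ∨ P.Z (D.π s)

instance (s : D.WT × Fin 6) : Decidable (D.nw s) := by unfold nw; infer_instance

lemma π_o (s : G.T × Fin 6) : D.π (D.o s) = s := Prod.ext rfl (pj_bot (fun _ => rfl) _)
lemma nw_o (s : G.T × Fin 6) : ¬ D.nw (D.o s) := by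
  obtain ⟨t, s⟩ := s
  fin_cases s <;> simp [nw, nwb, o, ver_a]

variable {D}

theorem FR.flag {f : D.WT × Bool} (h : D.FR f) (i : Fin 3) :
    D.π (D.W.lo f i) = D.π (D.W.up f i) ∧ (D.nw (D.W.lo f i) ↔ D.nw (D.W.up f i)) := by
  have r : D.W.rot f = rho true := congrArg rho (D.O_blue _ h.2)
  obtain ⟨y, e, h1, h2, h3⟩ : ∃ y, D.W.glue f = (y, f.2) ∧ y.t = f.1.t ∧ y.a f.2 = true ∧
      y.a (!f.2) = f.1.a (!f.2) := ⟨_, h.gl, rfl, by simp [ver_a, sg, h.2], by
    simpa [ver_a, sg] using D.a_O f.1 (k := !f.2)⟩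
  rcases tri true i with rfl | rfl | rfl
  · simp [lo_T, up_T r, e, π, nw, pj_one, pj_blue, nwb_one, nwb_blue, h1, h2]
  · simp [lo_W, up_W r, e, π, nw, pj_zero _ f.2, pj_blue, nwb_zero, nwb_blue, h1, h2, h3]
  · simp [lo_O, up_O r, e, π, nw, pj_red, nwb_red, h1, h3]

theorem FE.flag {f : D.WT × Bool} (h : D.FE f) (i : Fin 3) :
    D.π (D.W.lo f i) = G.lo (D.fc f) i ∧ D.W.up f i = D.o (G.up (D.fc f) i) ∧
      ¬ D.nw (D.W.lo f i) := by
  have k : ∀ (a : Bool → Bool) (k : Bool) (i : Fin 3), a (!k) = false →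
      pj a (topE k i) = topE k i ∧ ¬ nwb a (topE k i) = true := by decide
  refine ⟨Prod.ext rfl (k _ _ i h.2).1, ?_, (k _ _ i h.2).2⟩
  rw [up, up, W_glue, h.gl, P.rot_eq]
  rfl

theorem FX.flag {f : D.WT × Bool} (h : D.FX f) (i : Fin 3) :
    (D.nw (D.W.lo f i) ∧ D.nw (D.W.up f i)) ∨ (¬ D.nw (D.W.lo f i) ∧ ¬ D.nw (D.W.up f i) ∧
      D.π (D.W.lo f i) = (f.1.t, 1) ∧ D.π (D.W.up f i) = G.lo (D.lst (D.fc f)) (iW true)) := by
  have r : D.W.rot f = rho true := congrArg rho (D.O_blue _ (D.a_O _ h.2))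
  obtain ⟨y, e, h1, h2, h3⟩ : ∃ y, D.W.glue f = (y, !(D.lst (D.fc f)).2) ∧
      y.t = (D.lst (D.fc f)).1 ∧ y.a (D.lst (D.fc f)).2 = true ∧
      y.a (!(D.lst (D.fc f)).2) = false := ⟨_, h.gl, rfl, by
    simpa [ver_a, sg] using h.O, by simp [ver_a, sg]⟩
  rcases tri true i with rfl | rfl | rfl
  · simp [lo_T, up_T r, lo_W, e, π, nw, pj_one, pj_blue, nwb_one, nwb_blue, h1, h3]
  · simp [lo_W, up_W r, e, π, nw, pj_zero _ (D.lst (D.fc f)).2, pj_blue, nwb_zero, nwb_blue, h1,
      h2, h3, h.2]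
  · simp [lo_O, up_O r, e, nw, nwb_red, h2, h.2]

/-- both ends of an exit face lie on the top edge of the old tetrahedron -/
theorem FX.same {f : D.WT × Bool} (h : D.FX f) :
    G.SameEdge (f.1.t, 1) (G.lo (D.lst (D.fc f)) (iW true)) := by
  have c : P.tc (D.lst (D.fc f)).1 = true := D.O_blue _ h.O
  have e := D.lst.injective (D.rt_W (D.lst (D.fc f)))
  rw [c, lo_W] at e
  have k := P.conn _ (P.nZ_blue (D.lst (D.fc f)).1 (xor (D.lst (D.fc f)).2 true))
  rw [← D.rt_own _ _ _ (P.nZ_blue _ _), e] at k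
  rw [lo_W]
  exact k.symm _ _

variable (D)

theorem nw_glue (f : D.WT × Bool) (i : Fin 3) : D.nw (D.W.lo f i) ↔ D.nw (D.W.up f i) := by
  rcases D.kinds f with h | h | h
  · exact (h.flag i).2
  · rw [(h.flag i).2.1]
    exact iff_of_false (h.flag i).2.2 (D.nw_o _)
  · exact (h.flag i).elim (fun k => iff_of_true k.1 k.2) fun k => iff_of_false k.1 k.2.1

theorem Z'_glue (f : D.WT × Bool) (i : Fin 3) : D.Z' (D.W.lo f i) ↔ D.Z' (D.W.up f i) := by
  rcases D.kinds f with h | h | h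
  · exact or_congr (h.flag i).2 (by rw [(h.flag i).1])
  · refine or_congr (D.nw_glue f i) ?_
    rw [(h.flag i).1, (h.flag i).2.1, π_o, P.Z_glue]
  · rcases h.flag i with k | ⟨-, -, k1, k2⟩
    · exact iff_of_true (.inl k.1) (.inl k.2)
    · refine or_congr (D.nw_glue f i) ?_
      rw [k1, k2, lo_W]
      exact iff_of_false (P.nZ_one _) (P.nZ_blue _ _)

theorem card_le : Fintype.card G.T ≤ Fintype.card D.W.T :=
  Fintype.card_le_of_injective (fun t => D.ver t fun _ => false) fun _ _ h => congrArg WT.t h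

/-- the labels of the new faces, for a primitive `p` of the old labels -/
def ph {A : Type} [AddCommGroup A] (φ : G.T × Bool → A) (p : G.T × Fin 6 → A)
    (f : D.WT × Bool) : A :=
  if D.FR f then 0 else if f.1.a (!f.2) = false then φ (D.fc f)
  else p (G.lo (D.lst (D.fc f)) (iW true)) - p (f.1.t, 1)

variable {D} {A : Type} [AddCommGroup A] (φ : G.T × Bool → A) (p : G.T × Fin 6 → A)
  {f : D.WT × Bool}

lemma FR.ph (h : D.FR f) : D.ph φ p f = 0 := if_pos h
lemma FE.ph (h : D.FE f) : D.ph φ p f = φ (D.fc f) := by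
  rw [Wd.ph, if_neg h.nR, if_pos h.2]
lemma FX.ph (h : D.FX f) :
    D.ph φ p f = p (G.lo (D.lst (D.fc f)) (iW true)) - p (f.1.t, 1) := by
  rw [Wd.ph, if_neg h.nR, if_neg (by simp [h.2])]

end Wd

end Pool.Agent.Lib.MP_75051e_gt
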