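import Pool.Agent.Lib.MP_75051e_gt.PWdP

/-!
Wedging keeps the cohomology and the module.
-/

set_option autoImplicit false

namespace Pool.Agent.Lib.MP_75051e_gt

open Finset Gluing

namespace Wd

variable {G : Gluing} {P : Pre G} (D : Wd P) {b : ℕ} {φ : G.T × Bool → (Fin b → ℤ)}
  {p : G.T × Fin 6 → (Fin b → ℤ)}

theorem cocZ_W (hp : CocZ P.Z φ p) :
    CocZ (G := D.W) D.Z' (D.ph φ p) fun s => p (D.π s) := by
  intro f i hf
  show p (D.π (D.W.up f i)) = p (D.π (D.W.lo f i)) + D.ph φ p f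
  rcases D.kinds f with h | h | h
  · rw [h.ph, (h.flag i).1, add_zero]
  · obtain ⟨e1, e2, -⟩ := h.flag i
    rw [h.ph, e1, e2, π_o]
    exact hp _ i fun k => hf (.inr (e1 ▸ k))
  · rcases h.flag i with k | ⟨-, -, e1, e2⟩
    · exact absurd (.inl k.1) hf
    · rw [h.ph, e1, e2, add_sub_cancel]

theorem inj_W (h : FreeZ P.Z φ) (ψ : (Fin b → ℤ) →+ ℤ)
    (hψ : IsCoboundary (G := D.W) fun f => ψ (D.ph φ p f)) : ψ = 0 := by
  obtain ⟨q, hq⟩ : ∃ q : D.WT → ℤ, ∀ f, ψ (D.ph φ p f) = q (D.gl f).1 - q f.1 := hψ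
  have key : ∀ t k, q (D.ver t (sg k)) = q (D.ver t fun _ => false) := fun t k => by
    cases e : D.O (t, k)
    · rw [show D.ver t (sg k) = D.ver t fun _ => false from
        D.ext' k rfl (by simp [ver_a, e]) (by simp [ver_a, sg])]
    · have hR : D.FR (D.ver t fun _ => false, k) := ⟨by simp [ver_a], e⟩
      have j := hq (D.ver t fun _ => false, k)
      rw [hR.ph, map_zero, hR.gl] at j
      exact sub_eq_zero.1 j.symm
  refine h.inj ψ ⟨fun t => q (D.ver t fun _ => false), fun g => ?_⟩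
  have j := hq (D.ex g)
  rw [(D.fe_ex g).ph, (D.fe_ex g).gl, fc_ex] at j
  exact j.trans (congrArg₂ _ rfl (key g.1 g.2))

/-- one level down -/
def sjD (x : D.WT) (k : Bool) : D.WT := D.ver x.t fun j => x.a j && !(sg k j)

lemma sj_FR (x : D.WT) {k : Bool} (h : x.a k = true) : D.FR (D.sjD x k, k) :=
  ⟨by simp [sjD, ver_a, sg], D.a_O x h⟩

lemma sj_a (x : D.WT) (k : Bool) : (D.sjD x k).a (!k) = x.a (!k) := by
  have := D.a_O x (k := !k)
  simp only [sjD, ver_a, sg]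
  revert this
  cases k <;> cases x.a _ <;> simp

lemma sj_gl (x : D.WT) {k : Bool} (h : x.a k = true) : D.gl (D.sjD x k, k) = (x, k) := by
  rw [(D.sj_FR x h).gl]
  refine Prod.ext (D.ext' k rfl ?_ ?_) rfl
  · change ((_ || sg k k) && D.O (x.t, k)) = x.a k
    simp [sg, h, D.a_O x h]
  · change (((D.sjD x k).a (!k) || sg k (!k)) && D.O (x.t, !k)) = x.a (!k)
    have := D.a_O x (k := !k)
    rw [sj_a]
    revert this
    cases k <;> cases x.a _ <;> simp [sg]

lemma sj_zero (x : D.WT) {k : Bool} (h : x.a (!k) = false) :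
    D.sjD x k = D.ver x.t fun _ => false :=
  D.ext' k rfl (by simp [sjD, ver_a, sg]) (by rw [sj_a, h]; rfl)

lemma sj_bot (x : D.WT) {k : Bool} (h : x.a k = false) (h' : x.a (!k) = false) :
    x = D.ver x.t fun _ => false := D.ext' k rfl h h'

lemma sj_rot {x : D.WT} {j : Bool} (h : D.O (x.t, j) = true) (k : Bool) :
    D.W.rot (x, k) = rho true := by rw [W_rot, D.O_blue _ h]

/-- the three flags of a blue face -/
lemma sj_slots {x y : D.WT} {j k m : Bool} (h : D.O (x.t, j) = true) (e : D.gl (x, k) = (y, m)) :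
    (D.W.lo (x, k) 0 = (x, 1) ∧ D.W.up (x, k) 0 = (y, sh true m)) ∧
      (D.W.lo (x, k) (iW true) = (x, sh true (!k)) ∧ D.W.up (x, k) (iW true) = (y, 0)) ∧
      D.W.lo (x, k) (iO true) = (x, sh false k) ∧ D.W.up (x, k) (iO true) = (y, sh false m) := by
  have e1 : (D.W.glue (x, k)).1 = y := congrArg Prod.fst e
  have e2 : (D.W.glue (x, k)).2 = m := congrArg Prod.snd e
  refine ⟨⟨lo_T _, (up_T (D.sj_rot h k)).trans ?_⟩, ⟨by cases k <;> rfl,
    (up_W (D.sj_rot h k)).trans ?_⟩, by cases k <;> rfl, (up_O (D.sj_rot h k)).trans ?_⟩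
  exacts [Prod.ext e1 (congrArg (sh true) e2), Prod.ext e1 rfl,
    Prod.ext e1 (congrArg (sh false) e2)]

lemma sj_flags {c : D.WT × Bool → ℤ} {r : D.WT × Fin 6 → ℤ} (hr : CocZ (G := D.W) D.Z' c r)
    {x y : D.WT} {j k m : Bool} (h : D.O (x.t, j) = true) (e : D.gl (x, k) = (y, m)) :
    r (y, sh true m) = r (x, 1) + c (x, k) ∧ r (y, 0) = r (x, sh true (!k)) + c (x, k) ∧
      (¬ D.Z' (y, sh false m) → r (y, sh false m) = r (x, sh false k) + c (x, k)) := by
  obtain ⟨⟨a0, b0⟩, ⟨a1, b1⟩, a2, b2⟩ := D.sj_slots h e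
  have k0 := hr (x, k) 0
  have k1 := hr (x, k) (iW true)
  have k2 := fun z => hr (x, k) (iO true) (mt (D.Z'_glue (x, k) (iO true)).1 z)
  rw [a0, b0] at k0
  rw [a1, b1] at k1
  rw [a2, b2] at k2
  exact ⟨k0 (D.pre.nZ_one x), k1 (D.pre.nZ_blue x _), fun z => k2 fun w => z (b2 ▸ w)⟩

lemma sj_factor {c : D.WT × Bool → ℤ} {F : D.WT × Fin 6 → ℤ} (hF : CocZ (G := D.W) D.Z' c F)
    (hR : ∀ f, D.FR f → c f = 0) (h1 : ∀ x, F (x, 1) = F (D.o (x.t, 1)))
    (s : D.WT × Fin 6) (hs : ¬ D.Z' s) : F s = F (D.o (D.π s)) := by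
  have R : ∀ (x : D.WT) (k : Bool), x.a k = true → F (x, sh true k) = F (D.o (x.t, 1)) ∧
      F (x, 0) = F (D.sjD x k, sh true (!k)) ∧
      (¬ D.Z' (x, sh false k) → F (x, sh false k) = F (D.sjD x k, sh false k)) := fun x k h => by
    have := D.sj_flags hF (x := D.sjD x k) (D.a_O x h) (D.sj_gl x h)
    rw [hR _ (D.sj_FR x h), add_zero, add_zero, add_zero, h1] at this
    exact this
  obtain ⟨x, s⟩ := s
  by_cases h0 : ∀ k, x.a k = false
  · rw [show D.o (D.π (x, s)) = (x, s) from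
      Prod.ext (D.sj_bot x (h0 true) (h0 _)).symm (pj_bot h0 s)]
  obtain ⟨k, h⟩ : ∃ k, x.a k = true := (not_forall.1 h0).imp fun k => by simp
  have hs' := (by decide : ∀ (s : Fin 6) (k : Bool), s = 0 ∨ s = 1 ∨ s = sh true k ∨
    s = sh true (!k) ∨ s = sh false k ∨ s = sh false (!k)) s k
  have blue : ∀ j, x.a j = true → F (x, sh true j) = F (D.o (D.π (x, sh true j))) := fun j e => by
    rw [(R x j e).1, π, pj_blue, if_pos e]
  have red : ∀ j, x.a (!j) = true → D.Z' (x, sh false j) := fun j e =>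
    .inl (by rw [nw, nwb_red]; exact e)
  have zero : x.a (!k) = false → F (x, 0) = F (D.o (x.t, sh true (!k))) := fun e => by
    rw [(R x k h).2.1, D.sj_zero x e]
    rfl
  rcases hs' with rfl | rfl | rfl | rfl | rfl | rfl
  · cases e : x.a (!k)
    · rw [zero e, π, pj_zero _ k, if_pos h, if_neg (by simp [e])]
    · rw [(R x k h).2.1, (R _ _ ((D.sj_a x k).trans e)).1, π, pj_zero _ k, if_pos h, if_pos e]
      rfl
  · exact h1 x
  · exact blue k h
  · cases e : x.a (!k)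
    · obtain ⟨⟨y, m⟩, hf⟩ := Finite.injective_iff_surjective.1 D.gl_inj (x, !k)
      have hx : D.FX (y, m) := by
        rcases D.kinds (y, m) with i | i | i
        · rw [i.gl] at hf
          obtain ⟨e1, e2⟩ := Prod.mk.inj hf
          have e3 : D.O (y.t, m) = true := i.2
          rw [← e1, ← e2] at e
          simp [ver_a, sg, e3] at e
        · rw [i.gl] at hf
          rw [← (Prod.mk.inj hf).1] at h
          exact absurd h (by simp [ver_a])
        · exact i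
      obtain ⟨k0, k1, -⟩ := D.sj_flags hF (D.a_O y hx.2) hf
      rw [k0, h1, ← (R y _ hx.2).1, ← k1, zero e, π, pj_blue, if_neg (by simp [e])]
    · exact blue _ e
  · cases e : x.a (!k)
    · rw [(R x k h).2.2 hs, D.sj_zero x e, π, pj_red]
      rfl
    · exact absurd (red k e) hs
  · exact absurd (red _ (by rwa [Bool.not_not])) hs

/-- the gauge that kills a cocycle on the faces inside an old tetrahedron -/
lemma sj_gauge {c : D.WT × Bool → ℤ} {r : D.WT × Fin 6 → ℤ} (hr : CocZ (G := D.W) D.Z' c r)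
    {f : D.WT × Bool} (h : D.FR f) : c f = (r ((D.gl f).1, 0) - r (D.o (D.π ((D.gl f).1, 0)))) -
      (r (f.1, 0) - r (D.o (D.π (f.1, 0)))) := by
  obtain ⟨x, k⟩ := f
  have e1 := (D.sj_flags hr (x := x) (k := k) h.2 (y := (D.gl (x, k)).1)
    (m := (D.gl (x, k)).2) rfl).2.1
  have e2 := (h.flag (iW true)).1
  obtain ⟨-, ⟨a1, b1⟩, -⟩ := D.sj_slots (x := x) (k := k) h.2 (y := (D.gl (x, k)).1)
    (m := (D.gl (x, k)).2) rfl
  replace e2 : D.π (x, sh true (!k)) = D.π ((D.gl (x, k)).1, 0) :=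
    ((congrArg D.π a1).symm.trans e2).trans (congrArg D.π b1)
  rw [e1, ← e2]
  have hk : x.a k = false := h.1
  cases e : x.a (!k)
  · have h0 : ∀ j, x.a j = false := fun j => by cases j <;> cases k <;> assumption
    have o1 : ∀ s, D.o (D.π (x, s)) = (x, s) := fun s =>
      Prod.ext (D.sj_bot x hk e).symm (pj_bot h0 s)
    simp only [o1]
    ring
  · obtain ⟨k0, k1, -⟩ := D.sj_flags hr (x := D.sjD x (!k)) (D.a_O x e) (D.sj_gl x e)
    rw [D.sj_zero x (k := !k) (by rwa [Bool.not_not]), Bool.not_not] at *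
    simp only [π, pj_blue, pj_zero _ k, e, hk, if_true, Bool.false_eq_true, if_false, o]
    rw [k0, k1]
    ring

theorem surj_W (h : FreeZ P.Z φ) (hp : CocZ P.Z φ p) (c : D.WT × Bool → ℤ)
    (r : D.WT × Fin 6 → ℤ) (hr : CocZ (G := D.W) D.Z' c r) :
    ∃ ψ : (Fin b → ℤ) →+ ℤ, IsCoboundary (G := D.W) fun f => c f - ψ (D.ph φ p f) := by
  obtain ⟨q1, hq⟩ : ∃ q1 : D.WT → ℤ, ∀ x, q1 x = r (x, 0) - r (D.o (D.π (x, 0))) := ⟨_, fun _ => rfl⟩
  obtain ⟨c', hc⟩ : ∃ c' : D.WT × Bool → ℤ, ∀ f, c' f = c f - (q1 (D.gl f).1 - q1 f.1) :=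
    ⟨_, fun _ => rfl⟩
  obtain ⟨F, hF⟩ : ∃ F : D.WT × Fin 6 → ℤ, ∀ s, F s = r s - q1 s.1 -
      (r (D.own' s, 1) - q1 (D.own' s) - r (D.o ((D.own' s).t, 1))) := ⟨_, fun _ => rfl⟩
  have cF : CocZ (G := D.W) D.Z' c' F := fun f i hf => by
    rw [hF, hF, ← D.own'_glue f i hf, hr f i hf, hc]
    change _ - q1 (D.gl f).1 - _ = _ - q1 f.1 - _ + _
    ring
  have F1 : ∀ x, F (x, 1) = r (D.o (x.t, 1)) := fun x => by
    rw [hF, own'_top]
    ring
  have fac := D.sj_factor cF (fun f hf => by rw [hc, hq, hq, ← D.sj_gauge hr hf, sub_self])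
    fun x => (F1 x).trans (F1 (D.ver x.t fun _ => false)).symm
  have c0 : CocZ P.Z (fun g => c' (D.ex g)) fun s => F (D.o s) := fun g i hg => by
    obtain ⟨e1, e2, e3⟩ := (D.fe_ex g).flag i
    rw [fc_ex] at e1 e2
    have l : ¬ D.Z' (D.W.lo (D.ex g) i) := fun z => z.elim e3 fun z => hg (e1 ▸ z)
    have := cF _ i l
    rw [fac _ l, e1, e2] at this
    exact this
  obtain ⟨ψ, q, hψ⟩ := h.surj _ _ c0
  refine ⟨ψ, fun x => q x.t + q1 x, fun f => ?_⟩
  suffices k : c' f - ψ (D.ph φ p f) = q (D.gl f).1.t - q f.1.t by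
    rw [hc] at k
    change _ = q (D.gl f).1.t + q1 (D.gl f).1 - (q f.1.t + q1 f.1)
    linarith
  rcases D.kinds f with i | i | i
  · rw [hc, hq, hq, ← D.sj_gauge hr i, i.ph, map_zero, i.gl, ver_t]
    simp
  · have e : f = D.ex (D.fc f) := Prod.ext (D.ext' f.2 rfl
      (i.1.trans (by simp [ex, fc, ver_a, sg])) (i.2.trans (by simp [ex, fc, ver_a, sg]))) rfl
    rw [i.ph, i.gl]
    have := hψ (D.fc f)
    simp only [← e] at this
    exact this
  · have l : ¬ D.Z' (D.W.lo f 0) := D.pre.nZ_T f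
    obtain ⟨-, -, e1, e2⟩ := (i.flag 0).resolve_left fun z => l (.inl z.1)
    have e3 := cF f 0 l
    rw [fac _ l, fac _ (mt (D.Z'_glue f 0).2 l), e1, e2] at e3
    have e4 := (eq_of_sameZ P.Z_glue (w := fun s => F (D.o s) - ψ (p s) - q s.1) (fun g j hg => by
      have a1 := c0 g j hg
      have a2 := hψ g
      simp only at a1 a2
      rw [a1, hp g j hg, map_add]
      change _ - _ - q g.1 = _ - _ - q (G.glue g).1
      linarith) i.same (P.nZ_one _)).1
    rw [i.ph, i.gl, map_sub, ver_t]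
    change _ - _ - q f.1.t = _ - _ - q (D.lst (D.fc f)).1 at e4
    linarith

theorem freeZ_W (h : FreeZ P.Z φ) (hp : CocZ P.Z φ p) : FreeZ (G := D.W) D.Z' (D.ph φ p) :=
  ⟨⟨_, D.cocZ_W hp⟩, D.surj_W h hp, D.inj_W h⟩

variable {M : Type} [AddCommGroup M] [Module (GR b) M]

theorem sol_W (hp : CocZ P.Z φ p) {v : G.T × Fin 6 → M} (h : Sol P.Z φ v) :
    Sol (G := D.W) D.Z' (D.ph φ p) fun s => (if D.nw s then 0 else 1 : GR b) • v (D.π s) := by
  refine ⟨fun f i => ?_, fun x k => ?_, fun s hs => ?_⟩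
  · rcases D.kinds f with e | e | e
    · rw [e.ph, ee_zero, one_smul, (e.flag i).1, if_congr (e.flag i).2 rfl rfl]
    · obtain ⟨e1, e2, e3⟩ := e.flag i
      rw [e.ph, e1, e2, if_neg e3, if_neg (D.nw_o _), one_smul, one_smul, π_o, h.glue]
    · rcases e.flag i with ⟨e1, e2⟩ | ⟨e1, e2, e3, e4⟩
      · rw [if_pos e1, if_pos e2, zero_smul, zero_smul, smul_zero]
      · rw [e.ph, if_neg e1, if_neg e2, one_smul, one_smul, e3, e4]
        exact h.same P.Z_glue hp e.same (P.nZ_one _)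
  · simp only [nw, π, nwb_zero, nwb_blue, nwb_red, pj_zero _ k, pj_blue, pj_red]
    cases e : WT.a x k <;> cases e' : WT.a x (!k) <;> simp
    · exact h.bot _ k
    · simpa using h.top (c := true) (f := (WT.t x, k))
        (by rw [P.rot_eq, D.O_blue (WT.t x, k) (D.a_O x e)])
  · rcases hs with hs | hs
    · rw [if_pos hs, zero_smul]
    · rw [h.zero _ hs, smul_zero]

lemma exists_FR (x : D.WT) {k : Bool} (h : x.a k = true) :
    ∃ y : D.WT, D.FR (y, k) ∧ D.gl (y, k) = (x, k) ∧ y.a (!k) = x.a (!k) := by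
  have h1 := D.a_O x h
  have h2 := D.a_O x (k := !k)
  have e : D.FR (D.ver x.t fun j => x.a j && xor j k, k) := ⟨by simp [ver_a], h1⟩
  refine ⟨_, e, e.gl.trans (Prod.ext (D.ext' k rfl ?_ ?_) rfl), ?_⟩
  · simp [ver_a, ver_t, sg, h, h1]
  · simpa [ver_a, ver_t, sg] using h2
  · simpa [ver_a, ver_t] using h2

lemma sol_step {w : D.WT × Fin 6 → M} (h : Sol (G := D.W) D.Z' (D.ph φ p) w) {x : D.WT}
    {k : Bool} {f : D.WT × Bool} (hx : x.a k = true) (e : D.FR f) (e' : D.gl f = (x, k))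
    (ih : ∀ j, w (f.1, j) = (if D.nw (f.1, j) then 0 else 1 : GR b) • w (D.o (D.π (f.1, j))))
    (j : Fin 6) : w (x, j) = (if D.nw (x, j) then 0 else 1 : GR b) • w (D.o (D.π (x, j))) := by
  have q : ∀ i, w (D.W.up f i) =
      (if D.nw (D.W.up f i) then 0 else 1 : GR b) • w (D.o (D.π (D.W.up f i))) := fun i => by
    have := h.glue f i
    rw [e.ph, ee_zero, one_smul] at this
    rw [← this, ← (e.flag i).1, ← if_congr (e.flag i).2 rfl rfl]
    exact ih _
  have r : D.W.rot f = rho true := congrArg rho (D.O_blue _ e.2)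
  have r' : D.W.rot (x, !k) = rho true := congrArg rho (D.O_blue (x.t, k) (D.a_O x hx))
  have q1 := q 0
  have q2 := q (iW true)
  have q3 := q (iO true)
  rw [up_T r, W_glue, e'] at q1
  rw [up_W r, W_glue, e'] at q2
  rw [up_O r, W_glue, e'] at q3
  have n : D.nw (x, sh false (!k)) := by rw [nw, nwb_red, Bool.not_not, hx]
  have z : w (x, sh false (!k)) = 0 := h.zero _ (.inl n)
  have b1 : w (x, 0) = w (x, sh true (!k)) + w (x, sh false (!k)) := h.bot x (!k)
  have b2 : w (x, sh true k) = w (x, 1) + w (x, sh false (!k)) := by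
    cases k <;> exact h.top r'
  replace q1 : w (x, sh true k) = (if D.nw (x, sh true k) then 0 else 1 : GR b) •
    w (D.o (D.π (x, sh true k))) := q1
  replace q2 : w (x, 0) = (if D.nw (x, 0) then 0 else 1 : GR b) • w (D.o (D.π (x, 0))) := q2
  rw [z, add_zero] at b1 b2
  rcases (by decide : ∀ (k : Bool) (j : Fin 6), j = 0 ∨ j = 1 ∨ j = sh true k ∨ j = sh false k ∨
    j = sh true (!k) ∨ j = sh false (!k)) k j with rfl | rfl | rfl | rfl | rfl | rfl
  · exact q2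
  · rw [← b2, q1]
    simp [nw, π, nwb_one, nwb_blue, pj_one, pj_blue, hx]
  · exact q1
  · exact q3
  · rw [← b1, q2]
    simp [nw, π, nwb_zero, nwb_blue, pj_zero _ k, pj_blue, hx]
  · rw [z, if_pos n, zero_smul]

theorem sol_π {w : D.WT × Fin 6 → M} (h : Sol (G := D.W) D.Z' (D.ph φ p) w)
    (s : D.WT × Fin 6) : w s = (if D.nw s then 0 else 1 : GR b) • w (D.o (D.π s)) := by
  have a1 : ∀ x : D.WT, x.a false = false → ∀ j,
      w (x, j) = (if D.nw (x, j) then 0 else 1 : GR b) • w (D.o (D.π (x, j))) := by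
    have a0 : ∀ x : D.WT, x.a true = false → x.a false = false → ∀ j,
        w (x, j) = (if D.nw (x, j) then 0 else 1 : GR b) • w (D.o (D.π (x, j))) := fun x e e' j => by
      rw [show (x, j) = D.o (x.t, j) from Prod.ext (D.ext' true rfl e e') rfl, if_neg (D.nw_o _),
        one_smul, π_o]
    intro x e
    cases e' : x.a true
    · exact a0 x e' e
    · obtain ⟨y, h1, h2, h3⟩ := D.exists_FR x e'
      exact D.sol_step h e' h1 h2 (a0 y h1.1 (h3.trans e))
  obtain ⟨x, j⟩ := s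
  cases e : x.a false
  · exact a1 x e j
  · obtain ⟨y, h1, h2, -⟩ := D.exists_FR x e
    exact D.sol_step h e h1 h2 (a1 y h1.1) j

theorem sol_o {w : D.WT × Fin 6 → M} (h : Sol (G := D.W) D.Z' (D.ph φ p) w) :
    Sol P.Z φ fun s => w (D.o s) := by
  refine ⟨fun g i => ?_, fun t k => h.bot _ k, fun s hs => h.zero _ (.inr ((D.π_o s).symm ▸ hs))⟩
  obtain ⟨e1, e2, e3⟩ := (D.fe_ex g).flag i
  have := h.glue (D.ex g) i
  rwa [D.sol_π h, if_neg e3, one_smul, e1, e2, (D.fe_ex g).ph] at this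

theorem pres_W (hp : CocZ P.Z φ p) {v : G.T × Fin 6 → M} (h : Pres P.Z φ v) :
    Pres (G := D.W) D.Z' (D.ph φ p) fun s => (if D.nw s then 0 else 1 : GR b) • v (D.π s) :=
  h.transfer (G' := D.W) D.o D.π (fun s => if D.nw s then 0 else 1)
    (fun s => by rw [if_neg (D.nw_o s), one_smul, π_o]) (D.sol_W hp h.sol)
    fun _ _ _ _ hw => ⟨D.sol_o hw, D.sol_π hw⟩

end Wd

/-- A blue tetrahedron `Y` whose two red edges of angle 0 are the two dead edges. -/
structure Cut {G : Gluing} (P : Pre G) where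
  Y : G.T
  tc_Y : P.tc Y = true
  bc_Y : P.bc Y = true
  Z_Y : ∀ j, P.Z (Y, sh false j)
  lab : G.T × Fin 6 → Bool
  lab_glue : ∀ f i, P.Z (G.lo f i) → lab (G.lo f i) = lab (G.up f i)
  lab_Y : ∀ j, lab (Y, sh false j) = j
  same : ∀ s, P.Z s → G.SameEdge s (Y, sh false (lab s))

/-- two wedges give a cut -/
theorem exists_cut_of {G : Gluing} {P : Pre G} (hZ : ∀ s, ¬ P.Z s) (D : Wd P) (D' : Wd D.pre)
    (h : D'.g0 = (D.X, !D.g0.2)) : Nonempty (Cut D'.pre) := by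
  have hO := D'.O_g0
  have ht : D'.X.t = D.X := congrArg Prod.fst h
  have ha : ∀ j, D'.X.a j = xor j D.g0.2 := fun j => by
    have h2 : D.g0.2 = !D'.g0.2 := by rw [h, Bool.not_not]
    rw [Wd.X, Wd.ver_a, h2]
    by_cases e : j = D'.g0.2
    · rw [e, hO]
      simp [sg]
    · rw [Bool.eq_not.2 e]
      simp [sg]
  have hn : ∀ j, D'.nw (D'.X, sh false j) ↔ j = D.g0.2 := fun j => by
    rw [Wd.nw, nwb_red, ha]
    cases j <;> cases D.g0.2 <;> simp
  have hπ : D'.π (D'.X, sh false (!D.g0.2)) = (D.X, sh false (!D.g0.2)) :=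
    Prod.ext ht (pj_red _ _)
  have hX : D.nw (D.X, sh false (!D.g0.2)) := by
    simpa [Wd.nw, nwb_red, Wd.X, Wd.ver_a, sg] using D.O_g0
  refine ⟨⟨D'.X, D'.O_blue _ hO, ?_, fun j => ?_, fun s => if D'.nw s then D.g0.2 else !D.g0.2,
    fun f i _ => ?_, fun j => ?_, fun s hs => ?_⟩⟩
  · refine if_neg ?_
    rw [ha, ha]
    cases D.g0.2 <;> simp
  · by_cases e : j = D.g0.2
    · exact .inl ((hn j).2 e)
    · obtain rfl : j = !D.g0.2 := Bool.eq_not.2 e
      exact .inr (hπ ▸ .inl hX)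
  · exact if_congr (D'.nw_glue f i) rfl rfl
  · refine (if_congr (hn j) rfl rfl).trans ?_
    cases j <;> cases D.g0.2 <;> simp
  · by_cases e : D'.nw s
    · have k := D'.same_nw s e
      rwa [h, Bool.not_not, ← if_pos (t := D.g0.2) (e := !D.g0.2) e] at k
    · have z : D.Z' (D'.π s) := hs.resolve_left e
      have k1 := D'.same_π s e z
      have k2 := D'.same_o z (D.same_nw _ (z.resolve_right (hZ _)))
      have k3 := D'.same_π (D'.X, sh false (!D.g0.2)) (by simp [hn]) (hπ ▸ .inl hX)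
      rw [hπ] at k3
      rw [if_neg e]
      exact k1.trans _ _ _ (k2.trans _ _ _ (k3.symm _ _))

theorem exists_cut {G : Gluing} (hG : G.IsVeering) {b : ℕ} {φ : G.T × Bool → (Fin b → ℤ)}
    (hφ : IsFreeAb φ) : ∃ (B : Gluing) (P : Pre B) (_ : Cut P) (φ' : B.T × Bool → (Fin b → ℤ))
      (v : B.T × Fin 6 → TautModule φ), FreeZ P.Z φ' ∧ Pres P.Z φ' v ∧
      Fintype.card G.T ≤ Fintype.card B.T := by
  obtain ⟨P, hZ⟩ := pre_of_veering hG
  obtain ⟨t⟩ := hG.nonempty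
  obtain ⟨D, hD⟩ := exists_wd P (P.own (t, sh true false), false)
    (P.tc_own t true false (hZ _))
  obtain ⟨D', hD'⟩ := exists_wd D.pre (D.X, !D.g0.2) (D.O_blue _ D.O_g0)
  obtain ⟨C⟩ := exists_cut_of hZ D D' hD'
  have h0 := (freeZ_iff hZ).2 hφ
  obtain ⟨p, hp⟩ := h0.coc
  have h1 := D.freeZ_W h0 hp
  have h2 := D.cocZ_W hp
  exact ⟨D'.W, D'.pre, C, _, _, D'.freeZ_W h1 h2, D'.pres_W h2 (D.pres_W hp (pres_taut hZ)),
    D.card_le.trans D'.card_le⟩

end Pool.Agent.Lib.MP_75051e_gt
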