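import Pool.Agent.Lib.MP_75051e_gt.PWd

/-!
Wedging: the owners of the new edges, and the loops of dead edges.
-/

set_option autoImplicit false

namespace Pool.Agent.Lib.MP_75051e_gt

open Finset Gluing

namespace Wd

variable {G : Gluing} {P : Pre G} (D : Wd P)

/-- the level of the owner of an edge of the tetrahedron over `t` of level `a` -/
def lev (t : G.T) (a : Bool → Bool) : Fin 6 → Bool → Bool :=
  ![if a false then (if a true then fun _ => false else sg (D.rt (t, 5)).2)
      else if a true then sg (D.rt (t, 3)).2 else fun _ => true,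
    a, sg (D.rt (t, 2)).2,
    if a false then (fun j => a j && j) else if a true then fun _ => true else sg (D.rt (t, 3)).2,
    sg (D.rt (t, 4)).2,
    if a true then (fun j => a j && !j) else if a false then fun _ => true else sg (D.rt (t, 5)).2]

lemma lev_one (t : G.T) (a : Bool → Bool) : D.lev t a 1 = a := rfl
lemma lev_red (t : G.T) (a : Bool → Bool) (j : Bool) :
    D.lev t a (sh false j) = sg (D.rt (t, sh false j)).2 := by cases j <;> rfl
lemma lev_blue (t : G.T) (a : Bool → Bool) (j : Bool) : D.lev t a (sh true j) =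
    if a j then (fun i => a i && xor i j) else if a (!j) then fun _ => true
    else sg (D.rt (t, sh true j)).2 := by
  cases j <;> simp [lev, sh]
lemma lev_zero (t : G.T) (a : Bool → Bool) (k : Bool) : D.lev t a 0 =
    if a k then (if a (!k) then fun _ => false else sg (D.rt (t, sh true (!k))).2)
    else if a (!k) then sg (D.rt (t, sh true k)).2 else fun _ => true := by
  cases k <;> cases h : a false <;> cases h' : a true <;> simp [lev, sh, h, h']

/-- the owners of the new edges -/
def own' (s : D.WT × Fin 6) : D.WT := D.ver (P.own (D.π s)) (D.lev s.1.t s.1.a s.2)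

theorem own'_top (x : D.WT) : D.own' (x, 1) = x := by
  rw [own', π, pj_one, P.own_top, lev_one]
  exact D.ver_self x

lemma own'_lo (f : D.WT × Bool) : D.own' (D.W.lo f 0) = f.1 := by
  rw [lo_T]
  exact D.own'_top f.1

lemma ver_congr (t : G.T) {a a' : Bool → Bool} (k : Bool)
    (h1 : (a k && D.O (t, k)) = (a' k && D.O (t, k)))
    (h2 : (a (!k) && D.O (t, !k)) = (a' (!k) && D.O (t, !k))) : D.ver t a = D.ver t a' :=
  D.ext' k rfl h1 h2

lemma lev_bot (t : G.T) {a : Bool → Bool} (h : ∀ j, a j = false) (c j : Bool) :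
    D.lev t a (sh c j) = sg (D.rt (t, sh c j)).2 := by
  cases c
  · exact D.lev_red ..
  · rw [lev_blue, h, h]; rfl

lemma own'_o (t : G.T) (c j : Bool) :
    D.own' (D.o (t, sh c j)) = D.ver (P.own (t, sh c j)) (sg (D.rt (t, sh c j)).2) := by
  rw [own', π_o]
  exact congrArg _ (D.lev_bot t (fun _ => rfl) c j)

lemma own'_o_zero (t : G.T) : D.own' (D.o (t, 0)) = D.ver (P.own (t, 0)) fun _ => true := by
  rw [own', π_o]
  rfl

lemma own'_FR {f : D.WT × Bool} (h : D.FR f) (i : Fin 3) :
    D.own' (D.W.lo f i) = D.own' (D.W.up f i) := by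
  have r : D.W.rot f = rho true := congrArg rho (D.O_blue _ h.2)
  obtain ⟨y, e, h1, h2, h3⟩ : ∃ y, D.W.glue f = (y, f.2) ∧ y.t = f.1.t ∧ y.a f.2 = true ∧
      y.a (!f.2) = f.1.a (!f.2) := ⟨_, h.gl, rfl, by simp [ver_a, sg, h.2], by
    simpa [ver_a, sg] using D.a_O f.1 (k := !f.2)⟩
  have h0 := h.1
  rw [own', own', (h.flag i).1]
  refine congrArg _ ?_
  obtain ⟨x, k⟩ := f
  dsimp only at h0 h1 h2 h3 e
  rcases tri true i with rfl | rfl | rfl
  · rw [lo_T, up_T r, e, lev_one, lev_blue]
    funext j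
    revert h0 h2 h3
    cases j <;> cases k <;> simp +contextual
  · rw [lo_W, up_W r, e, lev_blue, lev_zero _ _ _ k]
    cases h4 : x.a (!k)
    · simp [h0, h1, h2, h3, h4]
    · funext j
      revert h0 h2 h3 h4
      cases j <;> cases k <;> simp +contextual
  · rw [lo_O, up_O r, e]
    simp [lev_red, h1]

lemma own'_FE {f : D.WT × Bool} (h : D.FE f) (i : Fin 3) (hz : ¬ D.Z' (D.W.lo f i)) :
    D.own' (D.W.lo f i) = D.own' (D.W.up f i) := by
  obtain ⟨e1, e2, -⟩ := h.flag i
  have z : ¬ P.Z (G.lo (D.fc f) i) := fun k => hz (.inr (e1 ▸ k))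
  have ho := P.own_glue _ _ z
  have r := P.rot_eq (D.fc f)
  obtain ⟨h1, h2⟩ := h
  rw [e2]
  rcases tri (P.tc (D.fc f).1) i with rfl | rfl | rfl
  · have k := D.rt_T (D.fc f)
    rw [lo_T, P.own_top] at ho
    rw [up_T r] at k ho ⊢
    rw [own'_o, k, ← ho, own'_lo]
    exact D.ext' f.2 rfl (by simp [ver_a, sg, fc, h1]) (by simp [ver_a, sg, fc, h2])
  · have k := D.rt_W (D.fc f)
    rw [up_W r] at ho ⊢
    rw [own'_o_zero, own', e1, ← ho]
    rw [lo_W] at k z ⊢
    have u := D.rt_own _ _ _ z
    have c := P.tc_own _ _ _ z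
    cases hc : P.tc (D.fc f).1
    · have n : ∀ j, D.O (P.own ((D.fc f).1, sh false (xor (D.fc f).2 false)), j) = false :=
        fun j => by
          rw [hc] at c
          exact Bool.eq_false_iff.2 fun e => absurd ((D.O_blue _ e).symm.trans c) (by decide)
      exact D.ver_congr _ false (by rw [n]; simp) (by rw [n]; simp)
    · rw [hc] at k u
      rw [lo_W, lev_blue]
      simp only [fc, Bool.xor_true, Bool.not_not] at k u ⊢
      cases ha : f.1.a f.2
      · have m := D.O_lst (D.rt (f.1.t, sh true (!f.2))).1 (D.rt (f.1.t, sh true (!f.2))).2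
        rw [Prod.mk.eta, k, ← h1, ha, u] at m
        simp only [h2]
        exact D.ver_congr _ (D.rt (f.1.t, sh true (!f.2))).2 (by simp [sg]) (by simp [← m])
      · simp [h2]
  · have k := D.rt_O (D.fc f) z
    rw [up_O r] at k ho ⊢
    rw [own'_o, k, ← ho, own', e1]
    refine congrArg _ ?_
    rw [lo_O, lo_O]
    cases hc : P.tc (D.fc f).1
    · refine D.lev_bot f.1.t (a := f.1.a) (fun j => Bool.eq_false_iff.2 fun e => ?_) true _
      exact absurd ((D.O_blue _ (D.a_O _ e)).symm.trans hc) (by decide)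
    · exact D.lev_red ..

lemma own'_FX {f : D.WT × Bool} (h : D.FX f) (i : Fin 3) (hz : ¬ D.Z' (D.W.lo f i)) :
    D.own' (D.W.lo f i) = D.own' (D.W.up f i) := by
  have r : D.W.rot f = rho true := congrArg rho (D.O_blue _ (D.a_O _ h.2))
  obtain ⟨y, e, h1, h2, h3⟩ : ∃ y, D.W.glue f = (y, !(D.lst (D.fc f)).2) ∧
      y.t = (D.lst (D.fc f)).1 ∧ y.a (D.lst (D.fc f)).2 = true ∧
      y.a (!(D.lst (D.fc f)).2) = false := ⟨_, h.gl, rfl, by
    simpa [ver_a, sg] using h.O, by simp [ver_a, sg]⟩
  have c : P.tc (D.lst (D.fc f)).1 = true := D.O_blue _ h.O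
  have k := D.lst.injective (D.rt_W (D.lst (D.fc f)))
  rw [c, lo_W, Bool.xor_true] at k
  have u := D.rt_own _ _ _ (P.nZ_blue (D.lst (D.fc f)).1 (!(D.lst (D.fc f)).2))
  rw [k] at u
  have hO := D.a_O _ h.2
  rcases tri true i with rfl | rfl | rfl
  · rw [own'_lo, up_T r, e, own', π, pj_blue, lev_blue]
    simp only [h1, h2, h3, Bool.not_not, if_true, Bool.false_eq_true, if_false, ← u]
    exact D.ext' f.2 rfl (by simp [ver_a, fc, h.1]) (by simp [ver_a, fc, h.2, hO])
  · rw [lo_W, up_W r, e, own', own', π, π, pj_blue, lev_blue, pj_zero _ (D.lst (D.fc f)).2,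
      lev_zero _ _ _ (D.lst (D.fc f)).2]
    simp only [h1, h2, h3, h.2, Bool.xor_true, if_true, Bool.false_eq_true, if_false, ← u, k,
      P.own_top]
    exact D.ver_congr _ f.2 (by simp [sg, fc, h.1]) (by simp [sg, fc])
  · refine absurd (Or.inl ?_) hz
    simp [lo_O, nw, nwb_red, h.2]

theorem own'_glue (f : D.WT × Bool) (i : Fin 3) (h : ¬ D.Z' (D.W.lo f i)) :
    D.own' (D.W.lo f i) = D.own' (D.W.up f i) := by
  rcases D.kinds f with k | k | k
  exacts [D.own'_FR k i, D.own'_FE k i h, D.own'_FX k i h]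

lemma bc_gl (f : D.WT × Bool) :
    (if (D.gl f).1.a false = false ∧ (D.gl f).1.a true = false then P.bc (D.gl f).1.t else true) =
      P.tc f.1.t := by
  have n : ∀ (y : D.WT) (k : Bool), y.a k = true → ¬ (y.a false = false ∧ y.a true = false) :=
    fun y k e => by cases k <;> simp [e]
  rcases D.kinds f with h | h | h
  · rw [if_neg (n _ f.2 (by simp [h.gl, ver_a, sg, h.2]))]
    exact (D.O_blue _ h.2).symm
  · rw [h.gl, if_pos ⟨rfl, rfl⟩]
    exact P.bc_glue (D.fc f)
  · rw [if_neg (n _ (D.lst (D.fc f)).2 (by simpa [h.gl, ver_a, sg] using h.O))]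
    exact (D.O_blue _ (D.a_O _ h.2)).symm

/-- the colours of the wedged gluing -/
def col' : Col D.W where
  tc x := P.tc x.t
  bc x := if x.a false = false ∧ x.a true = false then P.bc x.t else true
  rot_eq _ := rfl
  bc_glue f := by
    exact D.bc_gl f

lemma conn_up (f : D.WT × Bool) (i : Fin 3) (h : ¬ D.Z' (D.W.lo f i))
    (k : D.W.SameEdge (D.W.lo f i) (D.own' (D.W.lo f i), 1)) :
    D.W.SameEdge (D.W.up f i) (D.own' (D.W.up f i), 1) := by
  rw [← D.own'_glue f i h]
  exact ((same_glue (G := D.W) f i).symm _ _).trans _ _ _ k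

lemma conn_T (f : D.WT × Bool) : D.W.SameEdge (D.W.up f 0) (D.own' (D.W.up f 0), 1) := by
  refine D.conn_up f 0 ?_ ?_
  · rw [lo_T]
    rintro (k | k)
    · exact absurd k (by simp [nw, nwb_one])
    · exact P.nZ_one _ k
  · rw [own'_lo, lo_T]
    exact .refl _

lemma nZ_o {s : G.T × Fin 6} (h : ¬ P.Z s) : ¬ D.Z' (D.o s) :=
  fun k => k.elim (D.nw_o s) fun e => h (D.π_o s ▸ e)

lemma nZ_o' {s : G.T × Fin 6} (h : ¬ D.Z' (D.o s)) : ¬ P.Z s :=
  fun k => h (.inr (by rwa [π_o]))

/-- from level zero to the level with a single index, along a red edge -/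
lemma conn_red {t : G.T} {k : Bool} (hO : D.O (t, k) = true) (h : ¬ P.Z (t, sh false k))
    (e : D.W.SameEdge (D.o (t, sh false k)) (D.own' (D.o (t, sh false k)), 1)) :
    D.W.SameEdge (D.ver t (sg k), sh false k) (D.own' (D.ver t (sg k), sh false k), 1) := by
  have hR : D.FR (D.o (t, k)) := ⟨rfl, hO⟩
  have r : D.W.rot (D.o (t, k)) = rho true := congrArg rho (D.O_blue _ hO)
  have e1 : D.W.lo (D.o (t, k)) (iO true) = D.o (t, sh false k) := by
    rw [lo_O, Bool.not_true, Bool.xor_false]
    rfl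
  have e2 : D.W.up (D.o (t, k)) (iO true) = (D.ver t (sg k), sh false k) := by
    rw [up_O r, W_glue, hR.gl]
    rfl
  have := D.conn_up (D.o (t, k)) (iO true) (e1 ▸ D.nZ_o h) (e1 ▸ e)
  rwa [e2] at this

lemma conn_o (t : G.T) (c k : Bool) (h : ¬ P.Z (t, sh c k)) :
    D.W.SameEdge (D.o (t, sh c k)) (D.own' (D.o (t, sh c k)), 1) := by
  refine D.ind (fun s => D.W.SameEdge (D.o s) (D.own' (D.o s), 1)) (fun f => ?_)
    (fun f z ih => ?_) t c k h
  · have := D.conn_T (D.ex f)
    rwa [((D.fe_ex f).flag 0).2.1] at this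
  · obtain ⟨e1, e2, e3⟩ := (D.fe_ex f).flag (iO (P.tc f.1))
    rw [fc_ex] at e1 e2
    rw [← e2]
    refine D.conn_up _ _ (fun k => k.elim e3 fun e => z (e1 ▸ e)) ?_
    cases hO : D.O f
    · rw [show D.ex f = D.o f from
        Prod.ext (D.ver_congr _ f.2 (by simp [hO]) (by simp [sg])) rfl]
      exact ih
    · rw [D.O_blue _ hO, lo_O] at z ih
      rw [D.O_blue _ hO, lo_O]
      simp only [Bool.not_true, Bool.xor_false] at z ih ⊢
      exact D.conn_red hO z ih

theorem conn' (s : D.WT × Fin 6) (h : ¬ D.Z' s) : D.W.SameEdge s (D.own' s, 1) := by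
  refine conn_of_sh D.col' D.Z'_glue D.own'_top D.own'_glue (fun x c k z => ?_) s h
  have bot : x.a k = false → x.a (!k) = false → (x, sh c k) = D.o (x.t, sh c k) :=
    fun h1 h2 => Prod.ext (D.ext' k rfl h1 h2) rfl
  have zo : (x, sh c k) = D.o (x.t, sh c k) → D.W.SameEdge (x, sh c k) (D.own' (x, sh c k), 1) :=
    fun e => by
      have := D.conn_o x.t c k fun j => D.nZ_o' (e ▸ z) j
      rwa [← e] at this
  cases c
  · have h2 : x.a (!k) = false := by simpa [nw, nwb_red] using fun j => z (.inl j)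
    cases h1 : x.a k
    · exact zo (bot h1 h2)
    · have hO := D.a_O x h1
      have z' : ¬ P.Z (x.t, sh false k) := fun j => z (.inr (by rwa [π, pj_red]))
      have := D.conn_red hO z' (D.conn_o _ _ _ z')
      rwa [show D.ver x.t (sg k) = x from
        D.ext' k rfl (by simp [ver_a, sg, h1, hO]) (by simp [ver_a, sg, h2])] at this
  · by_cases e : x.a false = false ∧ x.a true = false
    · exact zo (bot (by cases k <;> simp [e]) (by cases k <;> simp [e]))
    · have b := D.col'.bc_glue (D.W.glue.symm (x, k))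
      rw [Equiv.apply_symm_apply] at b
      have r : D.W.rot (D.W.glue.symm (x, k)) = rho true :=
        congrArg rho (b.symm.trans (if_neg e))
      have := D.conn_T (D.W.glue.symm (x, k))
      rwa [up_T r, Equiv.apply_symm_apply] at this

lemma link_down (x : D.WT) (k : Bool) : Relation.EqvGen (fun a b => ∃ k, b = (D.W.glue (a, k)).1)
    (D.ver x.t fun j => x.a j && xor j k) x := by
  have n := D.a_O x (k := !k)
  cases h : x.a k
  · rw [show (D.ver x.t fun j => x.a j && xor j k) = x from
      D.ext' k rfl (by simp [ver_a, h]) (by simpa [ver_a] using n)]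
    exact .refl _
  · have hO := D.a_O x h
    have hR : D.FR (D.ver x.t fun j => x.a j && xor j k, k) := ⟨by simp [ver_a], hO⟩
    refine .rel _ _ ⟨k, Eq.trans ?_ (congrArg Prod.fst hR.gl).symm⟩
    refine D.ext' k rfl (by simp [ver_a, ver_t, sg, h, hO]) ?_
    revert n
    cases k <;> simp [ver_a, ver_t, sg]

lemma link_bot (x : D.WT) : Relation.EqvGen (fun a b => ∃ k, b = (D.W.glue (a, k)).1)
    (D.ver x.t fun _ => false) x := by
  have e := D.link_down (D.ver x.t fun j => x.a j && xor j false) true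
  rw [show (D.ver (D.ver x.t fun j => x.a j && xor j false).t fun j =>
      (D.ver x.t fun j => x.a j && xor j false).a j && xor j true) = D.ver x.t fun _ => false from
    D.ext' false rfl (by simp [ver_a]) (by simp [ver_a])] at e
  exact e.trans _ _ _ (D.link_down x false)

theorem link' (x y : D.WT) :
    Relation.EqvGen (fun a b => ∃ k, b = (D.W.glue (a, k)).1) x y := by
  have key : ∀ t t', Relation.EqvGen (fun a b => ∃ k, b = (G.glue (a, k)).1) t t' →
      Relation.EqvGen (fun a b => ∃ k, b = (D.W.glue (a, k)).1)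
        (D.ver t fun _ => false) (D.ver t' fun _ => false) := fun t t' h => by
    induction h with
    | rel a b r =>
      obtain ⟨k, rfl⟩ := r
      refine (D.link_bot (D.ex (a, k)).1).trans _ _ _ (.rel _ _ ⟨k, ?_⟩)
      exact (congrArg Prod.fst (D.fe_ex (a, k)).gl).symm
    | refl => exact .refl _
    | symm _ _ _ ih => exact ih.symm _ _
    | trans _ _ _ _ _ i j => exact i.trans _ _ _ j
  exact ((D.link_bot x).symm _ _).trans _ _ _
    ((key _ _ (P.link x.t y.t)).trans _ _ _ (D.link_bot y))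

/-- the wedged gluing with its dead edges -/
def pre : Pre D.W where
  toCol := D.col'
  Z := D.Z'
  Z_glue := D.Z'_glue
  Z_red s h := by
    have k1 : ∀ (a : Bool → Bool) (s : Fin 6), nwb a s = true → ∃ j, s = sh false j := by decide
    have k2 : ∀ (a : Bool → Bool) (s : Fin 6) (j : Bool), pj a s = sh false j →
      s = sh false j := by decide
    exact h.elim (k1 _ _) fun e => (P.Z_red _ e).imp (k2 _ _)
  own := D.own'
  own_top := D.own'_top
  own_glue := D.own'_glue
  conn := D.conn'
  link := D.link'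

/-- the new tetrahedron on the first face of the cycle -/
def X : D.WT := D.ver D.g0.1 (sg D.g0.2)

/-- the red identification across a blue face -/
lemma same_red {f : D.WT × Bool} (h : P.tc f.1.t = true) :
    D.W.SameEdge (f.1, sh false f.2) ((D.gl f).1, sh false (D.gl f).2) := by
  have k := same_glue (G := D.W) f (iO true)
  rw [lo_O, up_O (c := true) (by rw [W_rot, h])] at k
  simpa [W_glue] using k

/-- one level up along a red edge -/
lemma same_red_up (x : D.WT) (k : Bool) (h : x.a k = true) :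
    D.W.SameEdge (D.ver x.t fun j => x.a j && xor j k, sh false k) (x, sh false k) := by
  have hO := D.a_O x h
  have hR : D.FR (D.ver x.t fun j => x.a j && xor j k, k) := ⟨by simp [ver_a], hO⟩
  have e := D.same_red (f := (D.ver x.t fun j => x.a j && xor j k, k)) (D.O_blue _ hO)
  rw [hR.gl] at e
  convert e using 2
  refine D.ext' k rfl (by simp [ver_a, ver_t, sg, h, hO]) ?_
  have := D.a_O x (k := !k)
  revert this
  cases k <;> simp [ver_a, ver_t, sg]

lemma same_nw_sg (x : D.WT) (m : Bool) (h : x.a m = true) :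
    D.W.SameEdge (x, sh false (!m)) (D.ver x.t (sg m), sh false (!m)) := by
  have hO := D.a_O x h
  cases e : x.a (!m)
  · rw [show D.ver x.t (sg m) = x from
      D.ext' m rfl (by simp [ver_a, sg, h, hO]) (by simp [ver_a, sg, e])]
    exact .refl _
  · have k := D.same_red_up x (!m) e
    rw [show (D.ver x.t fun j => x.a j && xor j (!m)) = D.ver x.t (sg m) from
      D.ext' m rfl (by simp [ver_a, sg, h]) (by simp [ver_a, sg])] at k
    exact k.symm _ _

theorem same_nw (s : D.WT × Fin 6) (h : D.nw s) :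
    D.W.SameEdge s (D.X, sh false (!D.g0.2)) := by
  have key := D.O_ind (fun g => D.W.SameEdge (D.ver g.1 (sg g.2), sh false (!g.2))
    (D.X, sh false (!D.g0.2))) (.refl _) fun t k hO ih => by
      have hX : D.FX (D.ver t fun _ => true, k) :=
        ⟨by simp [ver_a, ver_t], by simp [ver_a, hO]⟩
      have e := D.same_red (f := (D.ver t fun _ => true, k)) (D.O_blue _ hO)
      have e' := D.same_nw_sg (D.ver t fun _ => true) (!k) hX.2
      rw [hX.gl] at e
      rw [Bool.not_not] at e' ih
      exact (e.symm _ _).trans _ _ _ (e'.trans _ _ _ ih)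
  obtain ⟨x, j⟩ := s
  obtain ⟨m, rfl, hm⟩ : ∃ m, j = sh false (!m) ∧ x.a m = true := by
    rcases slot_cases false j with rfl | rfl | rfl | rfl | rfl | rfl
    · exact absurd h (by simp [nw, nwb_zero])
    · exact absurd h (by simp [nw, nwb_one])
    · exact ⟨true, rfl, h⟩
    · exact ⟨false, rfl, h⟩
    · exact absurd h (by simp [nw, nwb_blue])
    · exact absurd h (by simp [nw, nwb_blue])
  exact (D.same_nw_sg x m hm).trans _ _ _ (key (x.t, m) (D.a_O x hm))

theorem same_π (s : D.WT × Fin 6) (h : ¬ D.nw s) (hs : P.Z (D.π s)) :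
    D.W.SameEdge s (D.o (D.π s)) := by
  obtain ⟨x, j⟩ := s
  obtain ⟨m, rfl⟩ : ∃ m, j = sh false m := by
    have b : ∀ m, ¬ P.Z (D.π (x, sh true m)) := fun m => by
      rw [π, pj_blue]
      split_ifs
      exacts [P.nZ_one _, P.nZ_blue _ _]
    rcases slot_cases false j with rfl | rfl | rfl | rfl | rfl | rfl
    · refine absurd hs ?_
      rw [π, pj_zero _ false]
      split_ifs
      exacts [P.nZ_one _, P.nZ_blue _ _, P.nZ_blue _ _, P.nZ_zero _]
    · exact absurd hs (P.nZ_one _)
    · exact ⟨_, rfl⟩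
    · exact ⟨_, rfl⟩
    · exact absurd hs (b _)
    · exact absurd hs (b _)
  have h' : x.a (!m) = false := by simpa [nw, nwb_red] using h
  rw [π, pj_red]
  cases e : x.a m
  · rw [show D.o (x.t, sh false m) = (x, sh false m) from
      Prod.ext (D.ext' m rfl (by simp [o, ver_a, e]) (by simp [o, ver_a, h'])) rfl]
    exact .refl _
  · have k := D.same_red_up x m e
    rw [show (D.ver x.t fun j => x.a j && xor j m) = D.ver x.t fun _ => false from
      D.ext' m rfl (by simp [ver_a]) (by simp [ver_a, h'])] at k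
    exact k.symm _ _

theorem same_o {a b : G.T × Fin 6} (ha : P.Z a) (h : G.SameEdge a b) :
    D.W.SameEdge (D.o a) (D.o b) := by
  refine cl_eq.1 (eq_of_sameZ (Z := fun s => ¬ P.Z s) (fun f i => (P.Z_glue f i).not)
    (w := fun s => cl D.W (D.o s)) (fun f i hf => ?_) h (not_not.2 ha)).1
  obtain ⟨e1, e2, e3⟩ := (D.fe_ex f).flag i
  rw [fc_ex] at e1 e2
  have k := D.same_π _ e3 (e1 ▸ not_not.1 hf)
  rw [e1] at k
  rw [← cl_eq.2 k, cl_glue, e2]

end Wd

end Pool.Agent.Lib.MP_75051e_gt
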