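import Pool.Agent.Lib.MP_75051e_gt.Homol

/-!
The taut modules of the old and of the new triangulation are quotients of each other.
-/

set_option autoImplicit false

namespace Pool.Agent.Lib.MP_75051e_gt

open Finset Gluing

lemma ee_neg {b : ℕ} {M : Type} [AddCommGroup M] [Module (GR b) M] (x : Fin b → ℤ) (m : M) :
    ee (-x) • ee x • m = m := by rw [ee_smul, neg_add_cancel, ee_zero, one_smul]

lemma ee_neg' {b : ℕ} {M : Type} [AddCommGroup M] [Module (GR b) M] (x : Fin b → ℤ) (m : M) :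
    ee x • ee (-x) • m = m := by rw [ee_smul, add_neg_cancel, ee_zero, one_smul]

namespace Loop

variable {G : Gluing} {c : Bool} {b : ℕ} {φ : G.T × Bool → (Fin b → ℤ)} (D : Loop G c φ) {n : ℕ}

lemma TT_last {A : Type} [AddCommGroup A] {q : ℕ} (hq : n + 1 = q * D.h) (g : ZMod D.h → A)
    (hg : ∑ j, g j = 0) (j : ZMod D.h) :
    TT g j ((Fin.last n : ℕ) + 1) = 0 ∧ TT g j (Fin.last n : ℕ) + g (j + 1) = 0 := by
  have e : TT g j ((Fin.last n : ℕ) + 1) = 0 := by
    rw [Fin.val_last, hq]; exact TT_full D.odd g hg j q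
  refine ⟨e, ?_⟩
  rwa [TT_succ, D.last_ind (by rw [hq]; simp)] at e

theorem fit_le {q : ℕ} (hq : n + 1 = q * D.h) :
    fitting (GR b) (TautModule φ) ≤ fitting (GR b) (TautModule (G := D.W n) (D.ph n)) := by
  set v : D.WT n × Fin 6 → TautModule (G := D.W n) (D.ph n) := gen (G := D.W n) (D.ph n) with hv
  have R := (D.rel_iff (Pr := fun s s' f => v s = ee (D.ph n f) • v s')).1
    (gen_glue (G := D.W n) (D.ph n))
  have x1 : xor c c = false := by cases c <;> rfl
  have x2 : xor c (!c) = true := by cases c <;> rfl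
  have x3 : xor (!c) c = true := by cases c <;> rfl
  have x4 : xor (!c) (!c) = false := by cases c <;> rfl
  obtain ⟨O, hO⟩ : ∃ O : ZMod D.h → _, ∀ j, v (D.y n j 0 (sh (!c) true)) = O j :=
    ⟨_, fun _ => rfl⟩
  obtain ⟨N, hN⟩ : ∃ N : ZMod D.h → _, ∀ j, v (D.y n j 0 1) = N j := ⟨_, fun _ => rfl⟩
  have Ou : ∀ j a, v (D.y n j a (sh (!c) true)) = O j := fun j a => by
    rw [D.Ou_eq v (fun j e => by rw [R.cO, ph_c, ee_zero, one_smul]), hO]
  have Od : ∀ j (a : Fin (n + 1)), v (D.y n j a (sh (!c) false)) = O (j - 1 - 2 * (a : ℕ)) :=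
    fun j a => by
      rw [D.Od_eq v (fun j => by rw [R.iO, ph_c, ee_zero, one_smul])
        (fun j e => by rw [R.dO, ph_d, ee_zero, one_smul]), hO]
  have R0 : ∀ j a, v (D.y n j a (sh c false)) = v (D.y n j a 1) + O j := fun j a => by
    have := gen_top (G := D.W n) (D.ph n) (c := c) (f := D.y n j a c) rfl
    simp only [y, x1, x2] at this
    rw [← Ou j a]; exact this
  have R1 : ∀ j (a : Fin (n + 1)), v (D.y n j a (sh c true)) =
      v (D.y n j a 1) + O (j - 1 - 2 * (a : ℕ)) := fun j a => by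
    have := gen_top (G := D.W n) (D.ph n) (c := c) (f := D.y n j a (!c)) rfl
    simp only [y, x3, x4] at this
    rw [← Od j a]; exact this
  have B : ∀ j a, v (D.y n j a 0) = v (D.y n j a (sh c true)) + O j := fun j a => by
    rw [← Ou j a]; exact gen_bot (G := D.W n) (D.ph n) _ c true
  have Na : ∀ j (a : Fin (n + 1)), v (D.y n j a 1) = N j + TT O j a := fun j a => by
    induction a using Fin.induction with
    | zero => rw [hN, Fin.val_zero, TT_zero, add_zero]
    | succ e ih =>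
      rw [R.cT, ph_c, ee_zero, one_smul, R1, ih, Fin.val_succ, TT_succ, Fin.val_castSucc, add_assoc]
  have st : ∀ j, N j = N (j + 1) + O (j + 1) := fun j => by
    rw [← hN, R.iT, ph_c, ee_zero, one_smul, R0, hN]
  have T := D.TT_last hq O (sum_tel O N st)
  have R1l : ∀ j, v (D.y n j (Fin.last n) (sh c true)) = N j := fun j => by
    rw [R1, Na, add_assoc, ← TT_succ, (T j).1, add_zero]
  have Nl : ∀ j, v (D.y n j (Fin.last n) 1) = N (j + 1) := fun j => by
    rw [Na, st, add_assoc, add_comm (O _), (T j).2, add_zero]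
  have up : ∀ j s, ee (φ (D.F j)) • s = ee (- D.P (D.F j)) • ee (D.P (turn G c (D.F j))) •
      (s : TautModule (G := D.W n) (D.ph n)) := fun j s => by
    rw [ee_smul, P_F, neg_add_cancel_left]
  obtain ⟨L, hL⟩ := exists_lift φ c (fun s => v (D.o n s))
    (D.forall_old (Pr := fun s s' f _ => v (D.o n s) = ee (φ f) • v (D.o n s'))
      (fun x i hx => by rw [R.old x i hx, D.ph_old hx]) (fun j => by
        obtain ⟨j, rfl⟩ : ∃ i, j = i + 1 := ⟨j - 1, by ring⟩
        rw [R.fT, ph_F, up, ← ph_e, ← R.eT, R1l, Nl]) (fun j => by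
        obtain ⟨j, rfl⟩ : ∃ i, j = i + 1 := ⟨j - 1, by ring⟩
        rw [R.fW, ph_F, up, ← ph_e, ← R.eW, B, R1l, R1l, ← st]) fun j => by
        obtain ⟨j, rfl⟩ : ∃ i, j = i + 1 := ⟨j - 1, by ring⟩
        rw [R.fO, ph_F, up, ← ph_e, ← R.eO, Ou, Od, D.last_ind (by rw [hq]; simp)])
    fun t k => gen_bot (G := D.W n) (D.ph n) (Sum.inl t) c k
  refine fitting_mono L (span_gen (G := D.W n) (D.ph n) ?_)
  have m0 : ∀ s, v (D.o n s) ∈ LinearMap.range L := fun s => ⟨_, hL s⟩
  have mO : ∀ j, O j ∈ LinearMap.range L := fun j => by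
    have := Submodule.smul_mem _ (ee (D.P (D.F j))) (m0 (D.oL j))
    rwa [R.fO, ph_F, ee_neg', Ou] at this
  have mN : ∀ j a, v (D.y n j a 1) ∈ LinearMap.range L := fun j a => by
    have := Submodule.smul_mem _ (ee (D.P (D.F j))) (m0 (D.S j))
    rw [R.fT, ph_F, ee_neg', R1l] at this
    rw [Na]
    exact add_mem this (sum_mem fun i _ => mO _)
  exact D.slot_ind (Q := fun s => v s ∈ LinearMap.range L) m0
    (fun j a => by rw [B, R1]; exact add_mem (add_mem (mN j a) (mO _)) (mO _)) mN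
    (fun j a => by rw [R0]; exact add_mem (mN j a) (mO _))
    (fun j a => by rw [R1]; exact add_mem (mN j a) (mO _))
    (fun j a => by rw [Od]; exact mO _) fun j a => by rw [Ou]; exact mO _

theorem fit_ge {q : ℕ} (hq : n + 1 = q * D.h) :
    fitting (GR b) (TautModule (G := D.W n) (D.ph n)) ≤ fitting (GR b) (TautModule φ) := by
  obtain ⟨O, hO⟩ : ∃ O : ZMod D.h → _, ∀ j, ee (D.P (D.F j)) • gen φ (D.oL j) = O j :=
    ⟨_, fun _ => rfl⟩
  obtain ⟨N, hN⟩ : ∃ N : ZMod D.h → _, ∀ j, ee (D.P (D.F j)) • gen φ (D.S j) = N j :=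
    ⟨_, fun _ => rfl⟩
  have up : ∀ j i, ee (D.P (turn G c (D.F j))) • gen φ (G.up (D.F j) i) =
      ee (D.P (D.F j)) • gen φ (G.lo (D.F j) i) := fun j i => by rw [gen_glue, ee_smul, P_F]
  have md : ∀ j, ee (D.P (D.F j)) • gen φ (D.mid (D.F j)) = N j + O j := fun j => by
    rw [← hN, ← hO, ← smul_add]
    exact congrArg _ (gen_top φ (D.F_rot j))
  have st : ∀ j, N j = N (j + 1) + O (j + 1) := fun j => by
    rw [← md, D.chain_F (fun x => ee (D.P x) • gen φ (D.mid x)) (fun x hx hr => by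
      rw [← D.up_blue hr, ← lo_blue, gen_glue, ee_smul, D.P_turn x hx]) j, ← upT, up, loT, hN]
  have T := D.TT_last hq O (sum_tel O N st)
  have two : ∀ j, N j = N (j + 2) + O (j + 2) + O (j + 1) := fun j => by
    rw [st, st (j + 1), show j + 1 + 1 = j + 2 by ring]
  let w : D.WT n × Fin 6 → TautModule φ := D.mkf (gen φ)
    (fun j a => N j + TT O j (a + 1) + O j) (fun j a => N j + TT O j a)
    (fun j a => N j + TT O j a + O j) (fun j a => N j + TT O j (a + 1))
    (fun j a => O (j - 1 - 2 * (a : ℕ))) fun j _ => O j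
  have R : D.Rel n fun s s' f => w s = ee (D.ph n f) • w s' := by
    refine ⟨fun x i hx => ?_, fun j => ?_, fun j => ?_, fun j => ?_, fun j => ?_, fun j => ?_,
      fun j => ?_, fun j e => ?_, fun j e => ?_, fun j e => ?_, fun j e => ?_, fun j e => ?_,
      fun j e => ?_, fun j => ?_, fun j => ?_, fun j => ?_⟩
    all_goals simp only [w, mk_o, mk_B, mk_N, mk_R0, mk_R1, mk_Od, mk_Ou, ph_F, ph_c, ph_d, ph_e,
      ee_zero, one_smul, (T _).1, add_zero]
    · rw [D.ph_old hx, gen_glue]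
    · rw [← hN, ee_neg]
    · rw [← md, ee_neg]
    · rw [← hO, ee_neg]
    · rw [Fin.val_zero, TT_zero, TT_zero, add_zero, add_zero, st]
    · rw [Fin.val_zero, TT_succ, TT_zero, TT_zero, st j]
      simp only [Nat.cast_zero, mul_zero, sub_zero, add_sub_cancel_right]
      abel
    · rw [zero_ind]
    · rw [Fin.val_succ, Fin.val_castSucc]
    · rw [Fin.val_succ, Fin.val_castSucc]
    · rw [Fin.val_succ, Fin.val_castSucc, TT_shift, two j]; abel
    · rw [Fin.val_succ, Fin.val_castSucc, TT_shift, two j]; abel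
    · rw [succ_ind]
    · rw [← upT, up, loT, hN, st j, add_assoc, add_comm (O _), (T j).2, add_zero]
    · rw [← upW, up, loW, md, ← st]
    · rw [← upO, up, loO, hO, D.last_ind (by rw [hq]; simp)]
  obtain ⟨L, hL⟩ := exists_lift (G := D.W n) (D.ph n) c w (D.rel_iff.2 R) (by
    rintro (t | ⟨j, a⟩) k
    · exact gen_bot φ t c k
    · change w (D.y n j a 0) = w (D.y n j a (sh c k)) + w (D.y n j a (sh (!c) k))
      cases k
      · simp only [w, mk_B, mk_R0, mk_Od, TT_succ]; abel
      · simp only [w, mk_B, mk_R1, mk_Ou])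
  exact fitting_mono L (span_gen φ fun s => ⟨_, hL (D.o n s)⟩)

lemma card_W : Fintype.card (D.W n).T = Fintype.card G.T + D.h * (n + 1) := by
  have : Fintype.card (D.WT n) = Fintype.card G.T + D.h * (n + 1) := by simp
  exact (Fintype.card_congr (Equiv.refl _)).trans this

end Loop

/-- surgery along an odd null-homologous colour cycle -/
theorem infinite_family (V : Gluing) (hV : V.IsVeering) {b : ℕ} (φ : V.T × Bool → (Fin b → ℤ))
    (hφ : IsFreeAb φ) (c : Bool) (f : V.T × Bool) (hf : OddNullCycle φ c f) :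
    ∃ W : ℕ → Gluing, (∀ k, (W k).IsVeering) ∧
      (Function.Injective fun k => Fintype.card (W k).T) ∧
      ∀ k, ∃ φ' : (W k).T × Bool → (Fin b → ℤ), IsFreeAb φ' ∧
        fitting (GR b) (TautModule φ') = fitting (GR b) (TautModule φ) := by
  obtain ⟨D⟩ := exists_loop hV hf
  have ex : ∀ k, ∃ q, 2 * k + 1 ≤ q ∧ q ≤ 2 * k + 2 ∧ D.Good q := fun k =>
    (D.good_or hφ (2 * k + 1)).elim (fun h => ⟨_, le_rfl, by omega, h⟩)
      fun h => ⟨_, by omega, le_rfl, h⟩
  choose q h1 h2 h3 using ex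
  have pos := D.odd.pos
  have hq : ∀ k, q k * D.h - 1 + 1 = q k * D.h := fun k =>
    Nat.sub_add_cancel (Nat.mul_pos (by have := h1 k; omega) pos)
  refine ⟨fun k => D.W (q k * D.h - 1), fun k => D.veering_W hV (by rw [hq]; simp),
    fun k k' e => ?_, fun k => ⟨D.ph _, D.freeAb_W hφ (hq k) (h3 k),
      le_antisymm (D.fit_ge (hq k)) (D.fit_le (hq k))⟩⟩
  simp only [D.card_W, hq] at e
  have := Nat.eq_of_mul_eq_mul_right pos (Nat.eq_of_mul_eq_mul_left pos (Nat.add_left_cancel e))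
  have := h1 k
  have := h2 k
  have := h1 k'
  have := h2 k'
  omega

end Pool.Agent.Lib.MP_75051e_gt
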